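import Pool.Agent.H98.NI.Ends

/-!
`ℓ_p^m` is a summand of `L_p` of the counting measure on `ℕ`.
-/

set_option autoImplicit false

open scoped ENNReal NNReal
open Set Filter Topology MeasureTheory

namespace Pool.Agent.H98.NIL

open Pool.Agent.H148R3.NI
open Pool.Agent.H148R3.NM (J_zero)

variable {N : ℕ} {p : ℝ≥0∞} [Fact (1 ≤ p)]

lemma all_of_ae {P : ℕ → Prop} (h : ∀ᵐ n ∂(Measure.count : Measure ℕ), P n) (n : ℕ) : P n := by
  rw [ae_iff_of_countable] at h
  refine h n ?_
  rw [Measure.count_singleton]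
  exact one_ne_zero

/-- evaluation -/
noncomputable def ev (p : ℝ≥0∞) (n : ℕ) : Lp ℂ p (Measure.count : Measure ℕ) →ₗ[ℂ] ℂ where
  toFun := fun u => u n
  map_add' := fun u v => all_of_ae (Lp.coeFn_add u v) n
  map_smul' := fun c u => all_of_ae (Lp.coeFn_smul c u) n

omit [Fact (1 ≤ p)] in
lemma ev_ext {u v : Lp ℂ p (Measure.count : Measure ℕ)} (h : ∀ n, ev p n u = ev p n v) : u = v :=
  Lp.ext (Eventually.of_forall h)

lemma cnt_ne (n : ℕ) : (Measure.count : Measure ℕ) {n} ≠ ∞ := by
  rw [Measure.count_singleton]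
  exact ENNReal.one_ne_top

/-- the unit vectors -/
noncomputable def famC (N : ℕ) (hp : p ≠ ∞) (h1 : 1 < p.toReal) :
    Fam (Measure.count : Measure ℕ) p (Fin N) where
  A := fun i => {i.val}
  hA := fun i => measurableSet_singleton _
  dis := by
    intro i j hij
    rw [Set.disjoint_singleton]
    exact fun h => hij (Fin.ext h)
  e := fun i => indicatorConstLp p (measurableSet_singleton i.val) (cnt_ne i.val) (1 : ℂ)
  norm_e := by
    intro i
    have hp0 : 0 < p.toReal := by linarith
    have hpz : p ≠ 0 := fun h => by rw [h] at hp0; simp at hp0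
    rw [norm_indicatorConstLp hpz hp, norm_one, one_mul]
    have : (Measure.count : Measure ℕ).real {i.val} = 1 := by
      rw [Measure.real, Measure.count_singleton]
      simp
    rw [this, Real.one_rpow]
  supp := by
    intro i
    filter_upwards [indicatorConstLp_coeFn (p := p) (hs := measurableSet_singleton i.val)
      (hμs := cnt_ne i.val) (c := (1 : ℂ))] with ω e2 hω
    rw [e2, indicator_of_notMem hω]

lemma ev_fam (hp : p ≠ ∞) (h1 : 1 < p.toReal) (i : Fin N) (n : ℕ) :
    ev p n ((famC N hp h1).e i) = if n = i.val then 1 else 0 := by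
  have h := all_of_ae (indicatorConstLp_coeFn (p := p) (hs := measurableSet_singleton i.val)
      (hμs := cnt_ne i.val) (c := (1 : ℂ))) n
  have h2 : ev p n ((famC N hp h1).e i) = ({i.val} : Set ℕ).indicator (fun _ => (1 : ℂ)) n := h
  rw [h2, Set.indicator_apply]
  rfl

lemma ev_Rs {A : Set ℕ} (hA : MeasurableSet A) (u : Lp ℂ p (Measure.count : Measure ℕ)) (n : ℕ) :
    ev p n (Rs hA u) = A.indicator u n := all_of_ae (Rs_coe hA u) n

lemma prj_C (hp : p ≠ ∞) (h1 : 1 < p.toReal) (u : Lp ℂ p (Measure.count : Measure ℕ))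
    (i : Fin N) : prj (famC N hp h1) hp h1 u i = u i.val := by
  classical
  rw [prj_apply]
  have e1 : NL hp h1 ((famC N hp h1).e i) u =
      NL hp h1 ((famC N hp h1).e i) (Rs ((famC N hp h1).hA i) u) := by
    rw [NL_apply, NL_apply]
    refine integral_congr_ae ?_
    filter_upwards [(famC N hp h1).supp i, Rs_coe ((famC N hp h1).hA i) u] with ω hω1 hω2
    by_cases h : ω ∈ (famC N hp h1).A i
    · rw [hω2, indicator_of_mem h]
    · rw [hω1 h, J_zero, zero_mul, zero_mul]
  have e2 : Rs ((famC N hp h1).hA i) u = (u i.val) • (famC N hp h1).e i := by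
    apply ev_ext
    intro n
    rw [ev_Rs, map_smul, ev_fam, smul_eq_mul, Set.indicator_apply]
    by_cases hn : n = i.val
    · have h3 : n ∈ (famC N hp h1).A i := hn
      rw [if_pos h3, if_pos hn, mul_one, hn]
    · have h3 : n ∉ (famC N hp h1).A i := hn
      rw [if_neg h3, if_neg hn, mul_zero]
  rw [e1, e2, map_smul, NL_self, (famC N hp h1).norm_e, Real.one_rpow, smul_eq_mul]
  simp

lemma emb_prj (hp : p ≠ ∞) (h1 : 1 < p.toReal) (u : Lp ℂ p (Measure.count : Measure ℕ))
    (hA : MeasurableSet {n : ℕ | n < N}) :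
    emb (famC N hp h1) hp h1 (prj (famC N hp h1) hp h1 u) = Rs hA u := by
  classical
  apply ev_ext
  intro n
  rw [emb_apply, map_sum, ev_Rs, Set.indicator_apply]
  simp only [map_smul, ev_fam, prj_C, smul_eq_mul]
  by_cases hn : n < N
  · rw [if_pos (show n ∈ {n : ℕ | n < N} from hn), Finset.sum_eq_single ⟨n, hn⟩]
    · simp
    · intro j _ hj
      rw [if_neg, mul_zero]
      intro h
      exact hj (Fin.ext h.symm)
    · intro h
      exact absurd (Finset.mem_univ _) h
  · rw [if_neg (show n ∉ {n : ℕ | n < N} from hn)]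
    refine Finset.sum_eq_zero fun j _ => ?_
    rw [if_neg, mul_zero]
    intro h
    exact hn (h ▸ j.2)

theorem cnt_le (hN : 0 < N) (hp : p ≠ ∞) (h1 : 1 < p.toReal) :
    numIndex (Lp ℂ p (Measure.count : Measure ℕ)) ≤ numIndex (lp (fun _ : Fin N => ℂ) p) := by
  classical
  have hA : MeasurableSet {n : ℕ | n < N} := MeasurableSet.of_discrete
  have hnt : Nontrivial (lp (fun _ : Fin N => ℂ) p) := by
    refine ⟨lp.single p ⟨0, hN⟩ (1 : ℂ), 0, fun h0 => ?_⟩
    have := congrArg (fun f : lp (fun _ : Fin N => ℂ) p => f ⟨0, hN⟩) h0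
    simp at this
  refine summand (emb (famC N hp h1) hp h1) (prj (famC N hp h1) hp h1) (q := p.toReal)
    (by linarith) (emb_norm _ hp h1) (prj_norm _ hp h1) (prj_emb _ hp h1) fun u => ?_
  rw [← emb_norm (famC N hp h1) hp h1 (prj (famC N hp h1) hp h1 u), emb_prj hp h1 u hA,
    Rs_split hA hp h1 u]
  congr 3
  apply ev_ext
  intro n
  rw [map_sub, ev_Rs, ev_Rs, Set.indicator_apply, Set.indicator_apply]
  show _ = u n - _
  by_cases hn : n < N
  · rw [if_neg (show n ∉ {n : ℕ | n < N}ᶜ from fun h => h hn),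
      if_pos (show n ∈ {n : ℕ | n < N} from hn), sub_self]
  · rw [if_pos (show n ∈ {n : ℕ | n < N}ᶜ from hn),
      if_neg (show n ∉ {n : ℕ | n < N} from hn), sub_zero]

end Pool.Agent.H98.NIL
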