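import Pool.Agent.H98.NI.Max

/-!
Clarkson's inequalities, for complex numbers, for `ℓ_p` and `L_p`, and their duality.
-/

set_option autoImplicit false

open scoped ENNReal NNReal
open Set Filter Topology MeasureTheory

namespace Pool.Agent.H98.NIL

/-- Clarkson's inequality with exponent `p ≤ 2` -/
def Cw (X : Type*) [NormedAddCommGroup X] (p : ℝ) : Prop :=
  ∀ x y : X, ‖x + y‖ ^ p + ‖x - y‖ ^ p ≤ 2 * (‖x‖ ^ p + ‖y‖ ^ p)

lemma sq_half {a p : ℝ} (ha : 0 ≤ a) : a ^ p = (a ^ 2) ^ (p / 2) := by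
  rw [← Real.rpow_natCast, ← Real.rpow_mul ha]
  congr 1
  push_cast
  ring

lemma par (x y : ℂ) : ‖x + y‖ ^ 2 + ‖x - y‖ ^ 2 = 2 * (‖x‖ ^ 2 + ‖y‖ ^ 2) :=
  parallelogram_law_with_norm ℂ x y

theorem ptwise_ge {p : ℝ} (hp : 2 ≤ p) : Cl ℂ p := by
  intro x y
  have ht : 1 ≤ p / 2 := by linarith
  have h1 : (‖x + y‖ ^ 2) ^ (p / 2) + (‖x - y‖ ^ 2) ^ (p / 2) ≤
      (‖x + y‖ ^ 2 + ‖x - y‖ ^ 2) ^ (p / 2) :=
    Real.add_rpow_le_rpow_add (by positivity) (by positivity) ht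
  have h2 : (‖x‖ ^ 2 + ‖y‖ ^ 2) ^ (p / 2) ≤
      2 ^ (p / 2 - 1) * ((‖x‖ ^ 2) ^ (p / 2) + (‖y‖ ^ 2) ^ (p / 2)) := by
    have h := NNReal.rpow_add_le_mul_rpow_add_rpow (‖x‖₊ ^ 2) (‖y‖₊ ^ 2) ht
    exact_mod_cast h
  rw [sq_half (norm_nonneg (x + y)), sq_half (norm_nonneg (x - y)), sq_half (norm_nonneg x),
    sq_half (norm_nonneg y)]
  refine h1.trans ?_
  rw [par, Real.mul_rpow (by norm_num) (by positivity)]
  have h3 : (2 : ℝ) ^ (p - 1) = 2 ^ (p / 2) * 2 ^ (p / 2 - 1) := by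
    rw [← Real.rpow_add (by norm_num)]
    congr 1
    ring
  rw [h3, mul_assoc]
  exact mul_le_mul_of_nonneg_left h2 (by positivity)

theorem ptwise_le {p : ℝ} (hp0 : 0 < p) (hp : p ≤ 2) : Cw ℂ p := by
  intro x y
  have ht0 : 0 ≤ p / 2 := by positivity
  have ht : p / 2 ≤ 1 := by linarith
  have h1 : (‖x + y‖ ^ 2) ^ (p / 2) + (‖x - y‖ ^ 2) ^ (p / 2) ≤
      2 * ((‖x‖ ^ 2 + ‖y‖ ^ 2)) ^ (p / 2) := by
    have hc := (Real.concaveOn_rpow ht0 ht).2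
    have h := hc (Set.mem_Ici.2 (sq_nonneg ‖x + y‖)) (Set.mem_Ici.2 (sq_nonneg ‖x - y‖))
      (by norm_num : (0 : ℝ) ≤ 1 / 2) (by norm_num : (0 : ℝ) ≤ 1 / 2) (by norm_num)
    simp only [smul_eq_mul] at h
    have e : 1 / 2 * ‖x + y‖ ^ 2 + 1 / 2 * ‖x - y‖ ^ 2 = ‖x‖ ^ 2 + ‖y‖ ^ 2 := by
      linarith [par x y]
    rw [e] at h
    linarith
  have h2 : (‖x‖ ^ 2 + ‖y‖ ^ 2) ^ (p / 2) ≤ (‖x‖ ^ 2) ^ (p / 2) + (‖y‖ ^ 2) ^ (p / 2) :=
    Real.rpow_add_le_add_rpow (by positivity) (by positivity) ht0 ht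
  rw [sq_half (norm_nonneg (x + y)), sq_half (norm_nonneg (x - y)), sq_half (norm_nonneg x),
    sq_half (norm_nonneg y)]
  linarith

lemma sup_lemma {X : Type*} [NormedAddCommGroup X] [NormedSpace ℂ X] (φ : X →L[ℂ] ℂ) {a D : ℝ}
    (ha : 0 ≤ a) (h : ∀ u : X, ‖u‖ ≤ 1 → a * ‖φ u‖ ≤ D) : a * ‖φ‖ ≤ D := by
  have hD : 0 ≤ D := by
    have := h 0 (by simp)
    simpa using this
  rcases ha.eq_or_lt with h0 | h0
  · rw [← h0, zero_mul]; exact hD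
  have h1 : ‖φ‖ ≤ D / a := by
    refine ContinuousLinearMap.opNorm_le_bound _ (by positivity) fun x => ?_
    by_cases hx : x = 0
    · simp [hx]
    have hx0 : 0 < ‖x‖ := norm_pos_iff.2 hx
    have h5 := h ((‖x‖⁻¹ : ℂ) • x) (by
      rw [norm_smul, norm_inv, Complex.norm_real, norm_norm, inv_mul_cancel₀ hx0.ne'])
    rw [map_smul, norm_smul, norm_inv, Complex.norm_real, norm_norm] at h5
    rw [div_mul_eq_mul_div, le_div_iff₀ h0]
    have h6 : ‖x‖⁻¹ * ‖φ x‖ * ‖x‖ = ‖φ x‖ := by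
      field_simp
    calc ‖φ x‖ * a = (a * (‖x‖⁻¹ * ‖φ x‖)) * ‖x‖ := by
          rw [mul_assoc, h6, mul_comm]
      _ ≤ _ := mul_le_mul_of_nonneg_right h5 hx0.le
  rw [le_div_iff₀ h0] at h1
  linarith

lemma holder2 {p q : ℝ} (hpq : p.HolderConjugate q) {a b c d : ℝ} (ha : 0 ≤ a) (hb : 0 ≤ b)
    (hc : 0 ≤ c) (hd : 0 ≤ d) :
    a * c + b * d ≤ (a ^ p + b ^ p) ^ (1 / p) * (c ^ q + d ^ q) ^ (1 / q) := by
  have h := Real.inner_le_Lp_mul_Lq_of_nonneg (Finset.univ : Finset (Fin 2)) (f := ![a, b])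
    (g := ![c, d]) hpq (by
      intro i _
      fin_cases i
      · exact ha
      · exact hb) (by
      intro i _
      fin_cases i
      · exact hc
      · exact hd)
  simpa [Fin.sum_univ_two] using h

theorem dual_cl {X : Type*} [NormedAddCommGroup X] [NormedSpace ℂ X] {p q : ℝ}
    (hpq : p.HolderConjugate q) (hC : Cw X p) : Cl (X →L[ℂ] ℂ) q := by
  intro φ ψ
  have hp0 : 0 < p := hpq.pos
  have hq0 : 0 < q := hpq.symm.pos
  set A := ‖φ + ψ‖ with hA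
  set B := ‖φ - ψ‖ with hB
  set C := (‖φ‖ ^ q + ‖ψ‖ ^ q) ^ (1 / q) with hCd
  have hA0 : 0 ≤ A := norm_nonneg _
  have hB0 : 0 ≤ B := norm_nonneg _
  have hC0 : 0 ≤ C := by positivity
  -- the basic inequality
  have h1 : ∀ (a b : ℝ), 0 ≤ a → 0 ≤ b → ∀ u w : X, ‖u‖ ≤ 1 → ‖w‖ ≤ 1 →
      a * ‖(φ + ψ) u‖ + b * ‖(φ - ψ) w‖ ≤ (2 * (a ^ p + b ^ p)) ^ (1 / p) * C := by
    intro a b ha hb u w hu hw
    obtain ⟨c, hc, hcu⟩ : ∃ c : ℂ, ‖c‖ = 1 ∧ c * (φ + ψ) u = (‖(φ + ψ) u‖ : ℂ) := by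
      by_cases h0 : (φ + ψ) u = 0
      · exact ⟨1, by simp, by simp [h0]⟩
      · have hn : (‖(φ + ψ) u‖ : ℂ) ≠ 0 := by
          exact_mod_cast norm_ne_zero_iff.2 h0
        refine ⟨(‖(φ + ψ) u‖ : ℂ) / (φ + ψ) u, ?_, ?_⟩
        · rw [norm_div, Complex.norm_real, norm_norm, div_self (norm_ne_zero_iff.2 h0)]
        · field_simp
    obtain ⟨c', hc', hcw⟩ : ∃ c : ℂ, ‖c‖ = 1 ∧ c * (φ - ψ) w = (‖(φ - ψ) w‖ : ℂ) := by
      by_cases h0 : (φ - ψ) w = 0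
      · exact ⟨1, by simp, by simp [h0]⟩
      · have hn : (‖(φ - ψ) w‖ : ℂ) ≠ 0 := by
          exact_mod_cast norm_ne_zero_iff.2 h0
        refine ⟨(‖(φ - ψ) w‖ : ℂ) / (φ - ψ) w, ?_, ?_⟩
        · rw [norm_div, Complex.norm_real, norm_norm, div_self (norm_ne_zero_iff.2 h0)]
        · field_simp
    set x : X := ((a : ℂ) * c) • u with hx
    set y : X := ((b : ℂ) * c') • w with hy
    have hxn : ‖x‖ ≤ a := by
      rw [hx, norm_smul, norm_mul, hc, Complex.norm_real, Real.norm_of_nonneg ha, mul_one]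
      exact mul_le_of_le_one_right ha hu
    have hyn : ‖y‖ ≤ b := by
      rw [hy, norm_smul, norm_mul, hc', Complex.norm_real, Real.norm_of_nonneg hb, mul_one]
      exact mul_le_of_le_one_right hb hw
    have h2 : φ (x + y) + ψ (x - y) = ((a * ‖(φ + ψ) u‖ + b * ‖(φ - ψ) w‖ : ℝ) : ℂ) := by
      have e1 : φ (x + y) + ψ (x - y) = (φ + ψ) x + (φ - ψ) y := by
        simp only [map_add, map_sub, add_apply, sub_apply]
        ring
      rw [e1, hx, hy, map_smul, map_smul, smul_eq_mul, smul_eq_mul, mul_assoc, mul_assoc, hcu,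
        hcw]
      push_cast
      ring
    have h3 : a * ‖(φ + ψ) u‖ + b * ‖(φ - ψ) w‖ ≤ ‖φ‖ * ‖x + y‖ + ‖ψ‖ * ‖x - y‖ := by
      have h4 : ‖φ (x + y) + ψ (x - y)‖ ≤ ‖φ‖ * ‖x + y‖ + ‖ψ‖ * ‖x - y‖ :=
        (norm_add_le _ _).trans (add_le_add (φ.le_opNorm _) (ψ.le_opNorm _))
      rw [h2, Complex.norm_real, Real.norm_of_nonneg (by positivity)] at h4
      exact h4
    have h5 := holder2 hpq.symm (norm_nonneg φ) (norm_nonneg ψ) (norm_nonneg (x + y))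
      (norm_nonneg (x - y))
    have h6 : (‖x + y‖ ^ p + ‖x - y‖ ^ p) ^ (1 / p) ≤ (2 * (a ^ p + b ^ p)) ^ (1 / p) := by
      apply Real.rpow_le_rpow (by positivity) _ (by positivity)
      refine (hC x y).trans ?_
      have h7 := Real.rpow_le_rpow (norm_nonneg x) hxn hp0.le
      have h8 := Real.rpow_le_rpow (norm_nonneg y) hyn hp0.le
      linarith
    calc _ ≤ ‖φ‖ * ‖x + y‖ + ‖ψ‖ * ‖x - y‖ := h3
      _ ≤ C * (‖x + y‖ ^ p + ‖x - y‖ ^ p) ^ (1 / p) := h5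
      _ ≤ C * (2 * (a ^ p + b ^ p)) ^ (1 / p) := mul_le_mul_of_nonneg_left h6 hC0
      _ = _ := mul_comm _ _
  have h2 : ∀ (a b : ℝ), 0 ≤ a → 0 ≤ b → a * A + b * B ≤ (2 * (a ^ p + b ^ p)) ^ (1 / p) * C := by
    intro a b ha hb
    have h3 : ∀ u : X, ‖u‖ ≤ 1 → b * B ≤ (2 * (a ^ p + b ^ p)) ^ (1 / p) * C -
        a * ‖(φ + ψ) u‖ := by
      intro u hu
      refine sup_lemma _ hb fun w hw => ?_
      linarith [h1 a b ha hb u w hu hw]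
    have h4 : a * A ≤ (2 * (a ^ p + b ^ p)) ^ (1 / p) * C - b * B := by
      refine sup_lemma _ ha fun u hu => ?_
      linarith [h3 u hu]
    linarith
  have h3 := h2 (A ^ (q - 1)) (B ^ (q - 1)) (by positivity) (by positivity)
  have hq1 : 1 < q := hpq.symm.lt
  have e1 : ∀ t : ℝ, 0 ≤ t → t ^ (q - 1) * t = t ^ q := by
    intro t ht
    rcases ht.eq_or_lt with h0 | h0
    · rw [← h0, mul_zero, Real.zero_rpow (by linarith)]
    · rw [← Real.rpow_add_one h0.ne', sub_add_cancel]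
  have e2 : ∀ t : ℝ, 0 ≤ t → (t ^ (q - 1)) ^ p = t ^ q := by
    intro t ht
    rw [← Real.rpow_mul ht]
    congr 1
    have := hpq.symm.sub_one_mul_conj
    exact this
  rw [e1 A hA0, e1 B hB0, e2 A hA0, e2 B hB0] at h3
  set S := A ^ q + B ^ q with hS
  have hS0 : 0 ≤ S := by positivity
  rcases hS0.eq_or_lt with h0 | h0
  · rw [← h0]; positivity
  -- S ≤ (2 S)^(1/p) C
  have h4 : S ^ (1 / q) ≤ 2 ^ (1 / p) * C := by
    have h5 : S = S ^ (1 / p) * S ^ (1 / q) := by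
      rw [← Real.rpow_add h0]
      have : 1 / p + 1 / q = 1 := by
        have := hpq.inv_add_inv_eq_one
        rw [one_div, one_div]; exact this
      rw [this, Real.rpow_one]
    have h6 : S ^ (1 / p) * S ^ (1 / q) ≤ S ^ (1 / p) * (2 ^ (1 / p) * C) := by
      rw [← h5]
      refine h3.trans (le_of_eq ?_)
      rw [Real.mul_rpow (by norm_num) hS0]
      ring
    exact le_of_mul_le_mul_left h6 (Real.rpow_pos_of_pos h0 _)
  have h5 : (S ^ (1 / q)) ^ q ≤ (2 ^ (1 / p) * C) ^ q :=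
    Real.rpow_le_rpow (by positivity) h4 hq0.le
  rw [← Real.rpow_mul hS0, one_div_mul_cancel hq0.ne', Real.rpow_one,
    Real.mul_rpow (by positivity) hC0, ← Real.rpow_mul (by norm_num), hCd,
    ← Real.rpow_mul (by positivity), one_div_mul_cancel hq0.ne', Real.rpow_one] at h5
  have e3 : 1 / p * q = q - 1 := by
    have := hpq.symm.sub_one_mul_conj
    field_simp
    linarith
  rw [e3] at h5
  exact h5

/-! ### `ℓ_p` -/

theorem lp_ge {ι : Type*} {p : ℝ≥0∞} [Fact (1 ≤ p)] (h2 : 2 ≤ p.toReal) :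
    Cl (lp (fun _ : ι => ℂ) p) p.toReal := by
  intro x y
  have hp0 : 0 < p.toReal := by linarith
  have h1 := (lp.hasSum_norm hp0 (x + y)).add (lp.hasSum_norm hp0 (x - y))
  have h3 := ((lp.hasSum_norm hp0 x).add (lp.hasSum_norm hp0 y)).mul_left (2 ^ (p.toReal - 1))
  exact hasSum_le (fun i => ptwise_ge h2 (x i) (y i)) h1 h3

theorem lp_le {ι : Type*} {p : ℝ≥0∞} [Fact (1 ≤ p)] (hp0 : 0 < p.toReal) (h2 : p.toReal ≤ 2) :
    Cw (lp (fun _ : ι => ℂ) p) p.toReal := by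
  intro x y
  have h1 := (lp.hasSum_norm hp0 (x + y)).add (lp.hasSum_norm hp0 (x - y))
  have h3 := ((lp.hasSum_norm hp0 x).add (lp.hasSum_norm hp0 y)).mul_left 2
  exact hasSum_le (fun i => ptwise_le hp0 h2 (x i) (y i)) h1 h3

/-! ### `L_p` -/

lemma Lp_norm {Ω : Type*} [MeasurableSpace Ω] {μ : Measure Ω} {p : ℝ≥0∞} (hp : p ≠ ∞)
    (hp0 : 0 < p.toReal) (f : Lp ℂ p μ) : ‖f‖ ^ p.toReal = ∫ x, ‖f x‖ ^ p.toReal ∂μ := by
  have hp1 : p ≠ 0 := fun h => by rw [h] at hp0; simp at hp0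
  rw [Lp.norm_def, (Lp.memLp f).eLpNorm_eq_integral_rpow_norm hp1 hp,
    ENNReal.toReal_ofReal (by positivity), ← Real.rpow_mul (by positivity),
    inv_mul_cancel₀ hp0.ne', Real.rpow_one]

lemma Lp_int {Ω : Type*} [MeasurableSpace Ω] {μ : Measure Ω} {p : ℝ≥0∞} (hp : p ≠ ∞)
    (hp0 : 0 < p.toReal) (f : Lp ℂ p μ) : Integrable (fun x => ‖f x‖ ^ p.toReal) μ := by
  have hp1 : p ≠ 0 := fun h => by rw [h] at hp0; simp at hp0
  exact (Lp.memLp f).integrable_norm_rpow hp1 hp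

lemma Lp_of {Ω : Type*} [MeasurableSpace Ω] {μ : Measure Ω} {p : ℝ≥0∞} (hp : p ≠ ∞)
    (hp0 : 0 < p.toReal) (C : ℝ)
    (h : ∀ x y : ℂ, ‖x + y‖ ^ p.toReal + ‖x - y‖ ^ p.toReal ≤
      C * (‖x‖ ^ p.toReal + ‖y‖ ^ p.toReal)) (x y : Lp ℂ p μ) :
    ‖x + y‖ ^ p.toReal + ‖x - y‖ ^ p.toReal ≤ C * (‖x‖ ^ p.toReal + ‖y‖ ^ p.toReal) := by
  rw [Lp_norm hp hp0, Lp_norm hp hp0, Lp_norm hp hp0, Lp_norm hp hp0,
    ← integral_add (Lp_int hp hp0 _) (Lp_int hp hp0 _),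
    ← integral_add (Lp_int hp hp0 _) (Lp_int hp hp0 _), ← integral_const_mul]
  refine integral_mono_ae ((Lp_int hp hp0 _).add (Lp_int hp hp0 _))
    (((Lp_int hp hp0 _).add (Lp_int hp hp0 _)).const_mul C) ?_
  filter_upwards [Lp.coeFn_add x y, Lp.coeFn_sub x y] with ω h1 h2
  rw [h1, h2]
  exact h (x ω) (y ω)

theorem Lp_ge {Ω : Type*} [MeasurableSpace Ω] {μ : Measure Ω} {p : ℝ≥0∞} [Fact (1 ≤ p)]
    (hp : p ≠ ∞) (h2 : 2 ≤ p.toReal) : Cl (Lp ℂ p μ) p.toReal := by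
  intro x y
  exact Lp_of hp (by linarith) _ (fun x y => ptwise_ge h2 x y) x y

theorem Lp_le {Ω : Type*} [MeasurableSpace Ω] {μ : Measure Ω} {p : ℝ≥0∞} [Fact (1 ≤ p)]
    (hp : p ≠ ∞) (hp0 : 0 < p.toReal) (h2 : p.toReal ≤ 2) : Cw (Lp ℂ p μ) p.toReal := by
  intro x y
  exact Lp_of hp hp0 _ (fun x y => ptwise_le hp0 h2 x y) x y

end Pool.Agent.H98.NIL
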