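import Pool.Agent.H98.NI.Res
import Pool.Agent.H98.NI.Clk
import Pool.Graph.R_seed8.H148R3.NM4

/-!
Numerical index of complex `L_p`: lower bounds above `1 / e`.
-/

set_option autoImplicit false

open scoped ENNReal NNReal
open Set Filter Topology MeasureTheory

namespace Pool.Agent.H98.NIL

open Pool.Agent.H148R3.NI

theorem gen {X : Type*} [NormedAddCommGroup X] [NormedSpace ℂ X] [CompleteSpace X] [Nontrivial X]
    {p : ℝ} (hp : 1 < p) (hge : 2 ≤ p → Cl X p) (hle : p ≤ 2 → Cw X p) {R : ℝ} (hR : 0 < R) :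
    Real.log (1 + R ^ max p (p / (p - 1))) / (max p (p / (p - 1)) * R) ≤ numIndex X := by
  have hp1 : 0 < p - 1 := by linarith
  have hpq : p.HolderConjugate (p / (p - 1)) := by
    have := Real.HolderConjugate.conjExponent hp
    exact this
  rcases le_total 2 p with h2 | h2
  · have hm : max p (p / (p - 1)) = p := by
      apply max_eq_left
      rw [div_le_iff₀ hp1]
      nlinarith
    rw [hm]
    exact bound_of (by linarith) (fun T R hR x hx => primal (by linarith) (hge h2) T hR x hx) hR
  · have hm : max p (p / (p - 1)) = p / (p - 1) := by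
      apply max_eq_right
      rw [le_div_iff₀ hp1]
      nlinarith
    rw [hm]
    have hq : 1 ≤ p / (p - 1) := by
      rw [le_div_iff₀ hp1]
      linarith
    exact bound_of hq (fun T R hR x hx => dual hq (dual_cl hpq (hle h2)) T hR x hx) hR

lemma toReal_one_lt {p : ℝ≥0∞} (h1 : 1 < p) (hp : p ≠ ∞) : 1 < p.toReal := by
  rw [← ENNReal.toReal_one]
  exact (ENNReal.toReal_lt_toReal ENNReal.one_ne_top hp).2 h1

theorem lp_bound {ι : Type*} [Nonempty ι] (p : ℝ≥0∞) [Fact (1 ≤ p)] (h1 : 1 < p) (hp : p ≠ ∞)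
    {R : ℝ} (hR : 0 < R) :
    Real.log (1 + R ^ max p.toReal (p.toReal / (p.toReal - 1))) /
      (max p.toReal (p.toReal / (p.toReal - 1)) * R) ≤ numIndex (lp (fun _ : ι => ℂ) p) := by
  have h := toReal_one_lt h1 hp
  have : Nontrivial (lp (fun _ : ι => ℂ) p) := by
    classical
    obtain ⟨i⟩ := ‹Nonempty ι›
    refine ⟨lp.single p i (1 : ℂ), 0, fun h0 => ?_⟩
    have := congrArg (fun f : lp (fun _ : ι => ℂ) p => f i) h0
    simp at this
  exact gen h (fun h2 => lp_ge h2) (fun h2 => lp_le (by linarith) h2) hR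

theorem Lp_bound {Ω : Type*} [MeasurableSpace Ω] (μ : Measure Ω) (p : ℝ≥0∞) [Fact (1 ≤ p)]
    (h1 : 1 < p) (hp : p ≠ ∞) [Nontrivial (Lp ℂ p μ)] {R : ℝ} (hR : 0 < R) :
    Real.log (1 + R ^ max p.toReal (p.toReal / (p.toReal - 1))) /
      (max p.toReal (p.toReal / (p.toReal - 1)) * R) ≤ numIndex (Lp ℂ p μ) := by
  have h := toReal_one_lt h1 hp
  exact gen h (fun h2 => Lp_ge hp h2) (fun h2 => Lp_le hp (by linarith) h2) hR

lemma value {s : ℝ} (hs : 0 < s) :
    Real.log (1 + (Real.exp 1) ^ s) / (s * Real.exp 1) =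
      Real.exp (-1) + Real.log (1 + Real.exp (-s)) / (s * Real.exp 1) := by
  have e1 : 1 + (Real.exp 1) ^ s = Real.exp s * (1 + Real.exp (-s)) := by
    rw [← Real.exp_mul, one_mul, mul_add, ← Real.exp_add]
    simp
    ring
  rw [e1, Real.log_mul (Real.exp_pos _).ne' (by positivity), Real.log_exp, add_div]
  congr 1
  rw [Real.exp_neg]
  have := (Real.exp_pos 1).ne'
  field_simp

theorem uniform : ∃ c : ℝ, Real.exp (-1) < c ∧ ∀ (p : ℝ≥0∞) [Fact (1 ≤ p)], 1 < p → p ≠ ∞ →
    ∀ (ι : Type*) [Nonempty ι], c ≤ numIndex (lp (fun _ : ι => ℂ) p) := by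
  obtain ⟨K, hK, hlim⟩ := Pool.Agent.H148R3.NM.limit_two (ε := 1 / 2) (by norm_num)
  have hK0 : 0 < K := by linarith
  have hlog : ∀ s : ℝ, 0 < Real.log (1 + Real.exp (-s)) := fun s =>
    Real.log_pos (by linarith [Real.exp_pos (-s)])
  refine ⟨min (1 / 2) (Real.exp (-1) + Real.log (1 + Real.exp (-K)) / (K * Real.exp 1)), ?_, ?_⟩
  · rw [lt_min_iff]
    constructor
    · rw [Real.exp_neg, inv_lt_comm₀ (Real.exp_pos _) (by norm_num)]
      have := Real.exp_one_gt_d9
      norm_num
      linarith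
    · have := hlog K
      have : 0 < Real.log (1 + Real.exp (-K)) / (K * Real.exp 1) := by positivity
      linarith
  · intro p _ h1 hp ι _
    by_cases h : K < p.toReal ∨ K < p.toReal / (p.toReal - 1)
    · have := hlim p h1 hp h ι
      exact (min_le_left _ _).trans (by linarith)
    · rw [not_or, not_lt, not_lt] at h
      have hb := lp_bound (ι := ι) p h1 hp (Real.exp_pos 1)
      have hp1 := toReal_one_lt h1 hp
      set s := max p.toReal (p.toReal / (p.toReal - 1)) with hs
      have hs0 : 0 < s := lt_of_lt_of_le (by linarith) (le_max_left _ _)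
      have hsK : s ≤ K := max_le h.1 h.2
      rw [value hs0] at hb
      refine (min_le_right _ _).trans (le_trans ?_ hb)
      have h3 : Real.log (1 + Real.exp (-K)) ≤ Real.log (1 + Real.exp (-s)) :=
        Real.log_le_log (by positivity) (by
          have := Real.exp_le_exp.2 (neg_le_neg hsK)
          linarith)
      have h4 : Real.log (1 + Real.exp (-K)) / (K * Real.exp 1) ≤
          Real.log (1 + Real.exp (-s)) / (s * Real.exp 1) := by
        apply div_le_div₀ (hlog s).le h3 (by positivity)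
        exact mul_le_mul_of_nonneg_right hsK (Real.exp_pos _).le
      linarith

end Pool.Agent.H98.NIL
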