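import Pool.Agent.H98.NI.BM
import Pool.Agent.H98.NI.Cnt
import Pool.Agent.H98.NI.Fin

/-!
The numerical index of complex `L_p(μ)` near `p = 1` and `p = ∞`, and its modulus of continuity.
-/

set_option autoImplicit false

open scoped ENNReal NNReal
open Set Filter Topology MeasureTheory

namespace Pool.Agent.H98.NIL

open Pool.Agent.H148R3.NI

lemma idx_le_one {X : Type*} [NormedAddCommGroup X] [NormedSpace ℂ X] [Nontrivial X] :
    numIndex X ≤ 1 := by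
  have h := numIndex_le (ContinuousLinearMap.id ℂ X) ContinuousLinearMap.norm_id
  refine h.trans ((numRadius_le_norm _).trans ?_)
  exact ContinuousLinearMap.norm_id_le

lemma idx_nonneg {X : Type*} [NormedAddCommGroup X] [NormedSpace ℂ X] [Nontrivial X] :
    0 ≤ numIndex X := le_numIndex fun T _ => numRadius_nonneg T

lemma lp_nontrivial {N : ℕ} (hN : 0 < N) (p : ℝ≥0∞) [Fact (1 ≤ p)] :
    Nontrivial (lp (fun _ : Fin N => ℂ) p) := by
  classical
  refine ⟨lp.single p ⟨0, hN⟩ (1 : ℂ), 0, fun h0 => ?_⟩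
  have := congrArg (fun f : lp (fun _ : Fin N => ℂ) p => f ⟨0, hN⟩) h0
  simp at this

lemma big_sqrt {η : ℝ} (h : 1 / 4 < η) : 1 ≤ 17 * √η := by
  have h1 : (1 / 2 : ℝ) ≤ √η := by
    rw [Real.le_sqrt (by norm_num) (by linarith)]
    norm_num
    linarith
  linarith

lemma close {N : ℕ} (hN : 0 < N) {p r : ℝ≥0∞} [Fact (1 ≤ p)] [Fact (1 ≤ r)] (hp : p ≠ ∞)
    (hr : r ≠ ∞) : numIndex (lp (fun _ : Fin N => ℂ) r) ≤
      numIndex (lp (fun _ : Fin N => ℂ) p) + 17 * √(N * |p.toReal - r.toReal|) := by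
  have h1 := lp_nontrivial hN p
  have h2 := lp_nontrivial hN r
  have h0 : 0 ≤ (N : ℝ) * |p.toReal - r.toReal| := by positivity
  by_cases h : (N : ℝ) * |p.toReal - r.toReal| ≤ 1 / 4
  · obtain ⟨I, hI, hI'⟩ := exists_id (N := N) hp hr
    obtain ⟨J, hJ, hJ'⟩ := exists_id (N := N) hr hp
    rw [abs_sub_comm] at hJ
    exact bm I J (fun y => by rw [hJ', hI']; rfl) (fun x => by rw [hI', hJ']; rfl) h0 h hI hJ
  · rw [not_le] at h
    have h3 := big_sqrt h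
    have h4 : numIndex (lp (fun _ : Fin N => ℂ) r) ≤ 1 := idx_le_one
    have h5 : 0 ≤ numIndex (lp (fun _ : Fin N => ℂ) p) := idx_nonneg
    linarith

lemma close_inf {N : ℕ} (hN : 0 < N) {p : ℝ≥0∞} [Fact (1 ≤ p)] (hp : p ≠ ∞) :
    1 ≤ numIndex (lp (fun _ : Fin N => ℂ) p) + 17 * √(N / p.toReal) := by
  have h1 := lp_nontrivial hN p
  have hne : Nonempty (Fin N) := ⟨⟨0, hN⟩⟩
  have hp1 := one_le_toReal hp
  have h0 : 0 ≤ (N : ℝ) / p.toReal := by positivity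
  by_cases h : (N : ℝ) / p.toReal ≤ 1 / 4
  · refine (linf_one hN).trans ?_
    refine bm (toInf N p (by linarith)) (ofInf N p hp1) (fun y => rfl) (fun x => rfl) h0 h ?_ ?_
    · exact (LinearMap.mkContinuous_norm_le _ zero_le_one _).trans (by linarith)
    · exact LinearMap.mkContinuous_norm_le _ (by positivity) _
  · rw [not_le] at h
    have h3 := big_sqrt h
    have h5 : 0 ≤ numIndex (lp (fun _ : Fin N => ℂ) p) := idx_nonneg
    linarith

/-- finite dimensional approximation -/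
theorem finite_dim {Ω : Type*} [MeasurableSpace Ω] (μ : Measure Ω) (p : ℝ≥0∞) [Fact (1 ≤ p)]
    (h1 : 1 < p) (hp : p ≠ ∞) [Nontrivial (Lp ℂ p μ)] (K : ℕ) (hK : 1 ≤ K) :
    (1 - 16 / (K : ℝ)) * numIndex (lp (fun _ : Fin ((2 * K + 1) ^ 4) => ℂ) p) ≤
      numIndex (Lp ℂ p μ) := by
  have h : 1 < p.toReal := toReal_one_lt h1 hp
  have hne : Nonempty (Fin ((2 * K + 1) ^ 4)) := ⟨⟨0, by positivity⟩⟩
  have hnt := lp_nontrivial (N := (2 * K + 1) ^ 4) (by positivity) p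
  refine uniform_reduction hp h hK idx_nonneg fun ι _ _ hι => ?_
  have f : ι ↪ Fin ((2 * K + 1) ^ 4) :=
    (Fintype.equivFin ι).toEmbedding.trans (Fin.castLEEmb hι)
  exact mono f (by linarith)

lemma sub_bound {c x : ℝ} {K : ℕ} (hK : 1 ≤ K) (hc1 : c ≤ 1)
    (h : (1 - 16 / (K : ℝ)) * c ≤ x) : c - 16 / K ≤ x := by
  have hK0 : (0 : ℝ) < K := by exact_mod_cast hK
  have h1 : 16 / (K : ℝ) * c ≤ 16 / K := mul_le_of_le_one_right (by positivity) hc1
  have h2 : (1 - 16 / (K : ℝ)) * c = c - 16 / (K : ℝ) * c := by ring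
  linarith

/-- the choice of `K` -/
lemma choose_K {δ : ℝ} (h0 : 0 < δ) (h1 : δ ≤ 1) : ∃ K : ℕ, 1 ≤ K ∧
    16 / (K : ℝ) + 17 * √(((2 * K + 1) ^ 4 : ℕ) * δ) ≤ 441 * δ ^ (1 / 6 : ℝ) := by
  set s := δ ^ (1 / 6 : ℝ) with hs
  have hs0 : 0 < s := Real.rpow_pos_of_pos h0 _
  have hs1 : s ≤ 1 := Real.rpow_le_one h0.le h1 (by norm_num)
  have hs6 : s ^ 6 = δ := by
    rw [hs, ← Real.rpow_natCast, ← Real.rpow_mul h0.le]
    norm_num
  refine ⟨⌈s⁻¹⌉₊, Nat.one_le_ceil_iff.2 (by positivity), ?_⟩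
  set K : ℕ := ⌈s⁻¹⌉₊ with hK
  have hK1 : s⁻¹ ≤ (K : ℝ) := Nat.le_ceil _
  have hK2 : (K : ℝ) < s⁻¹ + 1 := Nat.ceil_lt_add_one (by positivity)
  have hK0 : (0 : ℝ) < K := lt_of_lt_of_le (by positivity) hK1
  have h2 : 16 / (K : ℝ) ≤ 16 * s := by
    rw [div_le_iff₀ hK0]
    have : 1 ≤ s * K := by
      calc (1 : ℝ) = s * s⁻¹ := (mul_inv_cancel₀ hs0.ne').symm
        _ ≤ s * K := mul_le_mul_of_nonneg_left hK1 hs0.le
    nlinarith
  have h3 : √(((2 * K + 1) ^ 4 : ℕ) * δ) = (2 * K + 1) ^ 2 * s ^ 3 := by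
    rw [Real.sqrt_eq_iff_mul_self_eq (by positivity) (by positivity), ← hs6]
    push_cast
    ring
  have h4 : s * (2 * K + 1) ≤ 5 := by
    have h5 : s * K ≤ 1 + s := by
      calc s * K ≤ s * (s⁻¹ + 1) := mul_le_mul_of_nonneg_left hK2.le hs0.le
        _ = 1 + s := by rw [mul_add, mul_inv_cancel₀ hs0.ne', mul_one]
    nlinarith
  have h5 : (2 * (K : ℝ) + 1) ^ 2 * s ^ 3 ≤ 25 * s := by
    have h6 : (s * (2 * K + 1)) ^ 2 ≤ 5 ^ 2 := pow_le_pow_left₀ (by positivity) h4 2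
    calc (2 * (K : ℝ) + 1) ^ 2 * s ^ 3 = (s * (2 * K + 1)) ^ 2 * s := by ring
      _ ≤ 5 ^ 2 * s := mul_le_mul_of_nonneg_right h6 hs0.le
      _ = 25 * s := by norm_num
  rw [h3]
  linarith

theorem near_one {Ω : Type*} [MeasurableSpace Ω] (μ : Measure Ω) (p : ℝ≥0∞) [Fact (1 ≤ p)]
    (h1 : 1 < p) (hp : p ≠ ∞) [Nontrivial (Lp ℂ p μ)] :
    1 - 441 * (p.toReal - 1) ^ (1 / 6 : ℝ) ≤ numIndex (Lp ℂ p μ) := by
  have h : 1 < p.toReal := toReal_one_lt h1 hp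
  have hn0 : 0 ≤ numIndex (Lp ℂ p μ) := idx_nonneg
  by_cases h2 : p.toReal - 1 ≤ 1
  · obtain ⟨K, hK, hK2⟩ := choose_K (δ := p.toReal - 1) (by linarith) h2
    have hN : 0 < (2 * K + 1) ^ 4 := by positivity
    have hnt := lp_nontrivial (N := (2 * K + 1) ^ 4) hN p
    have h3 := sub_bound hK idx_le_one (finite_dim μ p h1 hp K hK)
    have h4 := close hN (p := p) (r := 1) hp ENNReal.one_ne_top
    have h5 := l1_one hN
    rw [ENNReal.toReal_one, abs_of_nonneg (by linarith : (0:ℝ) ≤ p.toReal - 1)] at h4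
    linarith
  · rw [not_le] at h2
    have h3 : 1 ≤ (p.toReal - 1) ^ (1 / 6 : ℝ) := Real.one_le_rpow h2.le (by norm_num)
    linarith

theorem near_inf {Ω : Type*} [MeasurableSpace Ω] (μ : Measure Ω) (p : ℝ≥0∞) [Fact (1 ≤ p)]
    (h1 : 1 < p) (hp : p ≠ ∞) [Nontrivial (Lp ℂ p μ)] :
    1 - 441 * (1 / p.toReal) ^ (1 / 6 : ℝ) ≤ numIndex (Lp ℂ p μ) := by
  have h : 1 < p.toReal := toReal_one_lt h1 hp
  have hp0 : 0 < p.toReal := by linarith
  obtain ⟨K, hK, hK2⟩ := choose_K (δ := 1 / p.toReal) (by positivity)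
    (by rw [div_le_one hp0]; exact h.le)
  have hN : 0 < (2 * K + 1) ^ 4 := by positivity
  have hnt := lp_nontrivial (N := (2 * K + 1) ^ 4) hN p
  have h3 := sub_bound hK idx_le_one (finite_dim μ p h1 hp K hK)
  have h4 := close_inf hN (p := p) hp
  rw [mul_one_div] at hK2
  linarith

instance cnt_nontrivial (p : ℝ≥0∞) [Fact (1 ≤ p)] :
    Nontrivial (Lp ℂ p (Measure.count : Measure ℕ)) := by
  refine ⟨indicatorConstLp p (measurableSet_singleton 0) (cnt_ne 0) (1 : ℂ), 0, fun h0 => ?_⟩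
  have h1 := all_of_ae (indicatorConstLp_coeFn (p := p) (hs := measurableSet_singleton 0)
      (hμs := cnt_ne 0) (c := (1 : ℂ))) 0
  rw [h0] at h1
  have h2 := all_of_ae (Lp.coeFn_zero ℂ p (Measure.count : Measure ℕ)) 0
  rw [h2] at h1
  simp at h1

lemma hoelder_one {p r : ℝ≥0∞} [Fact (1 ≤ p)] [Fact (1 ≤ r)] (hp1 : 1 < p) (hp : p ≠ ∞)
    (hr1 : 1 < r) (hr : r ≠ ∞) (hne : p ≠ r) :
    numIndex (Lp ℂ r (Measure.count : Measure ℕ)) ≤
      numIndex (Lp ℂ p (Measure.count : Measure ℕ)) +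
        441 * |p.toReal - r.toReal| ^ (1 / 6 : ℝ) := by
  have hp' : 1 < p.toReal := toReal_one_lt hp1 hp
  have hr' : 1 < r.toReal := toReal_one_lt hr1 hr
  have h0 : 0 < |p.toReal - r.toReal| := by
    rw [abs_pos]
    intro h
    exact hne ((ENNReal.toReal_eq_toReal_iff' hp hr).1 (by linarith))
  by_cases h2 : |p.toReal - r.toReal| ≤ 1
  · obtain ⟨K, hK, hK2⟩ := choose_K h0 h2
    have hN : 0 < (2 * K + 1) ^ 4 := by positivity
    have hnt := lp_nontrivial (N := (2 * K + 1) ^ 4) hN p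
    have h3 := sub_bound hK idx_le_one
      (finite_dim (Measure.count : Measure ℕ) p hp1 hp K hK)
    have h4 := close hN (p := p) (r := r) hp hr
    have h5 := cnt_le hN (p := r) hr hr'
    linarith
  · rw [not_le] at h2
    have h3 : 1 ≤ |p.toReal - r.toReal| ^ (1 / 6 : ℝ) := Real.one_le_rpow h2.le (by norm_num)
    have h4 : numIndex (Lp ℂ r (Measure.count : Measure ℕ)) ≤ 1 := idx_le_one
    have h5 : 0 ≤ numIndex (Lp ℂ p (Measure.count : Measure ℕ)) := idx_nonneg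
    linarith

theorem hoelder {p r : ℝ≥0∞} [Fact (1 ≤ p)] [Fact (1 ≤ r)] (hp1 : 1 < p) (hp : p ≠ ∞)
    (hr1 : 1 < r) (hr : r ≠ ∞) :
    |numIndex (Lp ℂ p (Measure.count : Measure ℕ)) -
      numIndex (Lp ℂ r (Measure.count : Measure ℕ))| ≤
        441 * |p.toReal - r.toReal| ^ (1 / 6 : ℝ) := by
  by_cases hne : p = r
  · subst hne
    rw [sub_self, abs_zero]
    positivity
  · have h1 := hoelder_one hp1 hp hr1 hr hne
    have h2 := hoelder_one hr1 hr hp1 hp (Ne.symm hne)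
    rw [abs_sub_comm r.toReal] at h2
    rw [abs_le]
    constructor <;> linarith

end Pool.Agent.H98.NIL
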