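import Pool.Agent.H98.NI.Summ

/-!
The numerical index and small Banach-Mazur distances.
-/

set_option autoImplicit false

open scoped ENNReal NNReal
open Set Filter Topology MeasureTheory

namespace Pool.Agent.H98.NIL

open Pool.Agent.H148R3.NI

lemma one_add_norm {X : Type*} [NormedAddCommGroup X] [NormedSpace ℂ X] [CompleteSpace X]
    (T : X →L[ℂ] X) (hT : ‖T‖ = 1) (w : ℂ) (hw : ‖w‖ < 1) :
    ‖1 + w • T‖ ≤ (1 + ‖w‖ ^ 2) * (1 - ‖w‖ * numRadius T)⁻¹ := by
  have h1 : ‖w‖ * ‖T‖ < 1 := by rwa [hT, mul_one]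
  have h2 := inverse_norm T w h1
  have h3 : (1 - w • T) * Ring.inverse (1 - w • T) = 1 :=
    Ring.mul_inverse_cancel _ (isUnit_one_sub T w h1)
  have h4 : 1 + w • T = (1 - (w • T) * (w • T)) * Ring.inverse (1 - w • T) := by
    have h5 : ∀ A : X →L[ℂ] X, 1 - A * A = (1 + A) * (1 - A) := by
      intro A
      noncomm_ring
    rw [h5, mul_assoc, h3, mul_one]
  rw [h4]
  refine (norm_mul_le _ _).trans ?_
  have h6 : ‖1 - (w • T) * (w • T)‖ ≤ 1 + ‖w‖ ^ 2 := by
    refine (norm_sub_le _ _).trans ?_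
    have h7 : ‖(1 : X →L[ℂ] X)‖ ≤ 1 := ContinuousLinearMap.norm_id_le
    have h8 : ‖(w • T) * (w • T)‖ ≤ ‖w‖ ^ 2 := by
      refine (norm_mul_le _ _).trans ?_
      rw [norm_smul, hT, mul_one, sq]
    linarith
  have h9 : 0 ≤ 1 + ‖w‖ ^ 2 := by positivity
  exact mul_le_mul h6 h2 (norm_nonneg _) h9

lemma num_est {t v η : ℝ} (ht : 0 ≤ t) (ht2 : t ≤ 1 / 2) (hη : η = t ^ 2) (hv0 : 0 ≤ v)
    (hv : v ≤ 1) : (1 + η) ^ 2 * ((1 + t ^ 2) * (1 - t * v)⁻¹) ≤ 1 + t * (v + 10 * t) := by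
  subst hη
  have h1 : t * v ≤ 1 / 2 := by nlinarith
  have h2 : 0 < 1 - t * v := by linarith
  rw [← mul_assoc, ← div_eq_mul_inv, div_le_iff₀ h2]
  have h3 : t ^ 2 ≤ 1 / 4 := by nlinarith
  have h4 : 0 ≤ t ^ 2 := sq_nonneg t
  have h5 : (1 + t ^ 2) ^ 2 * (1 + t ^ 2) ≤ 1 + 4 * t ^ 2 := by
    nlinarith [mul_nonneg h4 h4, mul_nonneg h4 (sub_nonneg.2 h3)]
  have h6 : 1 + 4 * t ^ 2 ≤ (1 + t * (v + 10 * t)) * (1 - t * v) := by
    have e : (1 + t * (v + 10 * t)) * (1 - t * v) = 1 - t ^ 2 * v ^ 2 + 10 * t ^ 2 * (1 - t * v) := by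
      ring
    rw [e]
    have h7 : v ^ 2 ≤ 1 := by nlinarith
    have h8 : t ^ 2 * v ^ 2 ≤ t ^ 2 := by nlinarith
    have h9 : 10 * t ^ 2 * (1 / 2) ≤ 10 * t ^ 2 * (1 - t * v) :=
      mul_le_mul_of_nonneg_left (by linarith) (by positivity)
    linarith
  exact h5.trans h6

theorem bm {X Y : Type*} [NormedAddCommGroup X] [NormedSpace ℂ X] [CompleteSpace X] [Nontrivial X]
    [NormedAddCommGroup Y] [NormedSpace ℂ Y] [Nontrivial Y] (I : X →L[ℂ] Y) (J : Y →L[ℂ] X)
    (hIJ : ∀ y, I (J y) = y) (hJI : ∀ x, J (I x) = x) {η : ℝ} (h0 : 0 ≤ η) (h1 : η ≤ 1 / 4)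
    (hI : ‖I‖ ≤ 1 + η) (hJ : ‖J‖ ≤ 1 + η) :
    numIndex Y ≤ numIndex X + 17 * √η := by
  suffices h : numIndex Y - 17 * √η ≤ numIndex X by linarith
  refine le_numIndex fun T hT => ?_
  set v := numRadius T with hv
  have hv0 : 0 ≤ v := numRadius_nonneg T
  have hv1 : v ≤ 1 := hT ▸ numRadius_le_norm T
  set t := √η with ht
  have ht0 : 0 ≤ t := Real.sqrt_nonneg _
  have htη : t ^ 2 = η := Real.sq_sqrt h0
  have ht2 : t ≤ 1 / 2 := by nlinarith
  set S : Y →L[ℂ] Y := I.comp (T.comp J) with hS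
  have hSn0 : ‖T‖ ≤ (1 + η) ^ 2 * ‖S‖ := by
    refine ContinuousLinearMap.opNorm_le_bound _ (by positivity) fun x => ?_
    have e : T x = J (S (I x)) := by
      show T x = J (I (T (J (I x))))
      rw [hJI, hJI]
    rw [e]
    calc ‖J (S (I x))‖ ≤ (1 + η) * ‖S (I x)‖ := J.le_of_opNorm_le hJ _
      _ ≤ (1 + η) * (‖S‖ * ‖I x‖) := by
          gcongr
          exact S.le_opNorm _
      _ ≤ (1 + η) * (‖S‖ * ((1 + η) * ‖x‖)) := by
          gcongr
          exact I.le_of_opNorm_le hI _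
      _ = _ := by ring
  have hSn : 1 ≤ (1 + η) ^ 2 * ‖S‖ := by rwa [hT] at hSn0
  have hSr : numRadius S ≤ v + 10 * t := by
    refine numRadius_le S (by positivity) fun u g hu hg hgu => ?_
    rcases eq_or_lt_of_le ht0 with h | h
    · -- t = 0
      have hη0 : η = 0 := by rw [← htη, ← h]; ring
      rw [← h, mul_zero, add_zero]
      -- approximate with small `s`
      refine le_of_forall_pos_le_add fun ε hε => ?_
      obtain ⟨c, hc, hcg⟩ := phase (g (S u))
      set s := min (1 / 2) (ε / 10) with hs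
      have hs0 : 0 < s := by positivity
      have hs2 : s ≤ 1 / 2 := min_le_left _ _
      have hwn : ‖(s : ℂ) * c‖ = s := by
        rw [norm_mul, hc, mul_one, Complex.norm_real, Real.norm_of_nonneg hs0.le]
      have h2 := one_add_norm T hT ((s : ℂ) * c) (by rw [hwn]; linarith)
      rw [hwn] at h2
      have h3 : ‖u + ((s : ℂ) * c) • S u‖ ≤ (1 + η) ^ 2 * ‖1 + ((s : ℂ) * c) • T‖ := by
        have e : u + ((s : ℂ) * c) • S u = I ((1 + ((s : ℂ) * c) • T) (J u)) := by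
          show _ = I (J u + ((s : ℂ) * c) • T (J u))
          rw [map_add, hIJ, map_smul]
          rfl
        rw [e]
        calc ‖I ((1 + ((s : ℂ) * c) • T) (J u))‖
            ≤ (1 + η) * ‖(1 + ((s : ℂ) * c) • T) (J u)‖ := I.le_of_opNorm_le hI _
          _ ≤ (1 + η) * (‖1 + ((s : ℂ) * c) • T‖ * ‖J u‖) := by
              gcongr
              exact (1 + ((s : ℂ) * c) • T).le_opNorm _
          _ ≤ (1 + η) * (‖1 + ((s : ℂ) * c) • T‖ * ((1 + η) * ‖u‖)) := by
              gcongr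
              exact J.le_of_opNorm_le hJ _
          _ = _ := by rw [hu]; ring
      have h4 : 1 + s * ‖g (S u)‖ ≤ ‖u + ((s : ℂ) * c) • S u‖ := by
        have h5 := g.le_opNorm (u + ((s : ℂ) * c) • S u)
        rw [hg, one_mul, map_add, hgu, map_smul, smul_eq_mul, mul_assoc, hcg] at h5
        have h6 : (1 : ℂ) + (s : ℂ) * (‖g (S u)‖ : ℂ) = ((1 + s * ‖g (S u)‖ : ℝ) : ℂ) := by
          push_cast; ring
        rw [h6, Complex.norm_real, Real.norm_of_nonneg (by positivity)] at h5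
        exact h5
      have h7 := num_est hs0.le hs2 rfl hv0 hv1
      rw [hη0] at h3
      have h8 : 1 + s * ‖g (S u)‖ ≤ 1 + s * (v + 10 * s) := by
        refine h4.trans (h3.trans ?_)
        rw [add_zero, one_pow, one_mul]
        refine h2.trans (le_trans ?_ h7)
        have h9 : 0 ≤ (1 + s ^ 2) * (1 - s * v)⁻¹ := by
          have : 0 ≤ 1 - s * v := by nlinarith
          positivity
        have h10 : 1 ≤ (1 + s ^ 2) ^ 2 := by nlinarith [sq_nonneg s, sq_nonneg (s ^ 2)]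
        exact le_mul_of_one_le_left h9 h10
      have h11 : ‖g (S u)‖ ≤ v + 10 * s := by
        by_contra h12
        rw [not_le] at h12
        have := mul_lt_mul_of_pos_left h12 hs0
        linarith
      have h13 : s ≤ ε / 10 := min_le_right _ _
      linarith
    · obtain ⟨c, hc, hcg⟩ := phase (g (S u))
      have hwn : ‖(t : ℂ) * c‖ = t := by
        rw [norm_mul, hc, mul_one, Complex.norm_real, Real.norm_of_nonneg ht0]
      have h2 := one_add_norm T hT ((t : ℂ) * c) (by rw [hwn]; linarith)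
      rw [hwn] at h2
      have h3 : ‖u + ((t : ℂ) * c) • S u‖ ≤ (1 + η) ^ 2 * ‖1 + ((t : ℂ) * c) • T‖ := by
        have e : u + ((t : ℂ) * c) • S u = I ((1 + ((t : ℂ) * c) • T) (J u)) := by
          show _ = I (J u + ((t : ℂ) * c) • T (J u))
          rw [map_add, hIJ, map_smul]
          rfl
        rw [e]
        calc ‖I ((1 + ((t : ℂ) * c) • T) (J u))‖
            ≤ (1 + η) * ‖(1 + ((t : ℂ) * c) • T) (J u)‖ := I.le_of_opNorm_le hI _
          _ ≤ (1 + η) * (‖1 + ((t : ℂ) * c) • T‖ * ‖J u‖) := by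
              gcongr
              exact (1 + ((t : ℂ) * c) • T).le_opNorm _
          _ ≤ (1 + η) * (‖1 + ((t : ℂ) * c) • T‖ * ((1 + η) * ‖u‖)) := by
              gcongr
              exact J.le_of_opNorm_le hJ _
          _ = _ := by rw [hu]; ring
      have h4 : 1 + t * ‖g (S u)‖ ≤ ‖u + ((t : ℂ) * c) • S u‖ := by
        have h5 := g.le_opNorm (u + ((t : ℂ) * c) • S u)
        rw [hg, one_mul, map_add, hgu, map_smul, smul_eq_mul, mul_assoc, hcg] at h5
        have h6 : (1 : ℂ) + (t : ℂ) * (‖g (S u)‖ : ℂ) = ((1 + t * ‖g (S u)‖ : ℝ) : ℂ) := by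
          push_cast; ring
        rw [h6, Complex.norm_real, Real.norm_of_nonneg (by positivity)] at h5
        exact h5
      have h7 := num_est ht0 ht2 htη.symm hv0 hv1
      have h8 : 1 + t * ‖g (S u)‖ ≤ 1 + t * (v + 10 * t) := by
        refine h4.trans (h3.trans (le_trans ?_ h7))
        exact mul_le_mul_of_nonneg_left h2 (by positivity)
      by_contra h12
      rw [not_le] at h12
      have := mul_lt_mul_of_pos_left h12 h
      linarith
  have hSpos : 0 < ‖S‖ := by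
    by_contra h
    have : ‖S‖ = 0 := le_antisymm (not_lt.1 h) (norm_nonneg _)
    rw [this, mul_zero] at hSn
    linarith
  have hn0 : 0 ≤ numIndex Y := le_numIndex fun T _ => numRadius_nonneg T
  have h2 := scale S hSpos
  have h3 : numIndex Y ≤ (1 + η) ^ 2 * (v + 10 * t) := by
    calc numIndex Y ≤ numIndex Y * ((1 + η) ^ 2 * ‖S‖) := le_mul_of_one_le_right hn0 hSn
      _ = (1 + η) ^ 2 * (numIndex Y * ‖S‖) := by ring
      _ ≤ (1 + η) ^ 2 * (v + 10 * t) := by
          gcongr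
          exact h2.trans hSr
  have h4 : (1 + η) ^ 2 * (v + 10 * t) ≤ v + 17 * t := by
    rw [← htη]
    have h5 : (1 + t ^ 2) ^ 2 ≤ 1 + 9 / 4 * t ^ 2 := by
      nlinarith [sq_nonneg t, sq_nonneg (t ^ 2)]
    have h6 : 0 ≤ v + 10 * t := by positivity
    have h7 : 9 / 4 * t ^ 2 * (v + 10 * t) ≤ 7 * t := by
      have h8 : v + 10 * t ≤ 6 := by linarith
      have h9 : t ^ 2 * (v + 10 * t) ≤ t ^ 2 * 6 := mul_le_mul_of_nonneg_left h8 (sq_nonneg _)
      nlinarith
    nlinarith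
  linarith

end Pool.Agent.H98.NIL
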