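import Pool.Agent.H98.NI.Max
import Pool.Graph.R_seed8.H148R3.NIDefs

/-!
Numerical index: powers of resolvents, and the lower bound for the numerical radius in spaces with
a Clarkson inequality.
-/

set_option autoImplicit false

open scoped ENNReal
open Metric Set Filter Topology

namespace Pool.Agent.H98.NIL

open Pool.Agent.H148R3.NI

variable {X : Type*} [NormedAddCommGroup X] [NormedSpace ℂ X]

lemma numRadius_le_norm (T : X →L[ℂ] X) : numRadius T ≤ ‖T‖ := by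
  refine numRadius_le T (norm_nonneg _) fun x f hx hf _ => ?_
  refine (f.le_opNorm _).trans ?_
  rw [hf, one_mul]
  have := T.le_opNorm x
  rwa [hx, mul_one] at this

lemma lower (T : X →L[ℂ] X) (w : ℂ) (x : X) :
    (1 - ‖w‖ * numRadius T) * ‖x‖ ≤ ‖x - w • T x‖ := by
  by_cases hx : x = 0
  · simp [hx]
  have hx0 : 0 < ‖x‖ := norm_pos_iff.2 hx
  obtain ⟨f, hf, hfx⟩ := exists_dual_vector ℂ x hx0.ne'
  have h1 : ‖f (T ((‖x‖⁻¹ : ℂ) • x))‖ ≤ numRadius T := by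
    apply le_numRadius T _ hf
    · rw [map_smul, hfx, smul_eq_mul]
      have : (‖x‖ : ℂ) ≠ 0 := by exact_mod_cast hx0.ne'
      exact inv_mul_cancel₀ this
    · rw [norm_smul, norm_inv, Complex.norm_real, norm_norm, inv_mul_cancel₀ hx0.ne']
  rw [map_smul, map_smul, norm_smul, norm_inv, Complex.norm_real, norm_norm,
    inv_mul_le_iff₀ hx0] at h1
  have h2 : ‖f (x - w • T x)‖ ≤ ‖x - w • T x‖ := by
    have := f.le_opNorm (x - w • T x)
    rwa [hf, one_mul] at this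
  have h3 : ‖x‖ - ‖w‖ * ‖f (T x)‖ ≤ ‖f (x - w • T x)‖ := by
    rw [map_sub, map_smul, hfx]
    have h4 := norm_sub_norm_le ((‖x‖ : ℂ)) (w • f (T x))
    rw [norm_smul, Complex.norm_real, norm_norm] at h4
    exact h4
  have h5 : ‖w‖ * ‖f (T x)‖ ≤ ‖w‖ * (‖x‖ * numRadius T) :=
    mul_le_mul_of_nonneg_left h1 (norm_nonneg _)
  calc (1 - ‖w‖ * numRadius T) * ‖x‖ = ‖x‖ - ‖w‖ * (‖x‖ * numRadius T) := by ring
    _ ≤ ‖x‖ - ‖w‖ * ‖f (T x)‖ := by linarith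
    _ ≤ _ := h3.trans h2

lemma isUnit_one_sub [CompleteSpace X] (T : X →L[ℂ] X) (w : ℂ) (hw : ‖w‖ * ‖T‖ < 1) :
    IsUnit (1 - w • T) := by
  have h : ‖w • T‖ < 1 := by rwa [norm_smul]
  exact ⟨Units.oneSub (w • T) h, Units.val_oneSub _ h⟩

lemma inverse_norm [CompleteSpace X] (T : X →L[ℂ] X) (w : ℂ) (hw : ‖w‖ * ‖T‖ < 1) :
    ‖Ring.inverse (1 - w • T)‖ ≤ (1 - ‖w‖ * numRadius T)⁻¹ := by
  have hv : ‖w‖ * numRadius T < 1 :=
    (mul_le_mul_of_nonneg_left (numRadius_le_norm T) (norm_nonneg _)).trans_lt hw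
  have hpos : 0 < 1 - ‖w‖ * numRadius T := by linarith
  refine ContinuousLinearMap.opNorm_le_bound _ (inv_nonneg.2 hpos.le) fun y => ?_
  set x := Ring.inverse (1 - w • T) y with hx
  have h1 : x - w • T x = y := by
    have h2 : (1 - w • T) * Ring.inverse (1 - w • T) = 1 :=
      Ring.mul_inverse_cancel _ (isUnit_one_sub T w hw)
    have h3 := congrArg (fun A : X →L[ℂ] X => A y) h2
    exact h3
  have h4 := lower T w x
  rw [h1] at h4
  rw [← div_eq_inv_mul, le_div_iff₀ hpos, mul_comm]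
  exact h4

/-- the resolvent -/
noncomputable def G (T : X →L[ℂ] X) (N : ℝ) (z : ℂ) : X →L[ℂ] X :=
  Ring.inverse (1 - (z * (N : ℂ)⁻¹) • T)

lemma norm_mul_inv {N : ℝ} (hN : 0 < N) (z : ℂ) : ‖z * (N : ℂ)⁻¹‖ = ‖z‖ / N := by
  rw [norm_mul, norm_inv, Complex.norm_real, Real.norm_of_nonneg hN.le, div_eq_mul_inv]

lemma G_zero (T : X →L[ℂ] X) (N : ℝ) : G T N 0 = 1 := by
  unfold G
  rw [zero_mul, zero_smul, sub_zero, Ring.inverse_one]

lemma inner_deriv (T : X →L[ℂ] X) (N : ℝ) (z : ℂ) :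
    HasDerivAt (fun z : ℂ => (1 : X →L[ℂ] X) - (z * (N : ℂ)⁻¹) • T) (-((N : ℂ)⁻¹ • T)) z := by
  have h1 : HasDerivAt (fun z : ℂ => z * (N : ℂ)⁻¹) ((N : ℂ)⁻¹) z := by
    simpa using (hasDerivAt_id z).mul_const ((N : ℂ)⁻¹)
  exact (h1.smul_const T).const_sub (1 : X →L[ℂ] X)

lemma G_diff [CompleteSpace X] (T : X →L[ℂ] X) {N : ℝ} (hN : 0 < N) (z : ℂ)
    (hz : ‖z‖ * ‖T‖ < N) : DifferentiableAt ℂ (G T N) z := by
  have hw : ‖z * (N : ℂ)⁻¹‖ * ‖T‖ < 1 := by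
    rw [norm_mul_inv hN, div_mul_eq_mul_div, div_lt_one hN]
    exact hz
  have h1 : DifferentiableAt ℂ (Ring.inverse : (X →L[ℂ] X) → (X →L[ℂ] X))
      (1 - (z * (N : ℂ)⁻¹) • T) := differentiableAt_inverse (isUnit_one_sub T _ hw)
  exact h1.comp z (inner_deriv T N z).differentiableAt

lemma G_deriv_zero [CompleteSpace X] (T : X →L[ℂ] X) (N : ℝ) :
    HasDerivAt (G T N) ((N : ℂ)⁻¹ • T) 0 := by
  have h1 : HasFDerivAt (Ring.inverse : (X →L[ℂ] X) → (X →L[ℂ] X))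
      (-((ContinuousLinearMap.mulLeftRight ℂ (X →L[ℂ] X)) ↑(1 : (X →L[ℂ] X)ˣ)⁻¹)
        ↑(1 : (X →L[ℂ] X)ˣ)⁻¹) ((1 : (X →L[ℂ] X)ˣ) : X →L[ℂ] X) :=
    hasFDerivAt_ringInverse (𝕜 := ℂ) (1 : (X →L[ℂ] X)ˣ)
  have h2 : HasFDerivAt (Ring.inverse : (X →L[ℂ] X) → (X →L[ℂ] X))
      (-((ContinuousLinearMap.mulLeftRight ℂ (X →L[ℂ] X)) ↑(1 : (X →L[ℂ] X)ˣ)⁻¹)
        ↑(1 : (X →L[ℂ] X)ˣ)⁻¹) ((1 : X →L[ℂ] X) - ((0 : ℂ) * (N : ℂ)⁻¹) • T) := by
    rw [zero_mul, zero_smul, sub_zero]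
    exact h1
  have h3 := h2.comp_hasDerivAt (0 : ℂ) (inner_deriv T N 0)
  have h4 : (-((ContinuousLinearMap.mulLeftRight ℂ (X →L[ℂ] X)) ↑(1 : (X →L[ℂ] X)ˣ)⁻¹)
        ↑(1 : (X →L[ℂ] X)ˣ)⁻¹) (-((N : ℂ)⁻¹ • T)) = (N : ℂ)⁻¹ • T := by
    simp
  rw [h4] at h3
  exact h3

lemma pow_diff [CompleteSpace X] (T : X →L[ℂ] X) {N : ℝ} (hN : 0 < N) (z : ℂ)
    (hz : ‖z‖ * ‖T‖ < N) (k : ℕ) : DifferentiableAt ℂ (fun z => G T N z ^ k) z := by
  induction k with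
  | zero => simp
  | succ k ih =>
    simp only [pow_succ]
    exact ih.mul (G_diff T hN z hz)

lemma pow_deriv_zero [CompleteSpace X] (T : X →L[ℂ] X) (N : ℝ) (k : ℕ) :
    HasDerivAt (fun z => G T N z ^ k) (((k : ℂ) * (N : ℂ)⁻¹) • T) 0 := by
  induction k with
  | zero => simpa using hasDerivAt_const (0 : ℂ) (1 : X →L[ℂ] X)
  | succ k ih =>
    have h := ih.mul (G_deriv_zero T N)
    have h2 : ((k : ℂ) * (N : ℂ)⁻¹) • T * G T N 0 + G T N 0 ^ k * ((N : ℂ)⁻¹ • T) =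
        (((k + 1 : ℕ) : ℂ) * (N : ℂ)⁻¹) • T := by
      rw [G_zero, one_pow, mul_one, one_mul, ← add_smul]
      congr 1
      push_cast
      ring
    rw [h2] at h
    refine h.congr_of_eventuallyEq (Eventually.of_forall fun z => ?_)
    show G T N z ^ (k + 1) = G T N z ^ k * G T N z
    rw [pow_succ]

theorem main_N [CompleteSpace X] {Y : Type*} [NormedAddCommGroup Y] [NormedSpace ℂ Y]
    [CompleteSpace Y] {s : ℝ} (hs : 1 ≤ s) (hC : Cl Y s) (T : X →L[ℂ] X)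
    (Φ : (X →L[ℂ] X) →L[ℂ] Y) (hΦ : ∀ A, ‖Φ A‖ ≤ ‖A‖) {R : ℝ} (hR : 0 < R) (N : ℕ)
    (hN : R * ‖T‖ < N) : ‖Φ 1‖ ^ s + (R * ‖Φ T‖) ^ s ≤
      ((1 - R * numRadius T / N)⁻¹ ^ N) ^ s := by
  have hN0 : (0 : ℝ) < N := (mul_nonneg hR.le (norm_nonneg _)).trans_lt hN
  obtain ⟨R', hR1, hR2⟩ : ∃ R', R < R' ∧ R' * ‖T‖ < N := by
    by_cases hT : ‖T‖ = 0
    · exact ⟨R + 1, by linarith, by rw [hT, mul_zero]; exact hN0⟩
    · have hT0 : 0 < ‖T‖ := lt_of_le_of_ne (norm_nonneg _) (Ne.symm hT)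
      have h1 : R < N / ‖T‖ := by rwa [lt_div_iff₀ hT0]
      obtain ⟨R', h2, h3⟩ := exists_between h1
      exact ⟨R', h2, by rwa [lt_div_iff₀ hT0] at h3⟩
  let f : ℂ → Y := fun z => Φ (G T N z ^ N)
  have hf : DifferentiableOn ℂ f (ball 0 R') := by
    intro z hz
    have hz' : ‖z‖ < R' := by simpa using hz
    have h1 := pow_diff T hN0 z
      ((mul_le_mul_of_nonneg_right hz'.le (norm_nonneg _)).trans_lt hR2) N
    exact (Φ.differentiableAt.comp z h1).differentiableWithinAt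
  have hB : ∀ z, ‖z‖ = R → ‖f z‖ ≤ (1 - R * numRadius T / N)⁻¹ ^ N := by
    intro z hz
    refine (hΦ _).trans ((norm_pow_le' _ (by exact_mod_cast hN0)).trans ?_)
    refine pow_le_pow_left₀ (norm_nonneg _) ?_ N
    have h1 := inverse_norm T (z * ((N : ℝ) : ℂ)⁻¹) (by
      rw [norm_mul_inv hN0, hz, div_mul_eq_mul_div, div_lt_one hN0]
      exact hN)
    rw [norm_mul_inv hN0, hz, div_mul_eq_mul_div] at h1
    exact h1
  have h := two_coeff hs hC hR hR1 f hf hB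
  have h0 : f 0 = Φ 1 := by
    show Φ (G T N 0 ^ N) = _
    rw [G_zero, one_pow]
  have h1 : deriv f 0 = Φ T := by
    have h2 : HasDerivAt f (Φ (((N : ℂ) * ((N : ℝ) : ℂ)⁻¹) • T)) 0 :=
      Φ.hasFDerivAt.comp_hasDerivAt (0 : ℂ) (pow_deriv_zero T (N : ℝ) N)
    have h3 : ((N : ℂ) * ((N : ℝ) : ℂ)⁻¹) • T = T := by
      have : (N : ℂ) ≠ 0 := by exact_mod_cast hN0.ne'
      rw [Complex.ofReal_natCast, mul_inv_cancel₀ this, one_smul]
    rw [h2.deriv, h3]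
  rw [h0, h1] at h
  exact h

theorem main [CompleteSpace X] {Y : Type*} [NormedAddCommGroup Y] [NormedSpace ℂ Y]
    [CompleteSpace Y] {s : ℝ} (hs : 1 ≤ s) (hC : Cl Y s) (T : X →L[ℂ] X)
    (Φ : (X →L[ℂ] X) →L[ℂ] Y) (hΦ : ∀ A, ‖Φ A‖ ≤ ‖A‖) {R : ℝ} (hR : 0 < R) :
    ‖Φ 1‖ ^ s + (R * ‖Φ T‖) ^ s ≤ Real.exp (R * numRadius T * s) := by
  have hlim : Tendsto (fun N : ℕ => ((1 - R * numRadius T / N)⁻¹ ^ N) ^ s) atTop
      (𝓝 (Real.exp (R * numRadius T * s))) := by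
    have h1 := Real.tendsto_one_add_div_pow_exp (-(R * numRadius T))
    have h2 := (h1.inv₀ (Real.exp_pos _).ne').rpow_const (p := s) (Or.inr (by linarith))
    have h3 : (Real.exp (-(R * numRadius T)))⁻¹ ^ s = Real.exp (R * numRadius T * s) := by
      rw [← Real.exp_neg, neg_neg, ← Real.exp_mul]
    rw [h3] at h2
    refine h2.congr fun N => ?_
    rw [neg_div, ← sub_eq_add_neg, inv_pow]
  refine ge_of_tendsto hlim ?_
  obtain ⟨N0, hN0⟩ := exists_nat_gt (R * ‖T‖)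
  filter_upwards [eventually_ge_atTop N0] with N hN
  exact main_N hs hC T Φ hΦ hR N (hN0.trans_le (by exact_mod_cast hN))

/-- the bound, if the space itself satisfies Clarkson's inequality with exponent `s` -/
theorem primal [CompleteSpace X] {s : ℝ} (hs : 1 ≤ s) (hC : Cl X s) (T : X →L[ℂ] X)
    {R : ℝ} (hR : 0 < R) (x : X) (hx : ‖x‖ = 1) :
    1 + (R * ‖T x‖) ^ s ≤ Real.exp (R * numRadius T * s) := by
  have h := main hs hC T (ContinuousLinearMap.apply ℂ X x) (fun A => by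
    have := A.le_opNorm x
    rw [hx, mul_one] at this
    exact this) hR
  have e1 : (ContinuousLinearMap.apply ℂ X x) (1 : X →L[ℂ] X) = x := rfl
  have e2 : (ContinuousLinearMap.apply ℂ X x) T = T x := rfl
  rw [e1, e2, hx, Real.one_rpow] at h
  exact h

/-- the bound, if the dual satisfies Clarkson's inequality with exponent `s` -/
theorem dual [CompleteSpace X] {s : ℝ} (hs : 1 ≤ s) (hC : Cl (X →L[ℂ] ℂ) s) (T : X →L[ℂ] X)
    {R : ℝ} (hR : 0 < R) (x : X) (hx : ‖x‖ = 1) :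
    1 + (R * ‖T x‖) ^ s ≤ Real.exp (R * numRadius T * s) := by
  have hs0 : 0 < s := by linarith
  by_cases hT : T x = 0
  · rw [hT, norm_zero, mul_zero, Real.zero_rpow hs0.ne', add_zero]
    exact Real.one_le_exp (mul_nonneg (mul_nonneg hR.le (numRadius_nonneg T)) hs0.le)
  obtain ⟨φ, hφ, hφx⟩ := exists_dual_vector ℂ (T x) (norm_ne_zero_iff.2 hT)
  have h := main hs hC T (ContinuousLinearMap.compL ℂ X X ℂ φ) (fun A => by
    have := ContinuousLinearMap.opNorm_comp_le φ A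
    rw [hφ, one_mul] at this
    exact this) hR
  have e1 : (ContinuousLinearMap.compL ℂ X X ℂ φ) (1 : X →L[ℂ] X) = φ := by
    ext y; rfl
  have e2 : ‖T x‖ ≤ ‖(ContinuousLinearMap.compL ℂ X X ℂ φ) T‖ := by
    have h1 := ((ContinuousLinearMap.compL ℂ X X ℂ φ) T).le_opNorm x
    rw [hx, mul_one] at h1
    have h2 : ((ContinuousLinearMap.compL ℂ X X ℂ φ) T) x = φ (T x) := rfl
    rw [h2, hφx, RCLike.norm_ofReal, abs_norm] at h1
    exact h1
  rw [e1, hφ, Real.one_rpow] at h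
  refine le_trans ?_ h
  gcongr

theorem bound_of [CompleteSpace X] [Nontrivial X] {s : ℝ} (hs : 1 ≤ s)
    (h : ∀ (T : X →L[ℂ] X) (R : ℝ), 0 < R → ∀ x : X, ‖x‖ = 1 →
      1 + (R * ‖T x‖) ^ s ≤ Real.exp (R * numRadius T * s)) {R : ℝ} (hR : 0 < R) :
    Real.log (1 + R ^ s) / (s * R) ≤ numIndex X := by
  have hs0 : 0 < s := by linarith
  refine le_numIndex fun T hT => ?_
  have hv : 0 ≤ numRadius T := numRadius_nonneg T
  have h1 : ∀ x : X, ‖x‖ = 1 → R * ‖T x‖ ≤ (Real.exp (R * numRadius T * s) - 1) ^ (1 / s) := by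
    intro x hx
    have h2 : (R * ‖T x‖) ^ s ≤ Real.exp (R * numRadius T * s) - 1 := by
      linarith [h T R hR x hx]
    have h3 : 0 ≤ R * ‖T x‖ := by positivity
    calc R * ‖T x‖ = ((R * ‖T x‖) ^ s) ^ (1 / s) := by
          rw [← Real.rpow_mul h3, mul_one_div_cancel hs0.ne', Real.rpow_one]
      _ ≤ _ := Real.rpow_le_rpow (by positivity) h2 (by positivity)
  set M := (Real.exp (R * numRadius T * s) - 1) ^ (1 / s) / R with hM
  have hE : 0 ≤ Real.exp (R * numRadius T * s) - 1 := by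
    have := Real.one_le_exp (mul_nonneg (mul_nonneg hR.le hv) hs0.le)
    linarith
  have hM0 : 0 ≤ M := by rw [hM]; positivity
  have h4 : ‖T‖ ≤ M := by
    refine ContinuousLinearMap.opNorm_le_bound _ hM0 fun x => ?_
    by_cases hx : x = 0
    · simp [hx]
    have hx0 : 0 < ‖x‖ := norm_pos_iff.2 hx
    have h5 := h1 ((‖x‖⁻¹ : ℂ) • x) (by
      rw [norm_smul, norm_inv, Complex.norm_real, norm_norm, inv_mul_cancel₀ hx0.ne'])
    rw [map_smul, norm_smul, norm_inv, Complex.norm_real, norm_norm] at h5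
    rw [hM, div_mul_eq_mul_div, le_div_iff₀ hR]
    have h6 : ‖x‖⁻¹ * ‖T x‖ * ‖x‖ = ‖T x‖ := by
      field_simp
    calc ‖T x‖ * R = (R * (‖x‖⁻¹ * ‖T x‖)) * ‖x‖ := by
          rw [mul_assoc, h6, mul_comm]
      _ ≤ _ := mul_le_mul_of_nonneg_right h5 hx0.le
  rw [hT, hM, le_div_iff₀ hR, one_mul] at h4
  have h7 : R ^ s ≤ Real.exp (R * numRadius T * s) - 1 := by
    calc R ^ s ≤ ((Real.exp (R * numRadius T * s) - 1) ^ (1 / s)) ^ s :=
          Real.rpow_le_rpow hR.le h4 hs0.le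
      _ = _ := by rw [← Real.rpow_mul hE, one_div_mul_cancel hs0.ne', Real.rpow_one]
  have h8 : Real.log (1 + R ^ s) ≤ R * numRadius T * s := by
    rw [Real.log_le_iff_le_exp (by positivity)]
    linarith
  rw [div_le_iff₀ (by positivity)]
  calc Real.log (1 + R ^ s) ≤ R * numRadius T * s := h8
    _ = _ := by ring

end Pool.Agent.H98.NIL
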