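import Pool.Agent.H98.NI.JJ
import Pool.Agent.H98.NI.Res

/-!
The duality map of `L_p(μ)`.
-/

set_option autoImplicit false

open scoped ENNReal NNReal
open Set Filter Topology MeasureTheory

namespace Pool.Agent.H98.NIL

open Pool.Agent.H148R3.NM (J J_mul J_unit J_pos norm_J J_self J_zero J_one)
open Pool.Agent.H148R3.NI

variable {Ω : Type*} [MeasurableSpace Ω] {μ : Measure Ω} {p : ℝ≥0∞} [Fact (1 ≤ p)]

lemma young {a b r : ℝ} (ha : 0 ≤ a) (hb : 0 ≤ b) (hr : 1 < r) :
    a ^ (r - 1) * b ≤ a ^ r + b ^ r := by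
  have e : ∀ t : ℝ, 0 ≤ t → t ^ (r - 1) * t = t ^ r := by
    intro t ht
    rcases ht.eq_or_lt with h0 | h0
    · rw [← h0, mul_zero, Real.zero_rpow (by linarith)]
    · rw [← Real.rpow_add_one h0.ne', sub_add_cancel]
  have h1 : 0 ≤ a ^ r := by positivity
  have h2 : 0 ≤ b ^ r := by positivity
  rcases le_total a b with h | h
  · have h3 : a ^ (r - 1) ≤ b ^ (r - 1) := Real.rpow_le_rpow ha h (by linarith)
    have := mul_le_mul_of_nonneg_right h3 hb
    rw [e b hb] at this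
    linarith
  · have h3 := mul_le_mul_of_nonneg_left h (by positivity : 0 ≤ a ^ (r - 1))
    rw [e a ha] at h3
    linarith

lemma pair_int (hp : p ≠ ∞) (h1 : 1 < p.toReal) (z u : Lp ℂ p μ) :
    Integrable (fun x => ‖z x‖ ^ (p.toReal - 1) * ‖u x‖) μ := by
  have h := (Lp_int hp (by linarith) z).add (Lp_int hp (by linarith) u)
  refine h.mono' ?_ ?_
  · exact ((Lp.aestronglyMeasurable z).norm.aemeasurable.pow_const _).aestronglyMeasurable.mul
      (Lp.aestronglyMeasurable u).norm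
  · refine Eventually.of_forall fun x => ?_
    rw [Real.norm_of_nonneg (by positivity)]
    exact young (norm_nonneg _) (norm_nonneg _) h1

lemma pair_le (hp : p ≠ ∞) (h1 : 1 < p.toReal) (z u : Lp ℂ p μ) :
    ∫ x, ‖z x‖ ^ (p.toReal - 1) * ‖u x‖ ∂μ ≤ ‖z‖ ^ (p.toReal - 1) * ‖u‖ := by
  set r := p.toReal with hr
  have hr0 : 0 < r := by linarith
  have hr1 : 0 < r - 1 := by linarith
  have hpp : ENNReal.ofReal r = p := ENNReal.ofReal_toReal hp
  have hq : 0 < r / (r - 1) := by positivity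
  have hpq : r.HolderConjugate (r / (r - 1)) := Real.HolderConjugate.conjExponent h1
  have hu : MemLp (fun x => ‖u x‖) (ENNReal.ofReal r) μ := by
    rw [hpp]
    exact (Lp.memLp u).norm
  have hqq : (ENNReal.ofReal (r / (r - 1))).toReal = r / (r - 1) := ENNReal.toReal_ofReal hq.le
  have e : ∀ x, (‖z x‖ ^ (r - 1)) ^ (r / (r - 1)) = ‖z x‖ ^ r := by
    intro x
    rw [← Real.rpow_mul (norm_nonneg _)]
    congr 1
    field_simp
  have hz : MemLp (fun x => ‖z x‖ ^ (r - 1)) (ENNReal.ofReal (r / (r - 1))) μ := by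
    rw [← integrable_norm_rpow_iff
      ((Lp.aestronglyMeasurable z).norm.aemeasurable.pow_const _).aestronglyMeasurable
      (by simpa using hq) ENNReal.ofReal_ne_top, hqq]
    refine (Lp_int hp hr0 z).congr (Eventually.of_forall fun x => ?_)
    show ‖z x‖ ^ r = ‖‖z x‖ ^ (r - 1)‖ ^ (r / (r - 1))
    rw [Real.norm_of_nonneg (by positivity), e]
  have h := integral_mul_le_Lp_mul_Lq_of_nonneg hpq
    (Eventually.of_forall fun x => norm_nonneg (u x))
    (Eventually.of_forall fun x => by positivity) hu hz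
  simp only [e] at h
  rw [← Lp_norm hp hr0, ← Lp_norm hp hr0, ← hr, ← Real.rpow_mul (norm_nonneg _),
    ← Real.rpow_mul (norm_nonneg _), mul_one_div_cancel hr0.ne', Real.rpow_one] at h
  have e2 : r * (1 / (r / (r - 1))) = r - 1 := by field_simp
  rw [e2, mul_comm ‖u‖] at h
  refine le_trans (le_of_eq ?_) h
  refine integral_congr_ae (Eventually.of_forall fun x => ?_)
  exact mul_comm _ _

lemma J_int (hp : p ≠ ∞) (h1 : 1 < p.toReal) (z u : Lp ℂ p μ) :
    Integrable (fun x => J p.toReal (z x) * u x) μ := by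
  refine (pair_int hp h1 z u).mono' ?_ ?_
  · exact ((J_meas p.toReal).comp_aemeasurable
      (Lp.aestronglyMeasurable z).aemeasurable).aestronglyMeasurable.mul
      (Lp.aestronglyMeasurable u)
  · refine Eventually.of_forall fun x => ?_
    rw [norm_mul, norm_J h1]

/-- the duality functional of `z`, not normalised -/
noncomputable def NL (hp : p ≠ ∞) (h1 : 1 < p.toReal) (z : Lp ℂ p μ) :
    Lp ℂ p μ →L[ℂ] ℂ :=
  LinearMap.mkContinuous
    { toFun := fun u => ∫ x, J p.toReal (z x) * u x ∂μ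
      map_add' := by
        intro u w
        rw [← integral_add (J_int hp h1 z u) (J_int hp h1 z w)]
        refine integral_congr_ae ?_
        filter_upwards [Lp.coeFn_add u w] with x hx
        rw [hx, Pi.add_apply, mul_add]
      map_smul' := by
        intro c u
        rw [RingHom.id_apply, smul_eq_mul, ← integral_const_mul]
        refine integral_congr_ae ?_
        filter_upwards [Lp.coeFn_smul c u] with x hx
        rw [hx, Pi.smul_apply, smul_eq_mul]
        ring }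
    (‖z‖ ^ (p.toReal - 1)) (fun u => by
      refine le_trans (norm_integral_le_of_norm_le (pair_int hp h1 z u)
        (Eventually.of_forall fun x => ?_)) (pair_le hp h1 z u)
      rw [norm_mul, norm_J h1])

lemma NL_apply (hp : p ≠ ∞) (h1 : 1 < p.toReal) (z u : Lp ℂ p μ) :
    NL hp h1 z u = ∫ x, J p.toReal (z x) * u x ∂μ := rfl

lemma NL_norm (hp : p ≠ ∞) (h1 : 1 < p.toReal) (z : Lp ℂ p μ) :
    ‖NL hp h1 z‖ ≤ ‖z‖ ^ (p.toReal - 1) := by
  refine LinearMap.mkContinuous_norm_le _ (by positivity) _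

lemma NL_self (hp : p ≠ ∞) (h1 : 1 < p.toReal) (z : Lp ℂ p μ) :
    NL hp h1 z z = ((‖z‖ ^ p.toReal : ℝ) : ℂ) := by
  rw [NL_apply, Lp_norm hp (by linarith), ← integral_complex_ofReal]
  refine integral_congr_ae (Eventually.of_forall fun x => ?_)
  exact J_self h1 _

lemma NL_rad (hp : p ≠ ∞) (h1 : 1 < p.toReal) (T : Lp ℂ p μ →L[ℂ] Lp ℂ p μ) (z : Lp ℂ p μ) :
    ‖NL hp h1 z (T z)‖ ≤ numRadius T * ‖z‖ ^ p.toReal := by
  by_cases hz : z = 0
  · rw [hz, map_zero, map_zero, norm_zero, norm_zero]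
    exact mul_nonneg (numRadius_nonneg T) (by positivity)
  have hz0 : 0 < ‖z‖ := norm_pos_iff.2 hz
  have hc : (‖z‖ : ℂ) ≠ 0 := by exact_mod_cast hz0.ne'
  have hn : 0 < ‖z‖ ^ (p.toReal - 1) := by positivity
  have hn' : ((‖z‖ ^ (p.toReal - 1) : ℝ) : ℂ) ≠ 0 := by exact_mod_cast hn.ne'
  have e : ‖z‖ ^ p.toReal = ‖z‖ ^ (p.toReal - 1) * ‖z‖ := by
    rw [← Real.rpow_add_one hz0.ne', sub_add_cancel]
  set u : Lp ℂ p μ := (‖z‖⁻¹ : ℂ) • z with hu
  set f : Lp ℂ p μ →L[ℂ] ℂ := (((‖z‖ ^ (p.toReal - 1) : ℝ) : ℂ)⁻¹) • NL hp h1 z with hf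
  have hun : ‖u‖ = 1 := by
    rw [hu, norm_smul, norm_inv, Complex.norm_real, norm_norm, inv_mul_cancel₀ hz0.ne']
  have hfu : f u = 1 := by
    rw [hf, hu, smul_apply, map_smul, NL_self, smul_eq_mul, smul_eq_mul, e]
    push_cast
    field_simp
  have hfn : ‖f‖ = 1 := by
    apply le_antisymm
    · rw [hf, norm_smul, norm_inv, Complex.norm_real, Real.norm_of_nonneg hn.le,
        inv_mul_le_iff₀ hn, mul_one]
      exact NL_norm hp h1 z
    · have := f.le_opNorm u
      rwa [hfu, hun, mul_one, norm_one] at this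
  have h := le_numRadius T hun hfn hfu
  have e2 : f (T u) = ((‖z‖ ^ p.toReal : ℝ) : ℂ)⁻¹ * NL hp h1 z (T z) := by
    rw [hf, hu, smul_apply, map_smul, map_smul, smul_eq_mul, smul_eq_mul, e]
    push_cast
    field_simp
  rw [e2, norm_mul, norm_inv, Complex.norm_real, Real.norm_of_nonneg (by positivity),
    inv_mul_le_iff₀ (by positivity)] at h
  linarith

lemma NL_expand (hp : p ≠ ∞) (h1 : 1 < p.toReal) (h2 : |p.toReal - 2| ≤ 1 / 2) {w : ℂ}
    (hw : ‖w‖ = 1) (x y u : Lp ℂ p μ) :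
    ‖NL hp h1 (x + w • y) u - NL hp h1 x u - (starRingEnd ℂ) w * NL hp h1 y u‖ ≤
      4 * |p.toReal - 2| * ((‖x‖ ^ (p.toReal - 1) + ‖y‖ ^ (p.toReal - 1)) * ‖u‖) := by
  have h0 : ∫ ω, (J p.toReal ((x + w • y) ω) * u ω - J p.toReal (x ω) * u ω -
      (starRingEnd ℂ) w * (J p.toReal (y ω) * u ω)) ∂μ =
      ∫ ω, J p.toReal ((x + w • y) ω) * u ω ∂μ - ∫ ω, J p.toReal (x ω) * u ω ∂μ -
      (starRingEnd ℂ) w * ∫ ω, J p.toReal (y ω) * u ω ∂μ := by
    rw [integral_sub (f := fun ω => J p.toReal ((x + w • y) ω) * u ω - J p.toReal (x ω) * u ω)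
      ((J_int hp h1 _ _).sub (J_int hp h1 _ _)) ((J_int hp h1 _ _).const_mul _),
      integral_sub (J_int hp h1 _ _) (J_int hp h1 _ _), integral_const_mul]
  rw [NL_apply, NL_apply, NL_apply, ← h0]
  have hI : Integrable (fun ω => 4 * |p.toReal - 2| * (‖x ω‖ ^ (p.toReal - 1) * ‖u ω‖ +
      ‖y ω‖ ^ (p.toReal - 1) * ‖u ω‖)) μ :=
    ((pair_int hp h1 x u).add (pair_int hp h1 y u)).const_mul _
  refine (norm_integral_le_of_norm_le hI ?_).trans ?_
  · filter_upwards [Lp.coeFn_add x (w • y), Lp.coeFn_smul w y] with ω hω1 hω2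
    rw [hω1, Pi.add_apply, hω2, Pi.smul_apply, smul_eq_mul]
    have e1 : J p.toReal (x ω + w * y ω) * u ω - J p.toReal (x ω) * u ω -
        (starRingEnd ℂ) w * (J p.toReal (y ω) * u ω) =
        (J p.toReal (x ω + w * y ω) - J p.toReal (x ω) - J p.toReal (w * y ω)) * u ω := by
      rw [J_mul, J_unit _ hw]
      ring
    rw [e1, norm_mul]
    have h3 := J_add h2 (x ω) (w * y ω)
    rw [norm_mul w, hw, one_mul] at h3
    have h4 := mul_le_mul_of_nonneg_right h3 (norm_nonneg (u ω))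
    refine h4.trans (le_of_eq ?_)
    ring
  · rw [integral_const_mul, integral_add (pair_int hp h1 x u) (pair_int hp h1 y u)]
    have h5 := pair_le hp h1 x u
    have h6 := pair_le hp h1 y u
    have h7 : 0 ≤ 4 * |p.toReal - 2| := by positivity
    refine mul_le_mul_of_nonneg_left ?_ h7
    rw [add_mul]
    exact add_le_add h5 h6

end Pool.Agent.H98.NIL
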