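import Pool.Agent.H98.NI.Idn

/-!
The numerical index of `ℓ_1^m` and of `ℓ_∞^m` is `1`.
-/

set_option autoImplicit false

open scoped ENNReal NNReal
open Set Filter Topology MeasureTheory

namespace Pool.Agent.H98.NIL

open Pool.Agent.H148R3.NI

variable {N : ℕ}

lemma l1_norm (u : lp (fun _ : Fin N => ℂ) 1) : ‖u‖ = ∑ i, ‖u i‖ := by
  have h := lp_sum (p := 1) (by norm_num) u
  simpa using h

lemma ext_phase (z : Fin N → ℂ) : ∃ c : Fin N → ℂ, (∀ i, ‖c i‖ = 1) ∧
    ∀ i, c i * z i = (‖z i‖ : ℂ) := by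
  choose c h1 h2 using fun i => phase (z i)
  exact ⟨c, h1, h2⟩

theorem l1_one (hN : 0 < N) : 1 ≤ numIndex (lp (fun _ : Fin N => ℂ) 1) := by
  classical
  have hne : Nonempty (Fin N) := ⟨⟨0, hN⟩⟩
  have hnt : Nontrivial (lp (fun _ : Fin N => ℂ) 1) := by
    obtain ⟨i⟩ := hne
    refine ⟨lp.single 1 i (1 : ℂ), 0, fun h0 => ?_⟩
    have := congrArg (fun f : lp (fun _ : Fin N => ℂ) 1 => f i) h0
    simp at this
  refine le_numIndex fun T hT => ?_
  rw [← hT]
  have hv := numRadius_nonneg T
  refine ContinuousLinearMap.opNorm_le_bound _ hv fun x => ?_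
  have hx : x = ∑ i, (x i) • (lp.single 1 i (1 : ℂ) : lp (fun _ : Fin N => ℂ) 1) := by
    apply lp.ext
    funext j
    rw [lp.coeFn_sum, Finset.sum_apply, Finset.sum_eq_single j]
    · simp
    · intro i _ hij
      rw [lp.coeFn_smul, Pi.smul_apply, lp.single_apply_ne 1 i _ (Ne.symm hij), smul_zero]
    · intro h
      exact absurd (Finset.mem_univ j) h
  have key : ∀ i, ‖T (lp.single 1 i (1 : ℂ))‖ ≤ numRadius T := by
    intro i
    set e : lp (fun _ : Fin N => ℂ) 1 := lp.single 1 i (1 : ℂ) with he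
    have hen : ‖e‖ = 1 := by
      rw [he, lp.norm_single (by norm_num), norm_one]
    set y := T e with hy
    obtain ⟨c, hc1, hc2⟩ := ext_phase (fun j => y j)
    have hc0 : c i ≠ 0 := by
      intro h
      have := hc1 i
      rw [h, norm_zero] at this
      exact zero_ne_one this
    let f : lp (fun _ : Fin N => ℂ) 1 →L[ℂ] ℂ := LinearMap.mkContinuous
      { toFun := fun u => (c i)⁻¹ * ∑ j, c j * u j
        map_add' := by
          intro a b
          rw [← mul_add, ← Finset.sum_add_distrib]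
          congr 1
          refine Finset.sum_congr rfl fun j _ => ?_
          rw [lp.coeFn_add, Pi.add_apply, mul_add]
        map_smul' := by
          intro r a
          rw [RingHom.id_apply, smul_eq_mul]
          have h : ∑ j, c j * (r • a) j = r * ∑ j, c j * a j := by
            rw [Finset.mul_sum]
            refine Finset.sum_congr rfl fun j _ => ?_
            rw [lp.coeFn_smul, Pi.smul_apply, smul_eq_mul]
            ring
          rw [h]
          ring } 1 (by
        intro u
        rw [one_mul, l1_norm]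
        show ‖(c i)⁻¹ * ∑ j, c j * u j‖ ≤ _
        rw [norm_mul, norm_inv, hc1, inv_one, one_mul]
        refine (norm_sum_le _ _).trans (Finset.sum_le_sum fun j _ => ?_)
        rw [norm_mul, hc1, one_mul])
    have hfa : ∀ u : lp (fun _ : Fin N => ℂ) 1, f u = (c i)⁻¹ * ∑ j, c j * u j := fun u => rfl
    have hfe : f e = 1 := by
      rw [hfa, Finset.sum_eq_single i]
      · rw [he, lp.single_apply_self, mul_one, inv_mul_cancel₀ hc0]
      · intro j _ hj
        rw [he, lp.single_apply_ne 1 i _ hj, mul_zero]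
      · intro h
        exact absurd (Finset.mem_univ i) h
    have hf1 : ‖f‖ = 1 := by
      apply le_antisymm
      · exact LinearMap.mkContinuous_norm_le _ zero_le_one _
      · have := f.le_opNorm e
        rwa [hfe, hen, mul_one, norm_one] at this
    have h1 := le_numRadius T hen hf1 hfe
    have h2 : ‖f (T e)‖ = ‖T e‖ := by
      rw [hfa, norm_mul, norm_inv, hc1, inv_one, one_mul, l1_norm]
      have h3 : ∑ j, c j * (T e) j = ((∑ j, ‖(T e) j‖ : ℝ) : ℂ) := by
        push_cast
        exact Finset.sum_congr rfl fun j _ => hc2 j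
      rw [h3, Complex.norm_real, Real.norm_of_nonneg (Finset.sum_nonneg fun j _ => norm_nonneg _)]
    rwa [h2] at h1
  calc ‖T x‖ = ‖T (∑ i, (x i) • (lp.single 1 i (1 : ℂ) : lp (fun _ : Fin N => ℂ) 1))‖ := by
        rw [← hx]
    _ = ‖∑ i, (x i) • T (lp.single 1 i (1 : ℂ))‖ := by
        rw [map_sum]
        simp only [map_smul]
    _ ≤ ∑ i, ‖(x i) • T (lp.single 1 i (1 : ℂ))‖ := norm_sum_le _ _
    _ ≤ ∑ i, ‖x i‖ * numRadius T := by
        refine Finset.sum_le_sum fun i _ => ?_
        rw [norm_smul]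
        exact mul_le_mul_of_nonneg_left (key i) (norm_nonneg _)
    _ = numRadius T * ‖x‖ := by
        rw [← Finset.sum_mul, ← l1_norm, mul_comm]

theorem linf_one (hN : 0 < N) : 1 ≤ numIndex (Fin N → ℂ) := by
  classical
  have hne : Nonempty (Fin N) := ⟨⟨0, hN⟩⟩
  refine le_numIndex fun T hT => ?_
  rw [← hT]
  have hv := numRadius_nonneg T
  refine ContinuousLinearMap.opNorm_le_bound _ hv fun x => ?_
  refine (pi_norm_le_iff_of_nonneg (by positivity)).2 fun j => ?_
  -- the row functional
  obtain ⟨c, hc1, hc2⟩ := ext_phase (fun i => T (Pi.single i 1) j)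
  have hcn : ‖c‖ = 1 := by
    apply le_antisymm
    · exact (pi_norm_le_iff_of_nonneg zero_le_one).2 fun i => (hc1 i).le
    · obtain ⟨i⟩ := hne
      rw [← hc1 i]
      exact norm_le_pi_norm c i
  have hc0 : c j ≠ 0 := by
    intro h
    have := hc1 j
    rw [h, norm_zero] at this
    exact zero_ne_one this
  have hexp : ∀ u : Fin N → ℂ, T u j = ∑ i, u i * T (Pi.single i 1) j := by
    intro u
    have h1 : u = ∑ i, u i • (Pi.single i (1 : ℂ) : Fin N → ℂ) := by
      funext k
      rw [Finset.sum_apply, Finset.sum_eq_single k]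
      · simp
      · intro i _ hik
        rw [Pi.smul_apply, Pi.single_eq_of_ne (Ne.symm hik), smul_zero]
      · intro h
        exact absurd (Finset.mem_univ k) h
    conv_lhs => rw [h1]
    rw [map_sum, Finset.sum_apply]
    simp only [map_smul, Pi.smul_apply, smul_eq_mul]
  let f : (Fin N → ℂ) →L[ℂ] ℂ := (c j)⁻¹ • ContinuousLinearMap.proj (R := ℂ) (φ := fun _ : Fin N => ℂ) j
  have hfa : ∀ u, f u = (c j)⁻¹ * u j := fun u => rfl
  have hfc : f c = 1 := by
    rw [hfa, inv_mul_cancel₀ hc0]
  have hf1 : ‖f‖ = 1 := by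
    apply le_antisymm
    · refine ContinuousLinearMap.opNorm_le_bound _ zero_le_one fun u => ?_
      rw [one_mul, hfa, norm_mul, norm_inv, hc1, inv_one, one_mul]
      exact norm_le_pi_norm u j
    · have := f.le_opNorm c
      rwa [hfc, hcn, mul_one, norm_one] at this
  have h1 := le_numRadius T hcn hf1 hfc
  have h2 : ‖f (T c)‖ = ∑ i, ‖T (Pi.single i 1) j‖ := by
    rw [hfa, norm_mul, norm_inv, hc1, inv_one, one_mul, hexp c]
    have h3 : ∑ i, c i * T (Pi.single i 1) j = ((∑ i, ‖T (Pi.single i 1) j‖ : ℝ) : ℂ) := by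
      push_cast
      exact Finset.sum_congr rfl fun i _ => hc2 i
    rw [h3, Complex.norm_real, Real.norm_of_nonneg (Finset.sum_nonneg fun j _ => norm_nonneg _)]
  rw [h2] at h1
  calc ‖T x j‖ = ‖∑ i, x i * T (Pi.single i 1) j‖ := by rw [← hexp x]
    _ ≤ ∑ i, ‖x i * T (Pi.single i 1) j‖ := norm_sum_le _ _
    _ ≤ ∑ i, ‖x‖ * ‖T (Pi.single i 1) j‖ := by
        refine Finset.sum_le_sum fun i _ => ?_
        rw [norm_mul]
        exact mul_le_mul_of_nonneg_right (norm_le_pi_norm x i) (norm_nonneg _)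
    _ = ‖x‖ * ∑ i, ‖T (Pi.single i 1) j‖ := by rw [Finset.mul_sum]
    _ ≤ ‖x‖ * numRadius T := mul_le_mul_of_nonneg_left h1 (norm_nonneg _)
    _ = _ := mul_comm _ _

/-- the identity between `ℓ_p^m` and `ℓ_∞^m` -/
noncomputable def toInf (N : ℕ) (p : ℝ≥0∞) [Fact (1 ≤ p)] (hp0 : 0 < p.toReal) :
    lp (fun _ : Fin N => ℂ) p →L[ℂ] (Fin N → ℂ) :=
  LinearMap.mkContinuous
    { toFun := fun w i => w i
      map_add' := fun _ _ => rfl
      map_smul' := fun _ _ => rfl } 1 (by
      intro w
      rw [one_mul]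
      refine (pi_norm_le_iff_of_nonneg (norm_nonneg _)).2 fun i => ?_
      have h1 : ‖w i‖ ^ p.toReal ≤ ‖w‖ ^ p.toReal := by
        rw [lp_sum hp0]
        exact Finset.single_le_sum (f := fun i => ‖w i‖ ^ p.toReal) (fun j _ => by positivity)
          (Finset.mem_univ i)
      exact (Real.rpow_le_rpow_iff (norm_nonneg _) (norm_nonneg _) hp0).1 h1)

noncomputable def ofInf (N : ℕ) (p : ℝ≥0∞) [Fact (1 ≤ p)] (h1 : 1 ≤ p.toReal) :
    (Fin N → ℂ) →L[ℂ] lp (fun _ : Fin N => ℂ) p :=
  LinearMap.mkContinuous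
    { toFun := fun w => ⟨w, Memℓp.all _⟩
      map_add' := fun _ _ => rfl
      map_smul' := fun _ _ => rfl } (1 + N / p.toReal) (by
      intro w
      have hp0 : 0 < p.toReal := by linarith
      have hC : 0 ≤ 1 + N / p.toReal := by positivity
      have h2 : ‖(⟨w, Memℓp.all _⟩ : lp (fun _ : Fin N => ℂ) p)‖ ^ p.toReal ≤
          ((1 + N / p.toReal) * ‖w‖) ^ p.toReal := by
        rw [lp_sum hp0, Real.mul_rpow hC (norm_nonneg _)]
        calc ∑ i, ‖w i‖ ^ p.toReal ≤ ∑ i : Fin N, ‖w‖ ^ p.toReal :=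
              Finset.sum_le_sum fun i _ =>
                Real.rpow_le_rpow (norm_nonneg _) (norm_le_pi_norm w i) hp0.le
          _ = N * ‖w‖ ^ p.toReal := by
              rw [Finset.sum_const, Finset.card_univ, Fintype.card_fin, nsmul_eq_mul]
          _ ≤ _ := by
              refine mul_le_mul_of_nonneg_right ?_ (by positivity)
              have h3 := one_add_mul_self_le_rpow_one_add (s := N / p.toReal)
                (by have : (0:ℝ) ≤ N / p.toReal := by positivity
                    linarith) h1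
              have h4 : p.toReal * (N / p.toReal) = N := by field_simp
              linarith
      exact (Real.rpow_le_rpow_iff (norm_nonneg _) (by positivity) hp0).1 h2)

end Pool.Agent.H98.NIL
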