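import Pool.Agent.H98.NI.Red

/-!
Reduction of the numerical index of `L_p(μ)` to the finite dimensional spaces `ℓ_p`, second part.
-/

set_option autoImplicit false

open scoped ENNReal NNReal
open Set Filter Topology MeasureTheory

namespace Pool.Agent.H98.NIL

open Pool.Agent.H148R3.NI

variable {Ω : Type*} [MeasurableSpace Ω] {μ : Measure Ω} {p : ℝ≥0∞} [Fact (1 ≤ p)]

/-- the index set of a simple function with values in `ℂ × ℂ` -/
abbrev Ix (μ : Measure Ω) (h : SimpleFunc Ω (ℂ × ℂ)) : Type :=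
  {v : ℂ × ℂ // v ∈ (h.range : Set (ℂ × ℂ)) ∧ v ≠ 0 ∧ μ (h ⁻¹' {v}) ≠ 0}

noncomputable instance (μ : Measure Ω) (h : SimpleFunc Ω (ℂ × ℂ)) : Fintype (Ix μ h) :=
  Set.Finite.fintype (s := {v : ℂ × ℂ | v ∈ (h.range : Set (ℂ × ℂ)) ∧ v ≠ 0 ∧ μ (h ⁻¹' {v}) ≠ 0})
    ((Finset.finite_toSet h.range).subset fun _ hv => hv.1)

/-- the weight -/
noncomputable def wt (μ : Measure Ω) (p : ℝ≥0∞) (h : SimpleFunc Ω (ℂ × ℂ)) (v : ℂ × ℂ) : ℝ :=
  (μ.real (h ⁻¹' {v})) ^ (1 / p.toReal)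

/-- the family of a simple function -/
noncomputable def fam (hp : p ≠ ∞) (h1 : 1 < p.toReal) (h : SimpleFunc Ω (ℂ × ℂ))
    (hfin : ∀ v, v ≠ 0 → μ (h ⁻¹' {v}) ≠ ∞) : Fam μ p (Ix μ h) where
  A := fun v => h ⁻¹' {v.1}
  hA := fun v => h.measurableSet_fiber v.1
  dis := by
    intro v w hvw
    rw [Set.disjoint_left]
    intro ω hv hw
    have e1 : h ω = v.1 := hv
    have e2 : h ω = w.1 := hw
    exact hvw (Subtype.ext (e1.symm.trans e2))
  e := fun v => indicatorConstLp p (h.measurableSet_fiber v.1) (hfin v.1 v.2.2.1)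
    (((wt μ p h v.1 : ℝ) : ℂ)⁻¹)
  norm_e := by
    intro v
    have hp0 : 0 < p.toReal := by linarith
    have hpz : p ≠ 0 := fun h => by rw [h] at hp0; simp at hp0
    have hw : 0 < wt μ p h v.1 :=
      Real.rpow_pos_of_pos (ENNReal.toReal_pos v.2.2.2 (hfin v.1 v.2.2.1)) _
    rw [norm_indicatorConstLp hpz hp, norm_inv, Complex.norm_real, Real.norm_of_nonneg hw.le]
    exact inv_mul_cancel₀ hw.ne'
  supp := by
    intro v
    filter_upwards [indicatorConstLp_coeFn (p := p) (hs := h.measurableSet_fiber v.1)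
      (hμs := hfin v.1 v.2.2.1) (c := (((wt μ p h v.1 : ℝ) : ℂ)⁻¹))] with ω e2 hω
    rw [e2, indicator_of_notMem hω]

/-- a function of `h` with value `0` at `0` is in the range of the embedding -/
lemma exists_coef (hp : p ≠ ∞) (h1 : 1 < p.toReal) (h : SimpleFunc Ω (ℂ × ℂ))
    (hfin : ∀ v, v ≠ 0 → μ (h ⁻¹' {v}) ≠ ∞) (φ : ℂ × ℂ → ℂ) (hφ : φ 0 = 0) (g : Lp ℂ p μ)
    (hg : g =ᵐ[μ] fun ω => φ (h ω)) :
    ∃ a : lp (fun _ : Ix μ h => ℂ) p, emb (fam hp h1 h hfin) hp h1 a = g := by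
  classical
  refine ⟨⟨fun v => φ v.1 * ((wt μ p h v.1 : ℝ) : ℂ), Memℓp.all _⟩, ?_⟩
  rw [emb_apply]
  apply Lp.ext
  have hnull : ∀ᵐ ω ∂μ, μ (h ⁻¹' {h ω}) ≠ 0 := by
    have h2 : ∀ᵐ ω ∂μ, ∀ v ∈ h.range, μ (h ⁻¹' {v}) = 0 → ω ∉ h ⁻¹' {v} := by
      rw [Filter.eventually_all_finset]
      intro v _
      by_cases hv : μ (h ⁻¹' {v}) = 0
      · have h3 : ∀ᵐ ω ∂μ, ω ∉ h ⁻¹' {v} := measure_eq_zero_iff_ae_notMem.1 hv
        filter_upwards [h3] with ω h4 _
        exact h4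
      · exact Eventually.of_forall fun ω h4 => absurd h4 hv
    filter_upwards [h2] with ω h3 h4
    exact h3 (h ω) (h.mem_range_self ω) h4 rfl
  have hval : ∀ v : Ix μ h, ∀ᵐ ω ∂μ, ((fam hp h1 h hfin).e v) ω =
      (h ⁻¹' {v.1}).indicator (fun _ => (((wt μ p h v.1 : ℝ) : ℂ)⁻¹)) ω := by
    intro v
    exact indicatorConstLp_coeFn (p := p) (hs := h.measurableSet_fiber v.1)
      (hμs := hfin v.1 v.2.2.1)
  have hval' : ∀ᵐ ω ∂μ, ∀ v : Ix μ h, ((fam hp h1 h hfin).e v) ω =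
      (h ⁻¹' {v.1}).indicator (fun _ => (((wt μ p h v.1 : ℝ) : ℂ)⁻¹)) ω :=
    ae_all_iff.2 hval
  have hsm : ∀ᵐ ω ∂μ, ∀ v : Ix μ h, ((φ v.1 * ((wt μ p h v.1 : ℝ) : ℂ)) •
      (fam hp h1 h hfin).e v : Lp ℂ p μ) ω = (φ v.1 * ((wt μ p h v.1 : ℝ) : ℂ)) *
      ((fam hp h1 h hfin).e v) ω :=
    ae_all_iff.2 fun v => by
      filter_upwards [Lp.coeFn_smul (φ v.1 * ((wt μ p h v.1 : ℝ) : ℂ))
        ((fam hp h1 h hfin).e v)] with ω h2
      rw [h2, Pi.smul_apply, smul_eq_mul]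
  filter_upwards [hg, hnull, hval', hsm, Lp.coeFn_finsetSum Finset.univ fun v : Ix μ h =>
    (φ v.1 * ((wt μ p h v.1 : ℝ) : ℂ)) • (fam hp h1 h hfin).e v] with ω b1 b2 b3 b4 b5
  have e0 : (∑ v : Ix μ h, (φ v.1 * ((wt μ p h v.1 : ℝ) : ℂ)) • (fam hp h1 h hfin).e v :
      Lp ℂ p μ) ω = φ (h ω) := by
    rw [b5, Finset.sum_apply]
    have e1 : ∀ v : Ix μ h, ((φ v.1 * ((wt μ p h v.1 : ℝ) : ℂ)) •
        (fam hp h1 h hfin).e v : Lp ℂ p μ) ω = if h ω = v.1 then φ v.1 else 0 := by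
      intro v
      rw [b4, b3]
      have hw : 0 < wt μ p h v.1 :=
        Real.rpow_pos_of_pos (ENNReal.toReal_pos v.2.2.2 (hfin v.1 v.2.2.1)) _
      have hw' : ((wt μ p h v.1 : ℝ) : ℂ) ≠ 0 := by exact_mod_cast hw.ne'
      by_cases hv : h ω = v.1
      · rw [indicator_of_mem (show ω ∈ h ⁻¹' {v.1} from hv), if_pos hv, mul_assoc,
          mul_inv_cancel₀ hw', mul_one]
      · rw [indicator_of_notMem (show ω ∉ h ⁻¹' {v.1} from hv), if_neg hv, mul_zero]
    simp only [e1]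
    by_cases h0 : h ω = 0
    · rw [h0, hφ]
      refine Finset.sum_eq_zero fun v _ => ?_
      rw [if_neg]
      intro h2
      exact v.2.2.1 h2.symm
    · let v0 : Ix μ h := ⟨h ω, h.mem_range_self ω, h0, b2⟩
      rw [Finset.sum_eq_single v0]
      · rw [if_pos rfl]
      · intro v _ hv
        rw [if_neg]
        intro h2
        exact hv (Subtype.ext h2.symm)
      · intro h2
        exact absurd (Finset.mem_univ v0) h2
  rw [b1]
  exact e0

/-- approximation of two vectors -/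
lemma approx2 (hp : p ≠ ∞) (h1 : 1 < p.toReal) (x y : Lp ℂ p μ) {ε : ℝ} (hε : 0 < ε) :
    ∃ (ι : Type) (_ : Fintype ι) (D : Fam μ p ι) (a b : lp (fun _ : ι => ℂ) p),
      ‖emb D hp h1 a - x‖ < ε ∧ ‖emb D hp h1 b - y‖ < ε := by
  have hp0 : 0 < p.toReal := by linarith
  have hpz : p ≠ 0 := fun h => by rw [h] at hp0; simp at hp0
  have hε' : ENNReal.ofReal ε ≠ 0 := by simpa using hε
  obtain ⟨g1, hg1, hm1⟩ := (Lp.memLp x).exists_simpleFunc_eLpNorm_sub_lt hp hε'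
  obtain ⟨g2, hg2, hm2⟩ := (Lp.memLp y).exists_simpleFunc_eLpNorm_sub_lt hp hε'
  have key : ∀ (z : Lp ℂ p μ) (g : SimpleFunc Ω ℂ) (hm : MemLp g p μ),
      eLpNorm (⇑z - ⇑g) p μ < ENNReal.ofReal ε → ‖hm.toLp g - z‖ < ε := by
    intro z g hm hlt
    rw [norm_sub_rev]
    have e1 : z - hm.toLp g = ((Lp.memLp z).sub hm).toLp (⇑z - ⇑g) := by
      rw [MemLp.toLp_sub (Lp.memLp z) hm, Lp.toLp_coeFn]
    rw [e1, Lp.norm_toLp]
    exact ENNReal.toReal_lt_of_lt_ofReal hlt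
  let h : SimpleFunc Ω (ℂ × ℂ) := g1.pair g2
  have hfin : ∀ v, v ≠ 0 → μ (h ⁻¹' {v}) ≠ ∞ := by
    intro v hv
    by_cases h2 : v.1 = 0
    · have h3 : v.2 ≠ 0 := fun h3 => hv (Prod.ext h2 h3)
      refine ne_top_of_le_ne_top
        (SimpleFunc.measure_preimage_lt_top_of_memLp hpz hp g2 hm2 v.2 h3).ne (measure_mono ?_)
      intro ω hω
      have hω' : (g1 ω, g2 ω) = v := hω
      show g2 ω = v.2
      rw [← hω']
    · refine ne_top_of_le_ne_top
        (SimpleFunc.measure_preimage_lt_top_of_memLp hpz hp g1 hm1 v.1 h2).ne (measure_mono ?_)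
      intro ω hω
      have hω' : (g1 ω, g2 ω) = v := hω
      show g1 ω = v.1
      rw [← hω']
  obtain ⟨a, ha⟩ := exists_coef hp h1 h hfin Prod.fst rfl (hm1.toLp g1)
    (MemLp.coeFn_toLp hm1)
  obtain ⟨b, hb⟩ := exists_coef hp h1 h hfin Prod.snd rfl (hm2.toLp g2)
    (MemLp.coeFn_toLp hm2)
  refine ⟨Ix μ h, inferInstance, fam hp h1 h hfin, a, b, ?_, ?_⟩
  · rw [ha]
    exact key x g1 hm1 hg1
  · rw [hb]
    exact key y g2 hm2 hg2

/-- **Reduction**: a lower bound for all `ℓ_p(ι)`, `ι` finite, holds for all `L_p(μ)`. -/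
theorem reduction [Nontrivial (Lp ℂ p μ)] (hp : p ≠ ∞) (h1 : 1 < p.toReal) {c : ℝ}
    (hc : ∀ (ι : Type) [Fintype ι] [Nonempty ι], c ≤ numIndex (lp (fun _ : ι => ℂ) p)) :
    c ≤ numIndex (Lp ℂ p μ) := by
  refine le_numIndex fun T hT => ?_
  by_cases hc0 : c ≤ 0
  · exact hc0.trans (numRadius_nonneg T)
  rw [not_le] at hc0
  have key : ∀ ε : ℝ, 0 < ε → ε < 1 / 4 → c * (1 - 4 * ε) ≤ numRadius T * (1 + ε) := by
    intro ε hε hε4
    obtain ⟨x, hx, hTx⟩ := T.exists_lt_apply_of_lt_opNorm (r := 1 - ε) (by rw [hT]; linarith)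
    obtain ⟨ι, _, D, a, b, ha, hb⟩ := approx2 (μ := μ) hp h1 x (T x) hε
    have hna : ‖a‖ ≤ 1 + ε := by
      rw [← emb_norm D hp h1 a]
      have := norm_le_norm_add_norm_sub' (emb D hp h1 a) x
      linarith
    have hnb : 1 - 2 * ε ≤ ‖b‖ := by
      rw [← emb_norm D hp h1 b]
      have := norm_le_norm_add_norm_sub' (T x) (emb D hp h1 b)
      rw [norm_sub_rev] at this
      linarith
    set S : lp (fun _ : ι => ℂ) p →L[ℂ] lp (fun _ : ι => ℂ) p :=
      (prj D hp h1).comp (T.comp (emb D hp h1)) with hS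
    have hSa : 1 - 4 * ε ≤ ‖S a‖ := by
      have e1 : b - S a = prj D hp h1 (emb D hp h1 b - T (emb D hp h1 a)) := by
        rw [map_sub, prj_emb]
        rfl
      have h2 : ‖b - S a‖ ≤ 2 * ε := by
        rw [e1]
        refine (prj_norm D hp h1 _).trans ?_
        have e2 : emb D hp h1 b - T (emb D hp h1 a) =
            (emb D hp h1 b - T x) - T (emb D hp h1 a - x) := by
          rw [map_sub]
          abel
        rw [e2]
        refine (norm_sub_le _ _).trans ?_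
        have h3 := T.le_opNorm (emb D hp h1 a - x)
        rw [hT, one_mul] at h3
        linarith
      have h3 := norm_le_norm_add_norm_sub' b (S a)
      linarith
    have hSn : 1 - 4 * ε ≤ ‖S‖ * (1 + ε) :=
      hSa.trans ((S.le_opNorm a).trans (mul_le_mul_of_nonneg_left hna (norm_nonneg _)))
    have hS0 : 0 < ‖S‖ := by
      by_contra h2
      have h3 : ‖S‖ = 0 := le_antisymm (not_lt.1 h2) (norm_nonneg _)
      rw [h3, zero_mul] at hSn
      linarith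
    have hne : Nonempty ι := by
      by_contra h2
      rw [not_nonempty_iff] at h2
      have h3 : S = 0 := by
        apply ContinuousLinearMap.ext
        intro z
        apply lp.ext
        funext i
        exact h2.elim i
      rw [h3, norm_zero] at hS0
      exact lt_irrefl _ hS0
    have h2 := scale S hS0
    have h3 : numRadius S ≤ numRadius T :=
      rad_compress T (emb D hp h1) (prj D hp h1) (emb_norm D hp h1) (prj_norm D hp h1)
        (prj_emb D hp h1)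
    have h4 := hc ι
    have h5 : c * ‖S‖ ≤ numRadius T :=
      (mul_le_mul_of_nonneg_right h4 (norm_nonneg _)).trans (h2.trans h3)
    have h6 : c * (1 - 4 * ε) ≤ c * (‖S‖ * (1 + ε)) := mul_le_mul_of_nonneg_left hSn hc0.le
    have h7 : c * ‖S‖ * (1 + ε) ≤ numRadius T * (1 + ε) :=
      mul_le_mul_of_nonneg_right h5 (by linarith)
    linarith
  have hl : Tendsto (fun ε : ℝ => c * (1 - 4 * ε)) (𝓝[>] 0) (𝓝 c) := by
    have h2 : Continuous fun ε : ℝ => c * (1 - 4 * ε) := by fun_prop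
    have h3 := h2.tendsto 0
    simp only [mul_zero, sub_zero, mul_one] at h3
    exact h3.mono_left nhdsWithin_le_nhds
  have hr : Tendsto (fun ε : ℝ => numRadius T * (1 + ε)) (𝓝[>] 0) (𝓝 (numRadius T)) := by
    have h2 : Continuous fun ε : ℝ => numRadius T * (1 + ε) := by fun_prop
    have h3 := h2.tendsto 0
    simp only [add_zero, mul_one] at h3
    exact h3.mono_left nhdsWithin_le_nhds
  refine le_of_tendsto_of_tendsto hl hr ?_
  filter_upwards [self_mem_nhdsWithin,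
    mem_nhdsWithin_of_mem_nhds (Iio_mem_nhds (show (0 : ℝ) < 1 / 4 by norm_num))] with ε h2 h3
  exact key ε h2 h3

end Pool.Agent.H98.NIL
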