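import Pool.Agent.H98.NI.Fin
import Pool.Agent.H98.NI.Red2

/-!
Numerical index of complex `L_p(μ)`: a uniform lower bound above `1 / e`.
-/

set_option autoImplicit false

open scoped ENNReal NNReal
open Set Filter Topology MeasureTheory

namespace Pool.Agent.H98.NIL

open Pool.Agent.H148R3.NI

theorem uniform_Lp : ∃ c : ℝ, Real.exp (-1) < c ∧ ∀ (p : ℝ≥0∞) [Fact (1 ≤ p)], 1 < p → p ≠ ∞ →
    ∀ {Ω : Type*} [MeasurableSpace Ω] (μ : Measure Ω) [Nontrivial (Lp ℂ p μ)],
      c ≤ numIndex (Lp ℂ p μ) := by
  obtain ⟨K, hK, hlim⟩ := Pool.Agent.H148R3.NM.limit_two (ε := 1 / 2) (by norm_num)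
  have hK0 : 0 < K := by linarith
  have hlog : ∀ s : ℝ, 0 < Real.log (1 + Real.exp (-s)) := fun s =>
    Real.log_pos (by linarith [Real.exp_pos (-s)])
  refine ⟨min (1 / 2) (Real.exp (-1) + Real.log (1 + Real.exp (-K)) / (K * Real.exp 1)), ?_, ?_⟩
  · rw [lt_min_iff]
    constructor
    · rw [Real.exp_neg, inv_lt_comm₀ (Real.exp_pos _) (by norm_num)]
      have := Real.exp_one_gt_d9
      norm_num
      linarith
    · have := hlog K
      have : 0 < Real.log (1 + Real.exp (-K)) / (K * Real.exp 1) := by positivity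
      linarith
  · intro p _ h1 hp Ω _ μ _
    have hp1 := toReal_one_lt h1 hp
    by_cases h : K < p.toReal ∨ K < p.toReal / (p.toReal - 1)
    · refine (min_le_left _ _).trans (reduction hp hp1 fun ι _ _ => ?_)
      have := hlim p h1 hp h ι
      linarith
    · rw [not_or, not_lt, not_lt] at h
      have hb := Lp_bound μ p h1 hp (Real.exp_pos 1)
      set s := max p.toReal (p.toReal / (p.toReal - 1)) with hs
      have hs0 : 0 < s := lt_of_lt_of_le (by linarith) (le_max_left _ _)
      have hsK : s ≤ K := max_le h.1 h.2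
      rw [value hs0] at hb
      refine (min_le_right _ _).trans (le_trans ?_ hb)
      have h3 : Real.log (1 + Real.exp (-K)) ≤ Real.log (1 + Real.exp (-s)) :=
        Real.log_le_log (by positivity) (by
          have := Real.exp_le_exp.2 (neg_le_neg hsK)
          linarith)
      have h4 : Real.log (1 + Real.exp (-K)) / (K * Real.exp 1) ≤
          Real.log (1 + Real.exp (-s)) / (s * Real.exp 1) := by
        apply div_le_div₀ (hlog s).le h3 (by positivity)
        exact mul_le_mul_of_nonneg_right hsK (Real.exp_pos _).le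
      linarith

end Pool.Agent.H98.NIL
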