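import Pool.Agent.H98.NI.Asy

/-!
A better modulus of continuity of `p ↦ n(ℓ_p)`.
-/

set_option autoImplicit false

open scoped ENNReal NNReal
open Set Filter Topology MeasureTheory

namespace Pool.Agent.H98.NIL

open Pool.Agent.H148R3.NI

variable {N : ℕ}

lemma id_le {p r : ℝ≥0∞} [Fact (1 ≤ p)] [Fact (1 ≤ r)] (hp : p ≠ ∞) (hr : r ≠ ∞)
    (hpr : p.toReal ≤ r.toReal) (w : lp (fun _ : Fin N => ℂ) p) :
    ‖idL N p r w‖ ≤ ‖w‖ := by
  have hp1 := one_le_toReal hp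
  have hr1 := one_le_toReal hr
  have hp0 : 0 < p.toReal := by linarith
  have hr0 : 0 < r.toReal := by linarith
  by_cases hw : w = 0
  · rw [hw, map_zero, norm_zero, norm_zero]
  have hwn : 0 < ‖w‖ := norm_pos_iff.2 hw
  have key : ∀ u : lp (fun _ : Fin N => ℂ) p, ‖u‖ = 1 → ‖idL N p r u‖ ≤ 1 := by
    intro u hu
    have h1 : ∑ i, ‖u i‖ ^ p.toReal = 1 := by
      rw [← lp_sum hp0, hu, Real.one_rpow]
    have h2 : ∀ i, ‖u i‖ ≤ 1 := by
      intro i
      have h3 : ‖u i‖ ^ p.toReal ≤ 1 := by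
        rw [← h1]
        exact Finset.single_le_sum (f := fun i => ‖u i‖ ^ p.toReal) (fun j _ => by positivity)
          (Finset.mem_univ i)
      by_contra h4
      rw [not_le] at h4
      have := Real.one_lt_rpow h4 hp0
      linarith
    have h3 : ‖idL N p r u‖ ^ r.toReal ≤ 1 ^ r.toReal := by
      rw [lp_sum hr0, Real.one_rpow, ← h1]
      refine Finset.sum_le_sum fun i _ => ?_
      show ‖u i‖ ^ r.toReal ≤ _
      rcases (norm_nonneg (u i)).eq_or_lt with h | h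
      · rw [← h, Real.zero_rpow hr0.ne', Real.zero_rpow hp0.ne']
      · exact Real.rpow_le_rpow_of_exponent_ge h (h2 i) hpr
    exact (Real.rpow_le_rpow_iff (norm_nonneg _) zero_le_one hr0).1 h3
  have h5 := key ((‖w‖⁻¹ : ℂ) • w) (by
    rw [norm_smul, norm_inv, Complex.norm_real, norm_norm, inv_mul_cancel₀ hwn.ne'])
  rw [map_smul, norm_smul, norm_inv, Complex.norm_real, norm_norm, inv_mul_le_iff₀ hwn] at h5
  linarith

lemma id_ge {p r : ℝ≥0∞} [Fact (1 ≤ p)] [Fact (1 ≤ r)] (hp : p ≠ ∞) (hr : r ≠ ∞)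
    (hpr : p.toReal ≤ r.toReal) (w : lp (fun _ : Fin N => ℂ) r) :
    ‖idL N r p w‖ ≤ (N : ℝ) ^ (1 / p.toReal - 1 / r.toReal) * ‖w‖ := by
  have hp1 := one_le_toReal hp
  have hr1 := one_le_toReal hr
  have hp0 : 0 < p.toReal := by linarith
  have hr0 : 0 < r.toReal := by linarith
  have h1 := Real.rpow_sum_le_const_mul_sum_rpow Finset.univ (fun i => ‖w i‖ ^ p.toReal)
    (p := r.toReal / p.toReal) (by rwa [le_div_iff₀ hp0, one_mul])
  have e1 : ∀ i, |‖w i‖ ^ p.toReal| = ‖w i‖ ^ p.toReal := fun i => abs_of_nonneg (by positivity)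
  have e2 : ∀ i, (‖w i‖ ^ p.toReal) ^ (r.toReal / p.toReal) = ‖w i‖ ^ r.toReal := by
    intro i
    rw [← Real.rpow_mul (norm_nonneg _)]
    congr 1
    field_simp
  simp only [e1, e2] at h1
  rw [Finset.card_univ, Fintype.card_fin, ← lp_sum hr0] at h1
  have e3 : ∑ i, ‖w i‖ ^ p.toReal = ‖idL N r p w‖ ^ p.toReal := (lp_sum hp0 (idL N r p w)).symm
  have e4 : (‖idL N r p w‖ ^ p.toReal) ^ (r.toReal / p.toReal) = ‖idL N r p w‖ ^ r.toReal := by
    rw [← Real.rpow_mul (norm_nonneg _)]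
    congr 1
    field_simp
  rw [e3, e4] at h1
  have h2 : ‖idL N r p w‖ ^ r.toReal ≤
      ((N : ℝ) ^ (1 / p.toReal - 1 / r.toReal) * ‖w‖) ^ r.toReal := by
    rw [Real.mul_rpow (by positivity) (norm_nonneg _), ← Real.rpow_mul (by positivity)]
    have e5 : (1 / p.toReal - 1 / r.toReal) * r.toReal = r.toReal / p.toReal - 1 := by
      field_simp
    rw [e5]
    exact h1
  exact (Real.rpow_le_rpow_iff (norm_nonneg _) (by positivity) hr0).1 h2

lemma exp_small {x : ℝ} (h0 : 0 ≤ x) (h1 : x ≤ 1 / 2) : Real.exp x ≤ 1 + 2 * x := by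
  have h2 := Real.add_one_le_exp (-x)
  rw [Real.exp_neg] at h2
  have h3 : 0 < Real.exp x := Real.exp_pos x
  have h4 : (1 - x) * Real.exp x ≤ 1 := by
    calc (1 - x) * Real.exp x ≤ (Real.exp x)⁻¹ * Real.exp x :=
          mul_le_mul_of_nonneg_right (by linarith) h3.le
      _ = 1 := inv_mul_cancel₀ h3.ne'
  nlinarith

lemma close2_aux (hN : 0 < N) {p r : ℝ≥0∞} [Fact (1 ≤ p)] [Fact (1 ≤ r)] (hp : p ≠ ∞)
    (hr : r ≠ ∞) (hpr : p.toReal ≤ r.toReal)
    (h : 2 * ((1 / p.toReal - 1 / r.toReal) * Real.log N) ≤ 1 / 4) :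
    ∃ (I : lp (fun _ : Fin N => ℂ) p →L[ℂ] lp (fun _ : Fin N => ℂ) r)
      (J : lp (fun _ : Fin N => ℂ) r →L[ℂ] lp (fun _ : Fin N => ℂ) p),
      ‖I‖ ≤ 1 + 2 * ((1 / p.toReal - 1 / r.toReal) * Real.log N) ∧
      ‖J‖ ≤ 1 + 2 * ((1 / p.toReal - 1 / r.toReal) * Real.log N) ∧
      (∀ y, I (J y) = y) ∧ (∀ x, J (I x) = x) := by
  have hp1 := one_le_toReal hp
  have hp0 : 0 < p.toReal := by linarith
  have hr0 : 0 < r.toReal := by linarith
  have hN1 : (1 : ℝ) ≤ N := by exact_mod_cast hN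
  have hN0 : (0 : ℝ) < N := by linarith
  have hθ : 0 ≤ 1 / p.toReal - 1 / r.toReal := by
    have := one_div_le_one_div_of_le hp0 hpr
    linarith
  have hx : 0 ≤ (1 / p.toReal - 1 / r.toReal) * Real.log N :=
    mul_nonneg hθ (Real.log_nonneg hN1)
  have hC : (N : ℝ) ^ (1 / p.toReal - 1 / r.toReal) ≤
      1 + 2 * ((1 / p.toReal - 1 / r.toReal) * Real.log N) := by
    rw [Real.rpow_def_of_pos hN0, mul_comm (Real.log (N : ℝ))]
    exact exp_small hx (by linarith)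
  refine ⟨(idL N p r).mkContinuous (1 + 2 * ((1 / p.toReal - 1 / r.toReal) * Real.log N))
      fun w => (id_le hp hr hpr w).trans (le_mul_of_one_le_left (norm_nonneg _) (by linarith)),
    (idL N r p).mkContinuous (1 + 2 * ((1 / p.toReal - 1 / r.toReal) * Real.log N))
      fun w => (id_ge hp hr hpr w).trans (mul_le_mul_of_nonneg_right hC (norm_nonneg _)),
    ?_, ?_, fun _ => rfl, fun _ => rfl⟩
  · exact LinearMap.mkContinuous_norm_le _ (by linarith) _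
  · exact LinearMap.mkContinuous_norm_le _ (by linarith) _

lemma close2 (hN : 0 < N) {p r : ℝ≥0∞} [Fact (1 ≤ p)] [Fact (1 ≤ r)] (hp : p ≠ ∞)
    (hr : r ≠ ∞) : numIndex (lp (fun _ : Fin N => ℂ) r) ≤
      numIndex (lp (fun _ : Fin N => ℂ) p) +
        17 * √(2 * (|1 / p.toReal - 1 / r.toReal| * Real.log N)) := by
  have h1 := lp_nontrivial hN p
  have h2 := lp_nontrivial hN r
  have hp0 : 0 < p.toReal := by linarith [one_le_toReal hp]
  have hr0 : 0 < r.toReal := by linarith [one_le_toReal hr]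
  have hN1 : (1 : ℝ) ≤ N := by exact_mod_cast hN
  have hlog := Real.log_nonneg hN1
  have h0 : 0 ≤ 2 * (|1 / p.toReal - 1 / r.toReal| * Real.log N) := by positivity
  by_cases h : 2 * (|1 / p.toReal - 1 / r.toReal| * Real.log N) ≤ 1 / 4
  · rcases le_total p.toReal r.toReal with hpr | hpr
    · have hθ : 0 ≤ 1 / p.toReal - 1 / r.toReal := by
        have := one_div_le_one_div_of_le hp0 hpr
        linarith
      rw [abs_of_nonneg hθ] at h h0 ⊢
      obtain ⟨I, J, hI, hJ, hIJ, hJI⟩ := close2_aux hN hp hr hpr h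
      exact bm I J hIJ hJI h0 h hI hJ
    · have hθ : 0 ≤ 1 / r.toReal - 1 / p.toReal := by
        have := one_div_le_one_div_of_le hr0 hpr
        linarith
      rw [abs_sub_comm, abs_of_nonneg hθ] at h h0 ⊢
      obtain ⟨I, J, hI, hJ, hIJ, hJI⟩ := close2_aux hN hr hp hpr h
      exact bm J I hJI hIJ h0 h hJ hI
  · rw [not_le] at h
    have h3 := big_sqrt h
    have h4 : numIndex (lp (fun _ : Fin N => ℂ) r) ≤ 1 := idx_le_one
    have h5 : 0 ≤ numIndex (lp (fun _ : Fin N => ℂ) p) := idx_nonneg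
    linarith

/-- the choice of `K` -/
lemma choose_K2 {θ : ℝ} (h0 : 0 < θ) (h1 : θ ≤ 1) : ∃ K : ℕ, 1 ≤ K ∧
    16 / (K : ℝ) + 17 * √(2 * (θ * Real.log ((2 * K + 1) ^ 4 : ℕ))) ≤
      135 * θ ^ (2 / 5 : ℝ) := by
  set s := θ ^ (1 / 10 : ℝ) with hs
  have hs0 : 0 < s := Real.rpow_pos_of_pos h0 _
  have hs1 : s ≤ 1 := Real.rpow_le_one h0.le h1 (by norm_num)
  have hs10 : s ^ 10 = θ := by
    rw [hs, ← Real.rpow_natCast, ← Real.rpow_mul h0.le]
    norm_num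
  have hs4 : θ ^ (2 / 5 : ℝ) = s ^ 4 := by
    rw [hs, ← Real.rpow_natCast, ← Real.rpow_mul h0.le]
    norm_num
  have hs40 : 0 < s ^ 4 := by positivity
  have hs41 : s ^ 4 ≤ 1 := pow_le_one₀ hs0.le hs1
  refine ⟨⌈(s ^ 4)⁻¹⌉₊, Nat.one_le_ceil_iff.2 (by positivity), ?_⟩
  set K : ℕ := ⌈(s ^ 4)⁻¹⌉₊ with hK
  have hK1 : (s ^ 4)⁻¹ ≤ (K : ℝ) := Nat.le_ceil _
  have hK2 : (K : ℝ) < (s ^ 4)⁻¹ + 1 := Nat.ceil_lt_add_one (by positivity)
  have hK0 : (0 : ℝ) < K := lt_of_lt_of_le (by positivity) hK1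
  have hKge1 : (1 : ℝ) ≤ K := by
    refine le_trans ?_ hK1
    rw [one_le_inv₀ hs40]
    exact hs41
  have h2 : 16 / (K : ℝ) ≤ 16 * s ^ 4 := by
    rw [div_le_iff₀ hK0]
    have : 1 ≤ s ^ 4 * K := by
      calc (1 : ℝ) = s ^ 4 * (s ^ 4)⁻¹ := (mul_inv_cancel₀ hs40.ne').symm
        _ ≤ s ^ 4 * K := mul_le_mul_of_nonneg_left hK1 hs40.le
    nlinarith
  -- `s^4 K ≤ 2`
  have h3 : s ^ 4 * K ≤ 2 := by
    calc s ^ 4 * K ≤ s ^ 4 * ((s ^ 4)⁻¹ + 1) := mul_le_mul_of_nonneg_left hK2.le hs40.le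
      _ = 1 + s ^ 4 := by rw [mul_add, mul_inv_cancel₀ hs40.ne', mul_one]
      _ ≤ 2 := by linarith
  -- `log (2K+1) ≤ 4 √K`
  have h4 : Real.log (2 * K + 1) ≤ 4 * √K := by
    have h5 : (0 : ℝ) < 2 * K + 1 := by positivity
    have h6 : Real.log (2 * K + 1) = 2 * Real.log √(2 * K + 1) := by
      rw [Real.log_sqrt h5.le]
      ring
    have h7 := Real.log_le_sub_one_of_pos (Real.sqrt_pos.2 h5)
    have h8 : √(2 * (K : ℝ) + 1) ≤ 2 * √K := by
      rw [Real.sqrt_le_left (by positivity)]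
      rw [mul_pow, Real.sq_sqrt hK0.le]
      linarith
    linarith
  -- `s² √K ≤ 3/2`
  have h5 : s ^ 2 * √K ≤ 3 / 2 := by
    have h6 : (s ^ 2 * √K) ^ 2 ≤ (3 / 2) ^ 2 := by
      rw [mul_pow, Real.sq_sqrt hK0.le]
      have : (s ^ 2) ^ 2 * (K : ℝ) = s ^ 4 * K := by ring
      rw [this]
      linarith
    exact abs_le_of_sq_le_sq' h6 (by norm_num) |>.2
  have h6 : √(2 * (θ * Real.log ((2 * K + 1) ^ 4 : ℕ))) ≤ 7 * s ^ 4 := by
    rw [Real.sqrt_le_left (by positivity)]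
    have e : Real.log ((2 * K + 1) ^ 4 : ℕ) = 4 * Real.log (2 * K + 1) := by
      push_cast
      rw [Real.log_pow]
      norm_num
    rw [e, ← hs10]
    calc 2 * (s ^ 10 * (4 * Real.log (2 * K + 1))) = 8 * s ^ 10 * Real.log (2 * K + 1) := by ring
      _ ≤ 8 * s ^ 10 * (4 * √K) := mul_le_mul_of_nonneg_left h4 (by positivity)
      _ = 32 * s ^ 8 * (s ^ 2 * √K) := by ring
      _ ≤ 32 * s ^ 8 * (3 / 2) := mul_le_mul_of_nonneg_left h5 (by positivity)
      _ ≤ (7 * s ^ 4) ^ 2 := by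
          have : 0 < s ^ 8 := by positivity
          have e2 : (7 * s ^ 4) ^ 2 = 49 * s ^ 8 := by ring
          rw [e2]
          linarith
  rw [hs4]
  linarith

lemma hoelder2_one {p r : ℝ≥0∞} [Fact (1 ≤ p)] [Fact (1 ≤ r)] (hp1 : 1 < p) (hp : p ≠ ∞)
    (hr1 : 1 < r) (hr : r ≠ ∞) (hne : p ≠ r) :
    numIndex (Lp ℂ r (Measure.count : Measure ℕ)) ≤
      numIndex (Lp ℂ p (Measure.count : Measure ℕ)) +
        135 * |1 / p.toReal - 1 / r.toReal| ^ (2 / 5 : ℝ) := by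
  have hp' : 1 < p.toReal := toReal_one_lt hp1 hp
  have hr' : 1 < r.toReal := toReal_one_lt hr1 hr
  have h0 : 0 < |1 / p.toReal - 1 / r.toReal| := by
    rw [abs_pos]
    intro h
    have h' : 1 / p.toReal = 1 / r.toReal := by linarith
    rw [one_div, one_div, inv_inj] at h'
    exact hne ((ENNReal.toReal_eq_toReal_iff' hp hr).1 h')
  have h2 : |1 / p.toReal - 1 / r.toReal| ≤ 1 := by
    have a1 : 0 < 1 / p.toReal := by positivity
    have a2 : 0 < 1 / r.toReal := by positivity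
    have a3 : 1 / p.toReal ≤ 1 := by rw [div_le_one (by linarith)]; exact hp'.le
    have a4 : 1 / r.toReal ≤ 1 := by rw [div_le_one (by linarith)]; exact hr'.le
    rw [abs_le]
    constructor <;> linarith
  obtain ⟨K, hK, hK2⟩ := choose_K2 h0 h2
  have hN : 0 < (2 * K + 1) ^ 4 := by positivity
  have hnt := lp_nontrivial (N := (2 * K + 1) ^ 4) hN p
  have h3 := sub_bound hK idx_le_one
    (finite_dim (Measure.count : Measure ℕ) p hp1 hp K hK)
  have h4 := close2 hN (p := p) (r := r) hp hr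
  have h5 := cnt_le hN (p := r) hr hr'
  linarith

theorem hoelder2 {p r : ℝ≥0∞} [Fact (1 ≤ p)] [Fact (1 ≤ r)] (hp1 : 1 < p) (hp : p ≠ ∞)
    (hr1 : 1 < r) (hr : r ≠ ∞) :
    |numIndex (Lp ℂ p (Measure.count : Measure ℕ)) -
      numIndex (Lp ℂ r (Measure.count : Measure ℕ))| ≤
        135 * |1 / p.toReal - 1 / r.toReal| ^ (2 / 5 : ℝ) := by
  by_cases hne : p = r
  · subst hne
    rw [sub_self, abs_zero]
    positivity
  · have h1 := hoelder2_one hp1 hp hr1 hr hne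
    have h2 := hoelder2_one hr1 hr hp1 hp (Ne.symm hne)
    rw [abs_sub_comm (1 / r.toReal)] at h2
    rw [abs_le]
    constructor <;> linarith

end Pool.Agent.H98.NIL
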