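import Pool.Agent.H98.NI.Hld

/-!
The modulus of continuity `86 (θ (1 + log (1 / θ)))^{1/2}`, `θ = |1/p - 1/r|`, of `p ↦ n(ℓ_p)`.
-/

set_option autoImplicit false

open scoped ENNReal NNReal
open Set Filter Topology MeasureTheory

namespace Pool.Agent.H98.NIL

open Pool.Agent.H148R3.NI

lemma log_five : Real.log 5 ≤ 2.08 := by
  have h := Real.log_two_lt_d9
  have h8 : Real.log 8 = 3 * Real.log 2 := by
    rw [show (8 : ℝ) = 2 ^ 3 by norm_num, Real.log_pow]
    norm_num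
  have := Real.log_le_log (by norm_num : (0 : ℝ) < 5) (by norm_num : (5 : ℝ) ≤ 8)
  norm_num at h ⊢
  linarith

/-- the choice of `K` -/
lemma choose_K3 {θ : ℝ} (h0 : 0 < θ) (h1 : θ ≤ 1) : ∃ K : ℕ, 1 ≤ K ∧
    16 / (K : ℝ) + 17 * √(2 * (θ * Real.log ((2 * K + 1) ^ 4 : ℕ))) ≤
      86 * √(θ * (1 - Real.log θ)) := by
  set s := √θ with hs
  have hs0 : 0 < s := Real.sqrt_pos.2 h0
  have hs2 : s ^ 2 = θ := Real.sq_sqrt h0.le
  have hs1 : s ≤ 1 := Real.sqrt_le_iff.2 ⟨zero_le_one, by simpa using h1⟩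
  have hL : Real.log θ ≤ 0 := Real.log_nonpos h0.le h1
  refine ⟨⌈s⁻¹⌉₊, Nat.one_le_ceil_iff.2 (by positivity), ?_⟩
  set K : ℕ := ⌈s⁻¹⌉₊ with hK
  have hK1 : s⁻¹ ≤ (K : ℝ) := Nat.le_ceil _
  have hK2 : (K : ℝ) < s⁻¹ + 1 := Nat.ceil_lt_add_one (by positivity)
  have hK0 : (0 : ℝ) < K := lt_of_lt_of_le (by positivity) hK1
  have hsi : 1 ≤ s⁻¹ := (one_le_inv₀ hs0).2 hs1
  have h2 : 16 / (K : ℝ) ≤ 16 * s := by
    rw [div_le_iff₀ hK0]
    have : 1 ≤ s * K := by
      calc (1 : ℝ) = s * s⁻¹ := (mul_inv_cancel₀ hs0.ne').symm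
        _ ≤ s * K := mul_le_mul_of_nonneg_left hK1 hs0.le
    nlinarith
  have h3 : Real.log (2 * K + 1) ≤ 2.08 - Real.log θ / 2 := by
    have h4 : Real.log (2 * K + 1) ≤ Real.log (5 * s⁻¹) :=
      Real.log_le_log (by positivity) (by linarith)
    rw [Real.log_mul (by norm_num) (by positivity), Real.log_inv, hs, Real.log_sqrt h0.le] at h4
    have := log_five
    linarith
  have hA : 0 ≤ θ * (1 - Real.log θ) := mul_nonneg h0.le (by linarith)
  have h5 : s ≤ √(θ * (1 - Real.log θ)) := by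
    rw [hs]
    exact Real.sqrt_le_sqrt (le_mul_of_one_le_right h0.le (by linarith))
  have h6 : √(2 * (θ * Real.log ((2 * K + 1) ^ 4 : ℕ))) ≤ 4.1 * √(θ * (1 - Real.log θ)) := by
    rw [Real.sqrt_le_left (by positivity), mul_pow, Real.sq_sqrt hA]
    have e : Real.log ((2 * K + 1) ^ 4 : ℕ) = 4 * Real.log (2 * K + 1) := by
      push_cast
      rw [Real.log_pow]
      norm_num
    rw [e]
    have h7 : 8 * θ * Real.log (2 * K + 1) ≤ 8 * θ * (2.08 - Real.log θ / 2) :=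
      mul_le_mul_of_nonneg_left h3 (by positivity)
    have h8 : 0 ≤ θ * (-Real.log θ) := mul_nonneg h0.le (by linarith)
    have e2 : 2 * (θ * (4 * Real.log (2 * K + 1))) = 8 * θ * Real.log (2 * K + 1) := by ring
    rw [e2]
    refine h7.trans ?_
    norm_num
    nlinarith
  have h9 : 0 ≤ √(θ * (1 - Real.log θ)) := Real.sqrt_nonneg _
  norm_num at h6 ⊢
  linarith

lemma hoelder3_one {p r : ℝ≥0∞} [Fact (1 ≤ p)] [Fact (1 ≤ r)] (hp1 : 1 < p) (hp : p ≠ ∞)
    (hr1 : 1 < r) (hr : r ≠ ∞) (hne : p ≠ r) :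
    numIndex (Lp ℂ r (Measure.count : Measure ℕ)) ≤
      numIndex (Lp ℂ p (Measure.count : Measure ℕ)) +
        86 * √(|1 / p.toReal - 1 / r.toReal| *
          (1 - Real.log |1 / p.toReal - 1 / r.toReal|)) := by
  have hp' : 1 < p.toReal := toReal_one_lt hp1 hp
  have hr' : 1 < r.toReal := toReal_one_lt hr1 hr
  have h0 : 0 < |1 / p.toReal - 1 / r.toReal| := by
    rw [abs_pos]
    intro h
    have h' : 1 / p.toReal = 1 / r.toReal := by linarith
    rw [one_div, one_div, inv_inj] at h'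
    exact hne ((ENNReal.toReal_eq_toReal_iff' hp hr).1 h')
  have h2 : |1 / p.toReal - 1 / r.toReal| ≤ 1 := by
    have a1 : 0 < 1 / p.toReal := by positivity
    have a2 : 0 < 1 / r.toReal := by positivity
    have a3 : 1 / p.toReal ≤ 1 := by rw [div_le_one (by linarith)]; exact hp'.le
    have a4 : 1 / r.toReal ≤ 1 := by rw [div_le_one (by linarith)]; exact hr'.le
    rw [abs_le]
    constructor <;> linarith
  obtain ⟨K, hK, hK2⟩ := choose_K3 h0 h2
  have hN : 0 < (2 * K + 1) ^ 4 := by positivity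
  have hnt := lp_nontrivial (N := (2 * K + 1) ^ 4) hN p
  have h3 := sub_bound hK idx_le_one
    (finite_dim (Measure.count : Measure ℕ) p hp1 hp K hK)
  have h4 := close2 hN (p := p) (r := r) hp hr
  have h5 := cnt_le hN (p := r) hr hr'
  linarith

theorem hoelder3 {p r : ℝ≥0∞} [Fact (1 ≤ p)] [Fact (1 ≤ r)] (hp1 : 1 < p) (hp : p ≠ ∞)
    (hr1 : 1 < r) (hr : r ≠ ∞) :
    |numIndex (Lp ℂ p (Measure.count : Measure ℕ)) -
      numIndex (Lp ℂ r (Measure.count : Measure ℕ))| ≤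
        86 * √(|1 / p.toReal - 1 / r.toReal| *
          (1 - Real.log |1 / p.toReal - 1 / r.toReal|)) := by
  by_cases hne : p = r
  · subst hne
    rw [sub_self, abs_zero]
    positivity
  · have h1 := hoelder3_one hp1 hp hr1 hr hne
    have h2 := hoelder3_one hr1 hr hp1 hp (Ne.symm hne)
    rw [abs_sub_comm (1 / r.toReal)] at h2
    rw [abs_le]
    constructor <;> linarith

end Pool.Agent.H98.NIL
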