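import Pool.Agent.H98.NI.Summ

/-!
The identity from `ℓ_p^m` to `ℓ_r^m`, and the numerical index of `ℓ_1^m`.
-/

set_option autoImplicit false

open scoped ENNReal NNReal
open Set Filter Topology MeasureTheory

namespace Pool.Agent.H98.NIL

open Pool.Agent.H148R3.NI

lemma pow_diff' {t a b : ℝ} (h0 : 0 ≤ t) (h1 : t ≤ 1) (ha : 1 ≤ a) (hab : a ≤ b) :
    |t ^ b - t ^ a| ≤ b - a := by
  rcases h0.eq_or_lt with h | h
  · rw [← h, Real.zero_rpow (by linarith), Real.zero_rpow (by linarith), sub_zero, abs_zero]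
    linarith
  have h2 : t ^ b ≤ t ^ a := Real.rpow_le_rpow_of_exponent_ge h h1 hab
  rw [abs_of_nonpos (by linarith)]
  have h3 : t ^ b = t ^ a * t ^ (b - a) := by
    rw [← Real.rpow_add h]
    congr 1
    ring
  have h4 : t ^ (b - a) = Real.exp (Real.log t * (b - a)) := Real.rpow_def_of_pos h _
  have h5 := Real.add_one_le_exp (Real.log t * (b - a))
  have h6 : t ^ a ≤ t := by
    calc t ^ a ≤ t ^ (1 : ℝ) := Real.rpow_le_rpow_of_exponent_ge h h1 ha
      _ = t := Real.rpow_one t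
  have h7 : 0 ≤ t ^ a := by positivity
  have h8 : -Real.log t ≤ t⁻¹ := by
    have := Real.log_le_sub_one_of_pos (inv_pos.2 h)
    rw [Real.log_inv] at this
    linarith
  have h9 : t ^ a - t ^ b ≤ t ^ a * (-Real.log t * (b - a)) := by
    rw [h3, h4]
    nlinarith
  have h10 : t ^ a * (-Real.log t * (b - a)) ≤ t * (t⁻¹ * (b - a)) := by
    apply mul_le_mul h6 _ _ h0
    · exact mul_le_mul_of_nonneg_right h8 (by linarith)
    · have : 0 ≤ -Real.log t := by linarith [Real.log_nonpos h0 h1]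
      exact mul_nonneg this (by linarith)
  have h11 : t * (t⁻¹ * (b - a)) = b - a := by
    field_simp
  linarith

lemma pow_diff'' {t a b : ℝ} (h0 : 0 ≤ t) (h1 : t ≤ 1) (ha : 1 ≤ a) (hb : 1 ≤ b) :
    t ^ b ≤ t ^ a + |a - b| := by
  rcases le_total a b with h | h
  · have h2 := (abs_le.1 (pow_diff' h0 h1 ha h)).2
    rw [abs_sub_comm, abs_of_nonneg (by linarith)]
    linarith
  · have h2 := (abs_le.1 (pow_diff' h0 h1 hb h)).1
    rw [abs_of_nonneg (by linarith)]
    linarith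

variable {N : ℕ}

lemma one_le_toReal {p : ℝ≥0∞} [hp1 : Fact (1 ≤ p)] (hp : p ≠ ∞) : 1 ≤ p.toReal := by
  rw [← ENNReal.toReal_one]
  exact ENNReal.toReal_mono hp hp1.out

/-- the identity -/
noncomputable def idL (N : ℕ) (p r : ℝ≥0∞) [Fact (1 ≤ p)] [Fact (1 ≤ r)] :
    lp (fun _ : Fin N => ℂ) p →ₗ[ℂ] lp (fun _ : Fin N => ℂ) r where
  toFun := fun w => ⟨fun i => w i, Memℓp.all _⟩
  map_add' := fun _ _ => rfl
  map_smul' := fun _ _ => rfl

lemma idL_bound {p r : ℝ≥0∞} [Fact (1 ≤ p)] [Fact (1 ≤ r)] (hp : p ≠ ∞) (hr : r ≠ ∞)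
    (w : lp (fun _ : Fin N => ℂ) p) :
    ‖idL N p r w‖ ≤ (1 + N * |p.toReal - r.toReal|) * ‖w‖ := by
  have hp1 := one_le_toReal hp
  have hr1 := one_le_toReal hr
  have hp0 : 0 < p.toReal := by linarith
  have hr0 : 0 < r.toReal := by linarith
  have hC : 1 ≤ 1 + N * |p.toReal - r.toReal| := by
    have : 0 ≤ (N : ℝ) * |p.toReal - r.toReal| := by positivity
    linarith
  by_cases hw : w = 0
  · rw [hw, map_zero, norm_zero, norm_zero, mul_zero]
  have hwn : 0 < ‖w‖ := norm_pos_iff.2 hw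
  -- the norm one case
  have key : ∀ u : lp (fun _ : Fin N => ℂ) p, ‖u‖ = 1 →
      ‖idL N p r u‖ ≤ 1 + N * |p.toReal - r.toReal| := by
    intro u hu
    have h1 : ∑ i, ‖u i‖ ^ p.toReal = 1 := by
      rw [← lp_sum hp0, hu, Real.one_rpow]
    have h2 : ∀ i, ‖u i‖ ≤ 1 := by
      intro i
      have h3 : ‖u i‖ ^ p.toReal ≤ 1 := by
        rw [← h1]
        exact Finset.single_le_sum (f := fun i => ‖u i‖ ^ p.toReal) (fun j _ => by positivity)
          (Finset.mem_univ i)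
      by_contra h4
      rw [not_le] at h4
      have := Real.one_lt_rpow h4 hp0
      linarith
    have h3 : ‖idL N p r u‖ ^ r.toReal ≤ 1 + N * |p.toReal - r.toReal| := by
      rw [lp_sum hr0]
      calc ∑ i, ‖idL N p r u i‖ ^ r.toReal = ∑ i, ‖u i‖ ^ r.toReal := rfl
        _ ≤ ∑ i, (‖u i‖ ^ p.toReal + |p.toReal - r.toReal|) :=
            Finset.sum_le_sum fun i _ => pow_diff'' (norm_nonneg _) (h2 i) hp1 hr1
        _ = _ := by
            rw [Finset.sum_add_distrib, h1, Finset.sum_const, Finset.card_univ, Fintype.card_fin,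
              nsmul_eq_mul]
    have h4 : 1 + N * |p.toReal - r.toReal| ≤ (1 + N * |p.toReal - r.toReal|) ^ r.toReal := by
      calc 1 + N * |p.toReal - r.toReal| = (1 + N * |p.toReal - r.toReal|) ^ (1 : ℝ) :=
            (Real.rpow_one _).symm
        _ ≤ _ := Real.rpow_le_rpow_of_exponent_le hC hr1
    exact (Real.rpow_le_rpow_iff (norm_nonneg _) (by linarith) hr0).1 (h3.trans h4)
  have h5 := key ((‖w‖⁻¹ : ℂ) • w) (by
    rw [norm_smul, norm_inv, Complex.norm_real, norm_norm, inv_mul_cancel₀ hwn.ne'])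
  rw [map_smul, norm_smul, norm_inv, Complex.norm_real, norm_norm, inv_mul_le_iff₀ hwn] at h5
  linarith

lemma exists_id {p r : ℝ≥0∞} [Fact (1 ≤ p)] [Fact (1 ≤ r)] (hp : p ≠ ∞) (hr : r ≠ ∞) :
    ∃ I : lp (fun _ : Fin N => ℂ) p →L[ℂ] lp (fun _ : Fin N => ℂ) r,
      ‖I‖ ≤ 1 + N * |p.toReal - r.toReal| ∧ ∀ w, I w = idL N p r w := by
  refine ⟨(idL N p r).mkContinuous (1 + N * |p.toReal - r.toReal|) (idL_bound hp hr), ?_,
    fun w => rfl⟩
  exact LinearMap.mkContinuous_norm_le _ (by positivity) _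

end Pool.Agent.H98.NIL
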