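import Pool.Agent.H98.NI.Clk
import Pool.Graph.R_seed8.H148R3.NM1

/-!
The duality map of `L_p` is almost additive for `p` near `2`: pointwise estimates.
-/

set_option autoImplicit false

open scoped ENNReal NNReal
open Set Filter Topology MeasureTheory

namespace Pool.Agent.H98.NIL

open Pool.Agent.H148R3.NM (J J_mul J_unit J_pos norm_J J_self J_zero J_one)

lemma exp_diff (u w : ℝ) : |Real.exp u - Real.exp w| ≤ |u - w| * max (Real.exp u) (Real.exp w) := by
  wlog h : w ≤ u generalizing u w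
  · rw [abs_sub_comm, abs_sub_comm u w, max_comm]
    exact this w u (le_of_not_ge h)
  have h1 : Real.exp w ≤ Real.exp u := Real.exp_le_exp.2 h
  rw [abs_of_nonneg (by linarith), abs_of_nonneg (by linarith), max_eq_left h1]
  have h2 := Real.add_one_le_exp (w - u)
  have h3 : Real.exp w = Real.exp (w - u) * Real.exp u := by
    rw [← Real.exp_add, sub_add_cancel]
  have h4 := mul_le_mul_of_nonneg_right h2 (Real.exp_pos u).le
  rw [h3]
  linarith

lemma rp {p : ℝ} (hp : |p - 2| ≤ 1 / 2) {r : ℝ} (h0 : 0 ≤ r) (h2 : r ≤ 2) :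
    |r ^ (p - 1) - r| ≤ 2 * |p - 2| := by
  have hp' := abs_le.1 hp
  rcases h0.eq_or_lt with h | h
  · rw [← h, Real.zero_rpow (by linarith), sub_zero, abs_zero]
    positivity
  have e1 : r ^ (p - 1) = Real.exp (Real.log r * (p - 1)) := Real.rpow_def_of_pos h _
  have e2 : r = Real.exp (Real.log r) := (Real.exp_log h).symm
  have h3 := exp_diff (Real.log r * (p - 1)) (Real.log r)
  rw [← e1, ← e2] at h3
  have e3 : |Real.log r * (p - 1) - Real.log r| = |p - 2| * |Real.log r| := by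
    rw [← abs_mul]
    congr 1
    ring
  rw [e3] at h3
  refine h3.trans ?_
  have hA : 0 ≤ |p - 2| := abs_nonneg _
  have hB : 0 ≤ |Real.log r| := abs_nonneg _
  rw [mul_assoc, mul_comm 2]
  refine mul_le_mul_of_nonneg_left ?_ hA
  rcases le_total r 1 with h1 | h1
  · have h4 : max (r ^ (p - 1)) r ≤ r ^ (1 / 2 : ℝ) := by
      apply max_le
      · exact Real.rpow_le_rpow_of_exponent_ge h h1 (by linarith)
      · calc r = r ^ (1 : ℝ) := (Real.rpow_one r).symm
          _ ≤ _ := Real.rpow_le_rpow_of_exponent_ge h h1 (by norm_num)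
    have h5 := Real.abs_log_mul_self_rpow_lt r (1 / 2) h h1 (by norm_num)
    rw [abs_mul, abs_of_pos (Real.rpow_pos_of_pos h _)] at h5
    have h6 := mul_le_mul_of_nonneg_left h4 hB
    norm_num at h5
    norm_num at h6
    linarith
  · have h4 : max (r ^ (p - 1)) r ≤ r ^ (3 / 2 : ℝ) := by
      apply max_le
      · exact Real.rpow_le_rpow_of_exponent_le h1 (by linarith)
      · calc r = r ^ (1 : ℝ) := (Real.rpow_one r).symm
          _ ≤ _ := Real.rpow_le_rpow_of_exponent_le h1 (by norm_num)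
    have h5 : r ^ (3 / 2 : ℝ) ≤ 2.83 := by
      have h6 : (r ^ (3 / 2 : ℝ)) ^ 2 = r ^ 3 := by
        rw [← Real.rpow_natCast, ← Real.rpow_mul h0, ← Real.rpow_natCast]
        norm_num
      have h7 : r ^ 3 ≤ 8 := by
        calc r ^ 3 ≤ 2 ^ 3 := pow_le_pow_left₀ h0 h2 3
          _ = 8 := by norm_num
      have h8 : 0 ≤ r ^ (3 / 2 : ℝ) := by positivity
      nlinarith
    have h6 : |Real.log r| ≤ 0.6931471808 := by
      rw [abs_of_nonneg (Real.log_nonneg h1)]
      exact (Real.log_le_log h h2).trans Real.log_two_lt_d9.le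
    have h9 : 0 ≤ max (r ^ (p - 1)) r := h0.trans (le_max_right _ _)
    calc |Real.log r| * max (r ^ (p - 1)) r ≤ 0.6931471808 * 2.83 :=
          mul_le_mul h6 (h4.trans h5) h9 (by norm_num)
      _ ≤ 2 := by norm_num

lemma J_near {p : ℝ} (hp : |p - 2| ≤ 1 / 2) {t : ℂ} (ht : ‖t‖ ≤ 2) :
    ‖J p t - (starRingEnd ℂ) t‖ ≤ 2 * |p - 2| := by
  by_cases h0 : t = 0
  · rw [h0, J_zero, map_zero, sub_zero, norm_zero]
    positivity
  have hpos : 0 < ‖t‖ := norm_pos_iff.2 h0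
  have e1 : J p t - (starRingEnd ℂ) t = (((‖t‖ ^ (p - 2) - 1 : ℝ)) : ℂ) * (starRingEnd ℂ) t := by
    unfold J
    push_cast
    ring
  have e2 : ‖t‖ ^ (p - 1) = ‖t‖ ^ (p - 2) * ‖t‖ := by
    rw [← Real.rpow_add_one hpos.ne']
    congr 1
    ring
  have h := rp hp hpos.le ht
  have e3 : (‖t‖ ^ (p - 2) - 1) * ‖t‖ = ‖t‖ ^ (p - 1) - ‖t‖ := by
    rw [e2]
    ring
  have e4 : |‖t‖ ^ (p - 2) - 1| * ‖t‖ = |‖t‖ ^ (p - 1) - ‖t‖| := by
    rw [← e3, abs_mul, abs_of_pos hpos]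
  rw [e1, norm_mul, Complex.norm_real, RCLike.norm_conj, Real.norm_eq_abs, e4]
  exact h

theorem J_add {p : ℝ} (hp : |p - 2| ≤ 1 / 2) (a b : ℂ) :
    ‖J p (a + b) - J p a - J p b‖ ≤ 4 * |p - 2| * (‖a‖ ^ (p - 1) + ‖b‖ ^ (p - 1)) := by
  have hp' := abs_le.1 hp
  wlog h : ‖b‖ ≤ ‖a‖ generalizing a b
  · have h1 := this b a (le_of_not_ge h)
    rw [add_comm b a, add_comm (‖b‖ ^ (p - 1))] at h1
    rw [sub_right_comm]
    exact h1
  by_cases ha : a = 0
  · have hb : b = 0 := by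
      rw [ha, norm_zero] at h
      exact norm_le_zero_iff.1 h
    rw [ha, hb, add_zero, J_zero, sub_zero, sub_zero, norm_zero]
    positivity
  have hpos : 0 < ‖a‖ := norm_pos_iff.2 ha
  have hc : (‖a‖ : ℂ) ≠ 0 := by exact_mod_cast hpos.ne'
  obtain ⟨a', hae, ha'⟩ : ∃ a' : ℂ, a = (‖a‖ : ℂ) * a' ∧ ‖a'‖ = 1 := by
    refine ⟨a / ‖a‖, by field_simp, ?_⟩
    rw [norm_div, Complex.norm_real, norm_norm, div_self hpos.ne']
  obtain ⟨b', hbe, hb'⟩ : ∃ b' : ℂ, b = (‖a‖ : ℂ) * b' ∧ ‖b'‖ ≤ 1 := by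
    refine ⟨b / ‖a‖, by field_simp, ?_⟩
    rw [norm_div, Complex.norm_real, norm_norm, div_le_one hpos]
    exact h
  have h1 : ‖J p (a' + b') - J p a' - J p b'‖ ≤ 4 * |p - 2| := by
    have e : J p (a' + b') - J p a' - J p b' = (J p (a' + b') - (starRingEnd ℂ) (a' + b')) -
        (J p b' - (starRingEnd ℂ) b') := by
      rw [J_unit p ha', map_add]
      ring
    rw [e]
    have h2 := J_near (p := p) hp (t := a' + b')
      ((norm_add_le _ _).trans (by rw [ha']; linarith))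
    have h3 := J_near (p := p) hp (t := b') (by linarith)
    refine (norm_sub_le _ _).trans ?_
    linarith
  have e2 : J p (a + b) - J p a - J p b =
      ((‖a‖ ^ (p - 1) : ℝ) : ℂ) * (J p (a' + b') - J p a' - J p b') := by
    have e3 : J p (a + b) = ((‖a‖ ^ (p - 1) : ℝ) : ℂ) * J p (a' + b') := by
      rw [← J_pos hpos, ← J_mul, mul_add, ← hae, ← hbe]
    have e4 : J p a = ((‖a‖ ^ (p - 1) : ℝ) : ℂ) * J p a' := by
      rw [← J_pos hpos, ← J_mul, ← hae]
    have e5 : J p b = ((‖a‖ ^ (p - 1) : ℝ) : ℂ) * J p b' := by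
      rw [← J_pos hpos, ← J_mul, ← hbe]
    rw [e3, e4, e5]
    ring
  rw [e2, norm_mul, Complex.norm_real, Real.norm_of_nonneg (by positivity)]
  have h4 : 0 ≤ ‖a‖ ^ (p - 1) := by positivity
  have h5 : 0 ≤ ‖b‖ ^ (p - 1) := by positivity
  have h6 := mul_le_mul_of_nonneg_left h1 h4
  have h7 : 0 ≤ 4 * |p - 2| * ‖b‖ ^ (p - 1) := by positivity
  linarith

lemma J_meas (p : ℝ) : Measurable (J p) := by
  unfold J
  have h1 : Measurable fun x : ℂ => ((‖x‖ ^ (p - 2) : ℝ) : ℂ) :=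
    Complex.measurable_ofReal.comp (measurable_norm.pow_const (p - 2))
  exact h1.mul Complex.continuous_conj.measurable

end Pool.Agent.H98.NIL
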