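import Pool.Agent.H98.NI.Asy

/-!
Comparison with `κ_p = 1 / (p^{1/p} q^{1/q})` near `p = 1` and `p = ∞`.
-/

set_option autoImplicit false

open scoped ENNReal NNReal
open Set Filter Topology MeasureTheory

namespace Pool.Agent.H98.NIL

open Pool.Agent.H148R3.NI

lemma self_pow_le {a : ℝ} (h0 : 0 < a) (h1 : a ≤ 1) : a ^ a ≤ 1 := Real.rpow_le_one h0.le h1 h0.le

lemma self_pow_ge {a : ℝ} (h0 : 0 < a) : 1 - 2 * √a ≤ a ^ a := by
  have h2 : a ^ a = Real.exp (Real.log a * a) := Real.rpow_def_of_pos h0 _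
  rw [h2]
  have h3 := Real.add_one_le_exp (Real.log a * a)
  have h4 : 0 < √a := Real.sqrt_pos.2 h0
  have h5 : Real.log a = 2 * Real.log √a := by
    rw [Real.log_sqrt h0.le]
    ring
  have h6 : -Real.log √a ≤ (√a)⁻¹ := by
    have := Real.log_le_sub_one_of_pos (inv_pos.2 h4)
    rw [Real.log_inv] at this
    linarith
  have h7 : -(Real.log a * a) ≤ 2 * √a := by
    have h8 : a = √a * √a := (Real.mul_self_sqrt h0.le).symm
    have h9 : -(Real.log a * a) = 2 * (-Real.log √a) * a := by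
      rw [h5]
      ring
    rw [h9]
    calc 2 * (-Real.log √a) * a ≤ 2 * (√a)⁻¹ * a := by
          gcongr
      _ = 2 * √a := by
          conv_lhs => rw [h8]
          field_simp
          rw [Real.sq_sqrt h0.le]
  linarith

lemma two_pow_ge {a b : ℝ} (ha : 0 < a) (hb : 0 < b) (hab : a + b = 1) :
    1 - 3 * √a ≤ a ^ a * b ^ b := by
  have ha1 : a ≤ 1 := by linarith
  have hb1 : b ≤ 1 := by linarith
  have h1 := self_pow_ge ha
  have h2 : b ≤ b ^ b := by
    calc b = b ^ (1 : ℝ) := (Real.rpow_one b).symm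
      _ ≤ b ^ b := Real.rpow_le_rpow_of_exponent_ge hb hb1 hb1
  have h3 : a ≤ √a := by
    have := Real.sq_sqrt ha.le
    have h4 : √a ≤ 1 := Real.sqrt_le_iff.2 ⟨zero_le_one, by simpa using ha1⟩
    have h5 := Real.sqrt_nonneg a
    nlinarith
  have h4 : 0 ≤ √a := Real.sqrt_nonneg a
  have h5 : 0 < a ^ a := Real.rpow_pos_of_pos ha _
  have h6 : 0 < b ^ b := Real.rpow_pos_of_pos hb _
  by_cases h : 0 ≤ 1 - 2 * √a
  · calc 1 - 3 * √a ≤ (1 - 2 * √a) * b := by nlinarith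
      _ ≤ a ^ a * b ^ b := mul_le_mul h1 h2 hb.le h5.le
  · rw [not_le] at h
    have : 0 < a ^ a * b ^ b := mul_pos h5 h6
    linarith

lemma kap_eq {P : ℝ} (h : 1 < P) :
    (P ^ (1 / P) * (P / (P - 1)) ^ (1 / (P / (P - 1))))⁻¹ =
      (1 / P) ^ (1 / P) * ((P - 1) / P) ^ ((P - 1) / P) := by
  have h1 : 0 < P := by linarith
  have h2 : 0 < P - 1 := by linarith
  rw [mul_inv, ← Real.inv_rpow h1.le, ← Real.inv_rpow (by positivity), inv_div, one_div_div,
    one_div]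

lemma sqrt_le_sixth {x : ℝ} (h0 : 0 < x) (h1 : x ≤ 1) : √x ≤ x ^ (1 / 6 : ℝ) := by
  rw [Real.sqrt_eq_rpow]
  exact Real.rpow_le_rpow_of_exponent_ge h0 h1 (by norm_num)

lemma abs_le_of_mem {x y M : ℝ} (hx : x ≤ 1) (hy : y ≤ 1) (hx' : 1 - M ≤ x) (hy' : 1 - M ≤ y) :
    |x - y| ≤ M := by
  rw [abs_le]
  constructor <;> linarith

theorem kappa_one {Ω : Type*} [MeasurableSpace Ω] (μ : Measure Ω) (p : ℝ≥0∞) [Fact (1 ≤ p)]
    (h1 : 1 < p) (hp : p ≠ ∞) [Nontrivial (Lp ℂ p μ)] :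
    |numIndex (Lp ℂ p μ) - (p.toReal ^ (1 / p.toReal) *
      (p.toReal / (p.toReal - 1)) ^ (1 / (p.toReal / (p.toReal - 1))))⁻¹| ≤
        441 * (p.toReal - 1) ^ (1 / 6 : ℝ) := by
  have h : 1 < p.toReal := toReal_one_lt h1 hp
  set P := p.toReal with hP
  have hP0 : 0 < P := by linarith
  have hb : 0 < (P - 1) / P := div_pos (by linarith) hP0
  have ha : 0 < 1 / P := by positivity
  have hab : (P - 1) / P + 1 / P = 1 := by field_simp; ring
  rw [kap_eq h]
  refine abs_le_of_mem idx_le_one ?_ (near_one μ p h1 hp) ?_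
  · have h3 := self_pow_le ha (by linarith)
    have h4 := self_pow_le hb (by linarith)
    exact mul_le_one₀ h3 (by positivity) h4
  · have h3 := two_pow_ge hb ha hab
    have hpos : 0 < (P - 1) ^ (1 / 6 : ℝ) := Real.rpow_pos_of_pos (by linarith) _
    by_cases h2 : P - 1 ≤ 1
    · have h4 : √((P - 1) / P) ≤ (P - 1) ^ (1 / 6 : ℝ) := by
        refine le_trans (Real.sqrt_le_sqrt ?_) (sqrt_le_sixth (by linarith) h2)
        exact div_le_self (by linarith) h.le
      linarith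
    · rw [not_le] at h2
      have h4 : 1 ≤ (P - 1) ^ (1 / 6 : ℝ) := Real.one_le_rpow h2.le (by norm_num)
      have h5 : 0 < (1 / P) ^ (1 / P) * ((P - 1) / P) ^ ((P - 1) / P) := by positivity
      linarith

theorem kappa_inf {Ω : Type*} [MeasurableSpace Ω] (μ : Measure Ω) (p : ℝ≥0∞) [Fact (1 ≤ p)]
    (h1 : 1 < p) (hp : p ≠ ∞) [Nontrivial (Lp ℂ p μ)] :
    |numIndex (Lp ℂ p μ) - (p.toReal ^ (1 / p.toReal) *
      (p.toReal / (p.toReal - 1)) ^ (1 / (p.toReal / (p.toReal - 1))))⁻¹| ≤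
        441 * (1 / p.toReal) ^ (1 / 6 : ℝ) := by
  have h : 1 < p.toReal := toReal_one_lt h1 hp
  set P := p.toReal with hP
  have hP0 : 0 < P := by linarith
  have hb : 0 < (P - 1) / P := div_pos (by linarith) hP0
  have ha : 0 < 1 / P := by positivity
  have hab : 1 / P + (P - 1) / P = 1 := by field_simp; ring
  rw [kap_eq h]
  refine abs_le_of_mem idx_le_one ?_ (near_inf μ p h1 hp) ?_
  · have h3 := self_pow_le ha (by linarith)
    have h4 := self_pow_le hb (by linarith)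
    exact mul_le_one₀ h3 (by positivity) h4
  · have h3 := two_pow_ge ha hb hab
    have h4 : √(1 / P) ≤ (1 / P) ^ (1 / 6 : ℝ) := sqrt_le_sixth ha (by linarith)
    have hpos : 0 < (1 / P) ^ (1 / 6 : ℝ) := Real.rpow_pos_of_pos ha _
    linarith

end Pool.Agent.H98.NIL
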