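import Pool.Agent.H98.NI.Fin
import Pool.Agent.H98.NI.Red2

/-!
Numerical index of complex `L_p(μ)`: the bound `log(1 + R^s) / (s R)` with `s` truncated at an
absolute constant.
-/

set_option autoImplicit false

open scoped ENNReal NNReal
open Set Filter Topology MeasureTheory

namespace Pool.Agent.H98.NIL

open Pool.Agent.H148R3.NI

lemma log_small {K R : ℝ} (hK : 4 ≤ K) (hR : 0 < R) : Real.log (1 + R ^ K) / (K * R) ≤ 1 / 2 := by
  have hK0 : 0 < K := by linarith
  rw [div_le_iff₀ (by positivity)]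
  have hRK : 0 < R ^ K := Real.rpow_pos_of_pos hR _
  rcases le_total R 1 with h | h
  · have h1 : Real.log (1 + R ^ K) ≤ R ^ K := by
      have := Real.log_le_sub_one_of_pos (x := 1 + R ^ K) (by positivity)
      linarith
    have h2 : R ^ K ≤ R := by
      calc R ^ K ≤ R ^ (1 : ℝ) := Real.rpow_le_rpow_of_exponent_ge hR h (by linarith)
        _ = R := Real.rpow_one R
    nlinarith
  · have h1 : 1 ≤ R ^ K := Real.one_le_rpow h hK0.le
    have h2 : Real.log (1 + R ^ K) ≤ Real.log 2 + K * Real.log R := by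
      calc Real.log (1 + R ^ K) ≤ Real.log (2 * R ^ K) :=
            Real.log_le_log (by positivity) (by linarith)
        _ = Real.log 2 + K * Real.log R := by
            rw [Real.log_mul (by norm_num) hRK.ne', Real.log_rpow hR]
    have h3 : Real.log R ≤ R / 2 - 1 + Real.log 2 := by
      have h4 := Real.log_le_sub_one_of_pos (x := R / 2) (by positivity)
      rw [Real.log_div hR.ne' (by norm_num)] at h4
      linarith
    have h5 := Real.log_two_lt_d9
    have h6 : K * Real.log R ≤ K * (R / 2 - 1 + Real.log 2) := mul_le_mul_of_nonneg_left h3 hK0.le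
    have h7 : 4 * (1 - Real.log 2) ≤ K * (1 - Real.log 2) :=
      mul_le_mul_of_nonneg_right hK (by linarith)
    linarith

theorem lower_all : ∃ K : ℝ, 1 < K ∧ ∀ (p : ℝ≥0∞) [Fact (1 ≤ p)], 1 < p → p ≠ ∞ →
    ∀ {Ω : Type*} [MeasurableSpace Ω] (μ : Measure Ω) [Nontrivial (Lp ℂ p μ)] (s : ℝ),
      s = min (max p.toReal (p.toReal / (p.toReal - 1))) K →
        (∀ R : ℝ, 0 < R → Real.log (1 + R ^ s) / (s * R) ≤ numIndex (Lp ℂ p μ)) ∧
        Real.exp (-1) + Real.log (1 + Real.exp (-s)) / (s * Real.exp 1) ≤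
          numIndex (Lp ℂ p μ) ∧
        Real.exp (-1) + Real.log (1 + Real.exp (-K)) / (K * Real.exp 1) ≤
          numIndex (Lp ℂ p μ) := by
  obtain ⟨K0, hK0, hlim⟩ := Pool.Agent.H148R3.NM.limit_two (ε := 1 / 2) (by norm_num)
  have hKpos : 0 < max K0 4 := lt_of_lt_of_le (by norm_num) (le_max_right _ _)
  have hlog : ∀ s : ℝ, 0 < Real.log (1 + Real.exp (-s)) := fun s =>
    Real.log_pos (by linarith [Real.exp_pos (-s)])
  refine ⟨max K0 4, lt_of_lt_of_le (by norm_num) (le_max_right _ _), ?_⟩
  intro p _ h1 hp Ω _ μ _ s hs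
  set K := max K0 4 with hK
  have hp1 := toReal_one_lt h1 hp
  have hs0 : 0 < s := by
    rw [hs, lt_min_iff]
    exact ⟨lt_of_lt_of_le (by linarith) (le_max_left _ _), hKpos⟩
  have key : ∀ R : ℝ, 0 < R → Real.log (1 + R ^ s) / (s * R) ≤ numIndex (Lp ℂ p μ) := by
    intro R hR
    rcases le_or_gt (max p.toReal (p.toReal / (p.toReal - 1))) K with h | h
    · rw [min_eq_left h] at hs
      rw [hs]
      exact Lp_bound μ p h1 hp hR
    · rw [min_eq_right h.le] at hs
      rw [hs]
      refine (log_small (le_max_right _ _) hR).trans (reduction hp hp1 fun ι _ _ => ?_)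
      have h2 : K0 < p.toReal ∨ K0 < p.toReal / (p.toReal - 1) := by
        rw [← lt_max_iff]
        exact lt_of_le_of_lt (le_max_left _ _) h
      have := hlim p h1 hp h2 ι
      linarith
  have h2 := key (Real.exp 1) (Real.exp_pos 1)
  rw [value hs0] at h2
  refine ⟨key, h2, le_trans ?_ h2⟩
  have hsK : s ≤ K := by
    rw [hs]
    exact min_le_right _ _
  have h3 : Real.log (1 + Real.exp (-K)) ≤ Real.log (1 + Real.exp (-s)) :=
    Real.log_le_log (by positivity) (by
      have := Real.exp_le_exp.2 (neg_le_neg hsK)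
      linarith)
  have h4 : Real.log (1 + Real.exp (-K)) / (K * Real.exp 1) ≤
      Real.log (1 + Real.exp (-s)) / (s * Real.exp 1) := by
    apply div_le_div₀ (hlog s).le h3 (by positivity)
    exact mul_le_mul_of_nonneg_right hsK (Real.exp_pos _).le
  linarith

end Pool.Agent.H98.NIL
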