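import Mathlib

/-!
Numerical index: the two-coefficient estimate in spaces with a Clarkson inequality.
-/

set_option autoImplicit false

open scoped ENNReal
open Metric Set Filter Topology

namespace Pool.Agent.H98.NIL

/-- Clarkson's inequality with exponent `s` -/
def Cl (X : Type*) [NormedAddCommGroup X] (s : ℝ) : Prop :=
  ∀ x y : X, ‖x + y‖ ^ s + ‖x - y‖ ^ s ≤ 2 ^ (s - 1) * (‖x‖ ^ s + ‖y‖ ^ s)

theorem Cl.half {X : Type*} [NormedAddCommGroup X] [NormedSpace ℂ X] {s : ℝ}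
    (hC : Cl X s) (a b : X) :
    ‖(1 / 2 : ℂ) • (a + b)‖ ^ s + ‖(1 / 2 : ℂ) • (a - b)‖ ^ s ≤ (‖a‖ ^ s + ‖b‖ ^ s) / 2 := by
  have h := hC ((1 / 2 : ℂ) • a) ((1 / 2 : ℂ) • b)
  rw [← smul_add, ← smul_sub] at h
  refine h.trans (le_of_eq ?_)
  have e : ‖(1 / 2 : ℂ)‖ = 2⁻¹ := by norm_num
  rw [norm_smul, norm_smul, e, Real.mul_rpow (by norm_num) (norm_nonneg _),
    Real.mul_rpow (by norm_num) (norm_nonneg _), ← mul_add, ← mul_assoc,
    Real.inv_rpow (by norm_num), Real.rpow_sub (by norm_num), Real.rpow_one]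
  have : (2 : ℝ) ^ s ≠ 0 := (Real.rpow_pos_of_pos (by norm_num) s).ne'
  field_simp

/-- If `f` is analytic near the disc of radius `R` with `‖f‖ ≤ B` on the circle, then
`‖f 0‖ ^ s + (R ‖f' 0‖) ^ s ≤ B ^ s`. -/
theorem two_coeff {Y : Type*} [NormedAddCommGroup Y] [NormedSpace ℂ Y] [CompleteSpace Y]
    {s : ℝ} (hs : 1 ≤ s) (hC : Cl Y s) {R R' B : ℝ} (hR : 0 < R) (hR' : R < R') (f : ℂ → Y)
    (hf : DifferentiableOn ℂ f (ball 0 R')) (hB : ∀ z, ‖z‖ = R → ‖f z‖ ≤ B) :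
    ‖f 0‖ ^ s + (R * ‖deriv f 0‖) ^ s ≤ B ^ s := by
  have hR'0 : 0 < R' := hR.trans hR'
  have hs0 : 0 < s := by linarith
  have hB0 : 0 ≤ B := (norm_nonneg _).trans (hB (R : ℂ) (by simp [abs_of_pos hR]))
  have hU : ball (0 : ℂ) R' ∈ 𝓝 (0 : ℂ) := ball_mem_nhds _ hR'0
  have hneg : ∀ z ∈ ball (0 : ℂ) R', -z ∈ ball (0 : ℂ) R' := by
    intro z hz; simpa using hz
  have hfn : DifferentiableOn ℂ (fun z => f (-z)) (ball 0 R') :=
    hf.comp (differentiable_neg.differentiableOn) hneg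
  let e : ℂ → Y := fun z => (1 / 2 : ℂ) • (f z + f (-z))
  let o : ℂ → Y := fun z => (1 / 2 : ℂ) • (f z - f (-z))
  have he : DifferentiableOn ℂ e (ball 0 R') := (hf.add hfn).const_smul _
  have ho : DifferentiableOn ℂ o (ball 0 R') := (hf.sub hfn).const_smul _
  have ho0 : o 0 = 0 := by simp [o]
  have he0 : e 0 = f 0 := by
    simp only [e, neg_zero]
    rw [← two_smul ℂ (f 0), smul_smul]; norm_num
  have hdf : DifferentiableAt ℂ f 0 := hf.differentiableAt hU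
  have hdo : HasDerivAt o (deriv f 0) 0 := by
    have h1 : HasDerivAt f (deriv f 0) 0 := hdf.hasDerivAt
    have h2 : HasDerivAt (fun z : ℂ => f (-z)) (-(deriv f 0)) 0 := by
      have h3 : HasDerivAt (fun z : ℂ => -z) (-1) (0 : ℂ) := (hasDerivAt_id (0 : ℂ)).neg
      have h4 : HasDerivAt f (deriv f 0) (-(0 : ℂ)) := by rwa [neg_zero]
      have h5 := h4.scomp (0 : ℂ) h3
      rw [neg_smul, one_smul] at h5
      exact h5
    have h6 := (h1.sub h2).const_smul (1 / 2 : ℂ)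
    have h7 : (1 / 2 : ℂ) • (deriv f 0 - -(deriv f 0)) = deriv f 0 := by
      rw [sub_neg_eq_add, ← two_smul ℂ (deriv f 0), smul_smul]; norm_num
    rw [h7] at h6
    exact h6
  let d : ℂ → Y := dslope o 0
  have hd : DifferentiableOn ℂ d (ball 0 R') := (Complex.differentiableOn_dslope hU).2 ho
  have hd0 : d 0 = deriv f 0 := by
    show dslope o 0 0 = _
    rw [dslope_same, hdo.deriv]
  have hdz : ∀ z : ℂ, z ≠ 0 → d z = z⁻¹ • o z := by
    intro z hz
    show dslope o 0 z = _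
    rw [dslope_of_ne _ hz, slope_def_module, ho0, sub_zero, sub_zero]
  let P : ℝ≥0∞ := ENNReal.ofReal s
  have hP : P.toReal = s := ENNReal.toReal_ofReal hs0.le
  have : Fact (1 ≤ P) := ⟨by
    rw [← ENNReal.ofReal_one]; exact ENNReal.ofReal_le_ofReal hs⟩
  let G : ℂ → WithLp P (Y × Y) := fun z => WithLp.toLp P (e z, (R : ℂ) • d z)
  have hG : DifferentiableOn ℂ G (ball 0 R') := by
    have h1 : DifferentiableOn ℂ (fun z => (e z, (R : ℂ) • d z)) (ball 0 R') :=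
      he.prodMk (hd.const_smul _)
    exact ((WithLp.prodContinuousLinearEquiv P ℂ Y Y).symm.differentiable.comp_differentiableOn
      h1)
  have hnorm : ∀ z, ‖G z‖ = (‖e z‖ ^ s + (R * ‖d z‖) ^ s) ^ (1 / s) := by
    intro z
    have h1 : ‖(R : ℂ) • d z‖ = R * ‖d z‖ := by
      rw [norm_smul, Complex.norm_real, Real.norm_of_nonneg hR.le]
    rw [WithLp.prod_norm_eq_add (by rw [hP]; exact hs0), hP]
    show (‖e z‖ ^ s + ‖(R : ℂ) • d z‖ ^ s) ^ (1 / s) = _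
    rw [h1]
  have hDC : DiffContOnCl ℂ G (ball 0 R) := by
    apply DifferentiableOn.diffContOnCl
    refine hG.mono ?_
    refine closure_ball_subset_closedBall.trans ?_
    intro z hz
    rw [mem_closedBall] at hz
    exact mem_ball.2 (hz.trans_lt hR')
  have hfr : ∀ z ∈ frontier (ball (0 : ℂ) R), ‖G z‖ ≤ B := by
    intro z hz
    rw [frontier_ball (0 : ℂ) hR.ne', mem_sphere_iff_norm, sub_zero] at hz
    have hz0 : z ≠ 0 := by
      intro h; rw [h, norm_zero] at hz; linarith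
    have h0 : R * ‖d z‖ = ‖o z‖ := by
      rw [hdz z hz0, norm_smul z⁻¹ (o z), norm_inv, hz, ← mul_assoc, mul_inv_cancel₀ hR.ne',
        one_mul]
    rw [hnorm, h0]
    have h1 := hC.half (f z) (f (-z))
    have h2 : ‖f z‖ ^ s ≤ B ^ s := Real.rpow_le_rpow (norm_nonneg _) (hB z hz) hs0.le
    have h3 : ‖f (-z)‖ ^ s ≤ B ^ s :=
      Real.rpow_le_rpow (norm_nonneg _) (hB (-z) (by rw [norm_neg, hz])) hs0.le
    have h4 : ‖e z‖ ^ s + ‖o z‖ ^ s ≤ B ^ s := by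
      show ‖(1 / 2 : ℂ) • (f z + f (-z))‖ ^ s + ‖(1 / 2 : ℂ) • (f z - f (-z))‖ ^ s ≤ _
      linarith
    calc (‖e z‖ ^ s + ‖o z‖ ^ s) ^ (1 / s) ≤ (B ^ s) ^ (1 / s) :=
          Real.rpow_le_rpow (by positivity) h4 (by positivity)
      _ = B := by rw [← Real.rpow_mul hB0, mul_one_div_cancel hs0.ne', Real.rpow_one]
  have hmax := Complex.norm_le_of_forall_mem_frontier_norm_le isBounded_ball hDC hfr
    (z := 0) (subset_closure (mem_ball_self hR))
  rw [hnorm, he0, hd0] at hmax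
  have h5 : 0 ≤ ‖f 0‖ ^ s + (R * ‖deriv f 0‖) ^ s := by positivity
  calc ‖f 0‖ ^ s + (R * ‖deriv f 0‖) ^ s =
        ((‖f 0‖ ^ s + (R * ‖deriv f 0‖) ^ s) ^ (1 / s)) ^ s := by
        rw [← Real.rpow_mul h5, one_div_mul_cancel hs0.ne', Real.rpow_one]
    _ ≤ B ^ s := Real.rpow_le_rpow (by positivity) hmax hs0.le

end Pool.Agent.H98.NIL
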