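import Pool.Agent.H98.NI.Uni

/-!
Monotonicity of the numerical index of `ℓ_p^m` in `m`.
-/

set_option autoImplicit false

open scoped ENNReal NNReal
open Set Filter Topology MeasureTheory

namespace Pool.Agent.H98.NIL

open Pool.Agent.H148R3.NI

variable {ι κ : Type} [Fintype ι] [Fintype κ] {p : ℝ≥0∞} [Fact (1 ≤ p)]

lemma lp_sum {α : Type} [Fintype α] (hp0 : 0 < p.toReal) (u : lp (fun _ : α => ℂ) p) :
    ‖u‖ ^ p.toReal = ∑ i, ‖u i‖ ^ p.toReal := by
  rw [lp.norm_rpow_eq_tsum hp0, tsum_fintype]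

/-- extension by zero -/
noncomputable def Ez (f : ι ↪ κ) (w : ι → ℂ) : κ → ℂ := Function.extend f w 0

lemma Ez_f (f : ι ↪ κ) (w : ι → ℂ) (i : ι) : Ez f w (f i) = w i := f.injective.extend_apply _ _ _

lemma Ez_not (f : ι ↪ κ) (w : ι → ℂ) {j : κ} (hj : ¬ ∃ i, f i = j) : Ez f w j = 0 :=
  Function.extend_apply' _ _ _ hj

lemma Ez_sum (f : ι ↪ κ) (hp0 : 0 < p.toReal) (w : ι → ℂ) :
    ∑ j, ‖Ez f w j‖ ^ p.toReal = ∑ i, ‖w i‖ ^ p.toReal := by
  classical
  symm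
  have h1 : ∑ i, ‖w i‖ ^ p.toReal = ∑ i, ‖Ez f w (f i)‖ ^ p.toReal := by
    simp only [Ez_f]
  rw [h1, ← Finset.sum_map Finset.univ f fun j => ‖Ez f w j‖ ^ p.toReal]
  refine Finset.sum_subset (Finset.subset_univ _) fun j _ hj => ?_
  have h2 : ¬ ∃ i, f i = j := by
    rintro ⟨i, rfl⟩
    exact hj (Finset.mem_map_of_mem f (Finset.mem_univ i))
  rw [Ez_not f w h2, norm_zero, Real.zero_rpow hp0.ne']

/-- extension by zero, as an isometry -/
noncomputable def EE (f : ι ↪ κ) (hp0 : 0 < p.toReal) :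
    lp (fun _ : ι => ℂ) p →L[ℂ] lp (fun _ : κ => ℂ) p :=
  LinearMap.mkContinuous
    { toFun := fun w => ⟨Ez f w, Memℓp.all _⟩
      map_add' := by
        intro a b
        apply lp.ext
        funext j
        show Ez f (a + b) j = Ez f a j + Ez f b j
        by_cases hj : ∃ i, f i = j
        · obtain ⟨i, rfl⟩ := hj
          rw [Ez_f, Ez_f, Ez_f]
          rfl
        · rw [Ez_not f _ hj, Ez_not f _ hj, Ez_not f _ hj, add_zero]
      map_smul' := by
        intro c a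
        apply lp.ext
        funext j
        show Ez f (c • a) j = c * Ez f a j
        by_cases hj : ∃ i, f i = j
        · obtain ⟨i, rfl⟩ := hj
          rw [Ez_f, Ez_f]
          rfl
        · rw [Ez_not f _ hj, Ez_not f _ hj, mul_zero] } 1 (by
      intro w
      rw [one_mul]
      have h2 : ‖(⟨Ez f w, Memℓp.all _⟩ : lp (fun _ : κ => ℂ) p)‖ ^ p.toReal =
          ‖w‖ ^ p.toReal := by
        rw [lp_sum hp0, lp_sum hp0]
        exact Ez_sum f hp0 w
      exact (Real.rpow_le_rpow_iff (norm_nonneg _) (norm_nonneg _) hp0).1 h2.le)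

lemma EE_apply (f : ι ↪ κ) (hp0 : 0 < p.toReal) (w : lp (fun _ : ι => ℂ) p) (j : κ) :
    EE f hp0 w j = Ez f w j := rfl

lemma EE_norm (f : ι ↪ κ) (hp0 : 0 < p.toReal) (w : lp (fun _ : ι => ℂ) p) :
    ‖EE f hp0 w‖ = ‖w‖ := by
  have h2 : ‖EE f hp0 w‖ ^ p.toReal = ‖w‖ ^ p.toReal := by
    rw [lp_sum hp0, lp_sum hp0]
    exact Ez_sum f hp0 w
  exact le_antisymm ((Real.rpow_le_rpow_iff (norm_nonneg _) (norm_nonneg _) hp0).1 h2.le)
    ((Real.rpow_le_rpow_iff (norm_nonneg _) (norm_nonneg _) hp0).1 h2.ge)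

/-- restriction -/
noncomputable def QQ (f : ι ↪ κ) (hp0 : 0 < p.toReal) :
    lp (fun _ : κ => ℂ) p →L[ℂ] lp (fun _ : ι => ℂ) p :=
  LinearMap.mkContinuous
    { toFun := fun u => ⟨fun i => u (f i), Memℓp.all _⟩
      map_add' := fun _ _ => rfl
      map_smul' := fun _ _ => rfl } 1 (by
      intro u
      rw [one_mul]
      have h2 : ‖(⟨fun i => u (f i), Memℓp.all _⟩ : lp (fun _ : ι => ℂ) p)‖ ^ p.toReal ≤
          ‖u‖ ^ p.toReal := by
        rw [lp_sum hp0, lp_sum hp0]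
        show ∑ i, ‖u (f i)‖ ^ p.toReal ≤ _
        rw [← Finset.sum_map Finset.univ f fun j => ‖u j‖ ^ p.toReal]
        exact Finset.sum_le_sum_of_subset_of_nonneg (Finset.subset_univ _)
          fun j _ _ => by positivity
      exact (Real.rpow_le_rpow_iff (norm_nonneg _) (norm_nonneg _) hp0).1 h2)

lemma QQ_apply (f : ι ↪ κ) (hp0 : 0 < p.toReal) (u : lp (fun _ : κ => ℂ) p) (i : ι) :
    QQ f hp0 u i = u (f i) := rfl

lemma QQ_norm (f : ι ↪ κ) (hp0 : 0 < p.toReal) (u : lp (fun _ : κ => ℂ) p) :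
    ‖QQ f hp0 u‖ ≤ ‖u‖ := by
  have h : ‖QQ (p := p) f hp0‖ ≤ 1 := LinearMap.mkContinuous_norm_le _ zero_le_one _
  exact ((QQ f hp0).le_opNorm u).trans (mul_le_of_le_one_left (norm_nonneg _) h)

lemma QQ_EE (f : ι ↪ κ) (hp0 : 0 < p.toReal) (w : lp (fun _ : ι => ℂ) p) :
    QQ f hp0 (EE f hp0 w) = w := by
  apply lp.ext
  funext i
  rw [QQ_apply, EE_apply, Ez_f]

lemma lp_split (f : ι ↪ κ) (hp0 : 0 < p.toReal) (u : lp (fun _ : κ => ℂ) p) :
    ‖u‖ ^ p.toReal = ‖QQ f hp0 u‖ ^ p.toReal + ‖u - EE f hp0 (QQ f hp0 u)‖ ^ p.toReal := by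
  rw [← EE_norm f hp0 (QQ f hp0 u), lp_sum hp0, lp_sum hp0, lp_sum hp0,
    ← Finset.sum_add_distrib]
  refine Finset.sum_congr rfl fun j _ => ?_
  show _ = ‖Ez f (QQ f hp0 u) j‖ ^ p.toReal + ‖u j - Ez f (QQ f hp0 u) j‖ ^ p.toReal
  by_cases hj : ∃ i, f i = j
  · obtain ⟨i, rfl⟩ := hj
    rw [Ez_f, QQ_apply, sub_self, norm_zero, Real.zero_rpow hp0.ne', add_zero]
  · rw [Ez_not f _ hj, norm_zero, Real.zero_rpow hp0.ne', zero_add, sub_zero]

lemma phase (z : ℂ) : ∃ c : ℂ, ‖c‖ = 1 ∧ c * z = (‖z‖ : ℂ) := by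
  by_cases h0 : z = 0
  · exact ⟨1, by simp, by simp [h0]⟩
  · refine ⟨(‖z‖ : ℂ) / z, ?_, ?_⟩
    · rw [norm_div, Complex.norm_real, norm_norm, div_self (norm_ne_zero_iff.2 h0)]
    · field_simp

theorem mono (f : ι ↪ κ) [Nonempty ι] (hp0 : 0 < p.toReal) :
    numIndex (lp (fun _ : κ => ℂ) p) ≤ numIndex (lp (fun _ : ι => ℂ) p) := by
  classical
  have hnt : Nontrivial (lp (fun _ : ι => ℂ) p) := by
    obtain ⟨i⟩ := ‹Nonempty ι›
    refine ⟨lp.single p i (1 : ℂ), 0, fun h0 => ?_⟩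
    have := congrArg (fun f : lp (fun _ : ι => ℂ) p => f i) h0
    simp at this
  refine le_numIndex fun T hT => ?_
  have hv := numRadius_nonneg T
  set E := EE (p := p) f hp0 with hE
  set Q := QQ (p := p) f hp0 with hQ
  set S : lp (fun _ : κ => ℂ) p →L[ℂ] lp (fun _ : κ => ℂ) p := E.comp (T.comp Q) with hS
  have hSn : ‖S‖ = 1 := by
    apply le_antisymm
    · refine ContinuousLinearMap.opNorm_le_bound _ zero_le_one fun u => ?_
      rw [one_mul]
      show ‖E (T (Q u))‖ ≤ ‖u‖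
      rw [hE, EE_norm]
      refine (T.le_opNorm _).trans ?_
      rw [hT, one_mul]
      exact QQ_norm f hp0 u
    · rw [← hT]
      refine ContinuousLinearMap.opNorm_le_bound _ (norm_nonneg _) fun w => ?_
      have h1 := S.le_opNorm (E w)
      have h2 : S (E w) = E (T w) := by
        show E (T (Q (E w))) = E (T w)
        rw [hQ, hE, QQ_EE]
      rw [h2, hE, EE_norm, EE_norm] at h1
      exact h1
  refine (numIndex_le S hSn).trans ?_
  refine numRadius_le S hv fun u g hu hg hgu => ?_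
  set w := Q u with hw
  set r := u - E w with hr
  have hsplit : ‖w‖ ^ p.toReal + ‖r‖ ^ p.toReal = 1 := by
    rw [← lp_split f hp0 u, hu, Real.one_rpow]
  have hQr : Q r = 0 := by
    rw [hr, map_sub, hQ, hE, QQ_EE, ← hQ, ← hw, sub_self]
  set g' : lp (fun _ : ι => ℂ) p →L[ℂ] ℂ := g.comp E with hg'
  obtain ⟨c2, hc2, hc2r⟩ := phase (g r)
  have h1 : ‖w‖ * ‖g'‖ ≤ 1 - ‖g r‖ := by
    refine sup_lemma g' (norm_nonneg _) fun w' hw' => ?_
    obtain ⟨c1, hc1, hc1w⟩ := phase (g' w')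
    set z := E (((‖w‖ : ℂ) * c1) • w') + c2 • r with hz
    have hQz : Q z = ((‖w‖ : ℂ) * c1) • w' := by
      rw [hz, map_add, hQ, hE, QQ_EE, ← hQ, map_smul, hQr, smul_zero, add_zero]
    have hzn : ‖z‖ ^ p.toReal ≤ 1 := by
      rw [lp_split f hp0 z, ← hQ, ← hE, hQz]
      have e1 : z - E (((‖w‖ : ℂ) * c1) • w') = c2 • r := by
        rw [hz]
        abel
      rw [e1, norm_smul, norm_smul, hc2, one_mul, norm_mul, hc1, Complex.norm_real, norm_norm,
        mul_one]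
      have h2 : (‖w‖ * ‖w'‖) ^ p.toReal ≤ ‖w‖ ^ p.toReal := by
        apply Real.rpow_le_rpow (by positivity) _ hp0.le
        exact mul_le_of_le_one_right (norm_nonneg _) hw'
      linarith
    have hzn1 : ‖z‖ ≤ 1 := by
      by_contra h3
      rw [not_le] at h3
      have := Real.one_lt_rpow h3 hp0
      linarith
    have hgz : g z = ((‖w‖ * ‖g' w'‖ + ‖g r‖ : ℝ) : ℂ) := by
      have e2 : g (E (((‖w‖ : ℂ) * c1) • w')) = ((‖w‖ : ℂ) * c1) * g' w' := by
        rw [map_smul, map_smul]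
        rfl
      rw [hz, map_add, e2, mul_assoc, hc1w, map_smul, smul_eq_mul, hc2r]
      push_cast
      ring
    have h3 := g.le_opNorm z
    rw [hg, one_mul, hgz, Complex.norm_real, Real.norm_of_nonneg (by positivity)] at h3
    linarith
  have h2 : g' w + g r = 1 := by
    rw [← hgu]
    show g (E w) + g r = g u
    rw [← map_add, hr, add_sub_cancel]
  -- g' w = ‖g'‖ ‖w‖
  have hgw : ‖g' w‖ ≤ ‖g'‖ * ‖w‖ := g'.le_opNorm w
  have h3 : ‖g'‖ * ‖w‖ ≤ (g' w).re := by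
    have h4 := congrArg Complex.re h2
    rw [Complex.add_re, Complex.one_re] at h4
    have h5 := Complex.re_le_norm (g r)
    linarith
  have h4 : g' w = ((‖g'‖ * ‖w‖ : ℝ) : ℂ) := by
    have h5 := Complex.re_le_norm (g' w)
    have h6 : (g' w).re = ‖g' w‖ := by linarith
    have h7 : ‖g' w‖ = ‖g'‖ * ‖w‖ := by linarith
    have h8 := Complex.sq_norm_sub_sq_re (g' w)
    rw [h6, sub_self] at h8
    have h9 : (g' w).im = 0 := by
      have : (g' w).im ^ 2 = 0 := h8.symm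
      exact pow_eq_zero_iff (two_ne_zero) |>.1 this
    apply Complex.ext
    · rw [h6, h7, Complex.ofReal_re]
    · rw [h9, Complex.ofReal_im]
  show ‖g (E (T (Q u)))‖ ≤ numRadius T
  have e0 : g (E (T (Q u))) = g' (T w) := rfl
  rw [e0]
  by_cases hw0 : w = 0
  · rw [hw0, map_zero, map_zero, norm_zero]
    exact hv
  by_cases hg0 : g' = 0
  · rw [hg0]
    simp [hv]
  have hwp : 0 < ‖w‖ := norm_pos_iff.2 hw0
  have hgp : 0 < ‖g'‖ := norm_pos_iff.2 hg0
  have hwc : (‖w‖ : ℂ) ≠ 0 := by exact_mod_cast hwp.ne'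
  have hgc : (‖g'‖ : ℂ) ≠ 0 := by exact_mod_cast hgp.ne'
  have h5 := le_numRadius T (x := (‖w‖⁻¹ : ℂ) • w) (f := (‖g'‖⁻¹ : ℂ) • g')
    (by rw [norm_smul, norm_inv, Complex.norm_real, norm_norm, inv_mul_cancel₀ hwp.ne'])
    (by rw [norm_smul, norm_inv, Complex.norm_real, norm_norm, inv_mul_cancel₀ hgp.ne'])
    (by
      rw [smul_apply, map_smul, smul_eq_mul, smul_eq_mul, h4]
      push_cast
      field_simp)
  have e5 : ((‖g'‖⁻¹ : ℂ) • g') (T ((‖w‖⁻¹ : ℂ) • w)) =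
      ((‖g'‖ * ‖w‖ : ℝ) : ℂ)⁻¹ * g' (T w) := by
    rw [smul_apply, map_smul, map_smul, smul_eq_mul, smul_eq_mul]
    push_cast
    field_simp
  rw [e5, norm_mul, norm_inv, Complex.norm_real, Real.norm_of_nonneg (by positivity),
    inv_mul_le_iff₀ (by positivity)] at h5
  refine h5.trans ?_
  have h6 : ‖g'‖ * ‖w‖ ≤ 1 := by
    have := norm_nonneg (g r)
    linarith
  exact mul_le_of_le_one_left hv h6

end Pool.Agent.H98.NIL
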