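import Pool.Agent.H98.NI.Upper

/-!
Reduction of the numerical index of `L_p(μ)` to the finite dimensional spaces `ℓ_p`.
-/

set_option autoImplicit false

open scoped ENNReal NNReal
open Set Filter Topology MeasureTheory

namespace Pool.Agent.H98.NIL

open Pool.Agent.H148R3.NM (J J_mul J_unit J_pos norm_J J_self J_zero J_one)
open Pool.Agent.H148R3.NI

/-! ### Abstract part -/

section abs

variable {X Y : Type*} [NormedAddCommGroup X] [NormedSpace ℂ X] [NormedAddCommGroup Y]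
  [NormedSpace ℂ Y]

lemma rad_compress (T : X →L[ℂ] X) (j : Y →L[ℂ] X) (P : X →L[ℂ] Y) (hj : ∀ y, ‖j y‖ = ‖y‖)
    (hP : ∀ x, ‖P x‖ ≤ ‖x‖) (hPj : ∀ y, P (j y) = y) :
    numRadius (P.comp (T.comp j)) ≤ numRadius T := by
  refine numRadius_le _ (numRadius_nonneg T) fun y g hy hg hgy => ?_
  have hP1 : ‖P‖ ≤ 1 := ContinuousLinearMap.opNorm_le_bound _ zero_le_one fun x => by
    rw [one_mul]; exact hP x
  have h1 : (g.comp P) (j y) = 1 := by
    show g (P (j y)) = 1
    rw [hPj, hgy]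
  have h2 : ‖g.comp P‖ = 1 := by
    apply le_antisymm
    · refine (ContinuousLinearMap.opNorm_comp_le g P).trans ?_
      rw [hg, one_mul]
      exact hP1
    · have := (g.comp P).le_opNorm (j y)
      rwa [h1, hj, hy, mul_one, norm_one] at this
  have h3 : ‖j y‖ = 1 := by rw [hj, hy]
  exact le_numRadius T h3 h2 h1

lemma scale (S : Y →L[ℂ] Y) (hS : 0 < ‖S‖) : numIndex Y * ‖S‖ ≤ numRadius S := by
  have hc : (‖S‖ : ℂ) ≠ 0 := by exact_mod_cast hS.ne'
  have h1 : ‖(‖S‖⁻¹ : ℂ) • S‖ = 1 := by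
    rw [norm_smul, norm_inv, Complex.norm_real, norm_norm, inv_mul_cancel₀ hS.ne']
  have h2 := numIndex_le _ h1
  have h3 : numRadius ((‖S‖⁻¹ : ℂ) • S) ≤ ‖S‖⁻¹ * numRadius S := by
    refine numRadius_le _ (mul_nonneg (inv_nonneg.2 hS.le) (numRadius_nonneg S))
      fun x f hx hf hfx => ?_
    have e : f (((‖S‖⁻¹ : ℂ) • S) x) = (‖S‖⁻¹ : ℂ) * f (S x) := by
      rw [smul_apply, map_smul, smul_eq_mul]
    rw [e, norm_mul, norm_inv, Complex.norm_real, norm_norm]
    exact mul_le_mul_of_nonneg_left (le_numRadius S hx hf hfx) (inv_nonneg.2 hS.le)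
  have h4 := h2.trans h3
  rwa [← div_eq_inv_mul, le_div_iff₀ hS] at h4

end abs

/-! ### Disjoint sets -/

variable {Ω : Type*} [MeasurableSpace Ω] {μ : Measure Ω} {p : ℝ≥0∞} [Fact (1 ≤ p)]

lemma disj_add {A : Set Ω} (hA : MeasurableSet A) (hp : p ≠ ∞) (h1 : 1 < p.toReal)
    (f g : Lp ℂ p μ) (hf : ∀ᵐ ω ∂μ, ω ∉ A → f ω = 0) (hg : ∀ᵐ ω ∂μ, ω ∈ A → g ω = 0) :
    ‖f + g‖ ^ p.toReal = ‖f‖ ^ p.toReal + ‖g‖ ^ p.toReal := by
  have e1 : Rs hA (f + g) = f := by
    apply Lp.ext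
    filter_upwards [Rs_coe hA (f + g), Lp.coeFn_add f g, hf, hg] with ω a1 a2 a3 a4
    rw [a1]
    by_cases h : ω ∈ A
    · rw [indicator_of_mem h, a2, Pi.add_apply, a4 h, add_zero]
    · rw [indicator_of_notMem h, a3 h]
  have e2 : Rs hA.compl (f + g) = g := by
    apply Lp.ext
    filter_upwards [Rs_coe hA.compl (f + g), Lp.coeFn_add f g, hf, hg] with ω a1 a2 a3 a4
    rw [a1]
    by_cases h : ω ∈ A
    · rw [indicator_of_notMem (Set.notMem_compl_iff.2 h), a4 h]
    · rw [indicator_of_mem (show ω ∈ Aᶜ from h), a2, Pi.add_apply, a3 h, zero_add]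
  rw [Rs_split hA hp h1, e1, e2]

/-- a finite family of disjoint unit vectors -/
structure Fam (μ : Measure Ω) (p : ℝ≥0∞) [Fact (1 ≤ p)] (ι : Type) where
  A : ι → Set Ω
  hA : ∀ i, MeasurableSet (A i)
  dis : ∀ i j, i ≠ j → Disjoint (A i) (A j)
  e : ι → Lp ℂ p μ
  norm_e : ∀ i, ‖e i‖ = 1
  supp : ∀ i, ∀ᵐ ω ∂μ, ω ∉ A i → e i ω = 0

variable {ι : Type} [Fintype ι]

lemma sum_supp (D : Fam μ p ι) (a : ι → ℂ) (s : Finset ι) :
    ∀ᵐ ω ∂μ, (∀ i ∈ s, ω ∉ D.A i) → (∑ i ∈ s, a i • D.e i : Lp ℂ p μ) ω = 0 := by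
  classical
  induction s using Finset.induction_on with
  | empty =>
    filter_upwards [Lp.coeFn_zero ℂ p μ] with ω h _
    rw [Finset.sum_empty, h]
    rfl
  | insert j s hj ih =>
    rw [Finset.sum_insert hj]
    filter_upwards [ih, D.supp j, Lp.coeFn_add (a j • D.e j) (∑ i ∈ s, a i • D.e i),
      Lp.coeFn_smul (a j) (D.e j)] with ω a1 a2 a3 a4 h
    rw [a3, Pi.add_apply, a4, Pi.smul_apply, a2 (h j (Finset.mem_insert_self _ _)), smul_zero,
      zero_add]
    exact a1 fun i hi => h i (Finset.mem_insert_of_mem hi)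

lemma norm_sum (D : Fam μ p ι) (hp : p ≠ ∞) (h1 : 1 < p.toReal) (a : ι → ℂ) (s : Finset ι) :
    ‖∑ i ∈ s, a i • D.e i‖ ^ p.toReal = ∑ i ∈ s, ‖a i‖ ^ p.toReal := by
  classical
  induction s using Finset.induction_on with
  | empty => simp [Real.zero_rpow (show p.toReal ≠ 0 by linarith)]
  | insert j s hj ih =>
    rw [Finset.sum_insert hj, Finset.sum_insert hj, disj_add (D.hA j) hp h1, ih, norm_smul,
      D.norm_e, mul_one]
    · filter_upwards [D.supp j, Lp.coeFn_smul (a j) (D.e j)] with ω a2 a4 h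
      rw [a4, Pi.smul_apply, a2 h, smul_zero]
    · filter_upwards [sum_supp D a s] with ω h hω
      refine h fun i hi hi' => ?_
      have hne : i ≠ j := fun h => hj (h ▸ hi)
      exact (Set.disjoint_left.1 (D.dis i j hne)) hi' hω

/-- the embedding -/
noncomputable def emb (D : Fam μ p ι) (hp : p ≠ ∞) (h1 : 1 < p.toReal) :
    lp (fun _ : ι => ℂ) p →L[ℂ] Lp ℂ p μ :=
  LinearMap.mkContinuous
    { toFun := fun a => ∑ i, a i • D.e i
      map_add' := by
        intro a b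
        rw [← Finset.sum_add_distrib]
        exact Finset.sum_congr rfl fun i _ => by
          rw [← add_smul]
          rfl
      map_smul' := by
        intro c a
        rw [RingHom.id_apply, Finset.smul_sum]
        exact Finset.sum_congr rfl fun i _ => by
          rw [smul_smul]
          rfl } 1 (by
      intro a
      rw [one_mul]
      have hp0 : 0 < p.toReal := by linarith
      have h2 := norm_sum D hp h1 (fun i => a i) Finset.univ
      have h3 := lp.norm_rpow_eq_tsum hp0 a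
      rw [tsum_fintype] at h3
      rw [← h3] at h2
      exact (Real.rpow_le_rpow_iff (norm_nonneg _) (norm_nonneg _) hp0).1 h2.le)

lemma emb_apply (D : Fam μ p ι) (hp : p ≠ ∞) (h1 : 1 < p.toReal) (a : lp (fun _ : ι => ℂ) p) :
    emb D hp h1 a = ∑ i, a i • D.e i := rfl

lemma emb_norm (D : Fam μ p ι) (hp : p ≠ ∞) (h1 : 1 < p.toReal) (a : lp (fun _ : ι => ℂ) p) :
    ‖emb D hp h1 a‖ = ‖a‖ := by
  have hp0 : 0 < p.toReal := by linarith
  have h2 := norm_sum D hp h1 (fun i => a i) Finset.univ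
  have h3 := lp.norm_rpow_eq_tsum hp0 a
  rw [tsum_fintype] at h3
  rw [← h3, ← emb_apply D hp h1 a] at h2
  exact le_antisymm ((Real.rpow_le_rpow_iff (norm_nonneg _) (norm_nonneg _) hp0).1 h2.le)
    ((Real.rpow_le_rpow_iff (norm_nonneg _) (norm_nonneg _) hp0).1 h2.ge)

lemma NL_supp (D : Fam μ p ι) (hp : p ≠ ∞) (h1 : 1 < p.toReal) (i : ι) (f : Lp ℂ p μ) :
    ‖NL hp h1 (D.e i) f‖ ≤ ‖Rs (D.hA i) f‖ := by
  have e1 : NL hp h1 (D.e i) f = NL hp h1 (D.e i) (Rs (D.hA i) f) := by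
    rw [NL_apply, NL_apply]
    refine integral_congr_ae ?_
    filter_upwards [D.supp i, Rs_coe (D.hA i) f] with ω hω1 hω2
    by_cases h : ω ∈ D.A i
    · rw [hω2, indicator_of_mem h]
    · rw [hω1 h, J_zero, zero_mul, zero_mul]
  rw [e1]
  refine ((NL hp h1 (D.e i)).le_opNorm _).trans ?_
  have := NL_norm hp h1 (D.e i)
  rw [D.norm_e, Real.one_rpow] at this
  exact mul_le_of_le_one_left (norm_nonneg _) this

lemma sum_Rs (D : Fam μ p ι) (hp : p ≠ ∞) (h1 : 1 < p.toReal) (f : Lp ℂ p μ) :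
    ∑ i, ‖Rs (D.hA i) f‖ ^ p.toReal ≤ ‖f‖ ^ p.toReal := by
  have hp0 : 0 < p.toReal := by linarith
  simp only [Rs_norm _ hp h1]
  rw [Lp_norm hp hp0, ← integral_biUnion_finset Finset.univ (fun i _ => D.hA i)
    (fun i _ j _ hij => D.dis i j hij) (fun i _ => (Lp_int hp hp0 f).integrableOn)]
  exact setIntegral_le_integral (Lp_int hp hp0 f) (Eventually.of_forall fun x => by positivity)

/-- the projection -/
noncomputable def prj (D : Fam μ p ι) (hp : p ≠ ∞) (h1 : 1 < p.toReal) :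
    Lp ℂ p μ →L[ℂ] lp (fun _ : ι => ℂ) p :=
  LinearMap.mkContinuous
    { toFun := fun f => ⟨fun i => NL hp h1 (D.e i) f, Memℓp.all _⟩
      map_add' := by
        intro f g
        apply lp.ext
        funext i
        exact map_add (NL hp h1 (D.e i)) f g
      map_smul' := by
        intro c f
        apply lp.ext
        funext i
        exact map_smul (NL hp h1 (D.e i)) c f } 1 (by
      intro f
      rw [one_mul]
      have hp0 : 0 < p.toReal := by linarith
      refine lp.norm_le_of_forall_sum_le hp0 (norm_nonneg _) fun s => ?_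
      calc ∑ i ∈ s, ‖NL hp h1 (D.e i) f‖ ^ p.toReal ≤ ∑ i, ‖NL hp h1 (D.e i) f‖ ^ p.toReal :=
            Finset.sum_le_univ_sum_of_nonneg fun i => by positivity
        _ ≤ ∑ i, ‖Rs (D.hA i) f‖ ^ p.toReal :=
            Finset.sum_le_sum fun i _ =>
              Real.rpow_le_rpow (norm_nonneg _) (NL_supp D hp h1 i f) hp0.le
        _ ≤ _ := sum_Rs D hp h1 f)

lemma prj_apply (D : Fam μ p ι) (hp : p ≠ ∞) (h1 : 1 < p.toReal) (f : Lp ℂ p μ) (i : ι) :
    prj D hp h1 f i = NL hp h1 (D.e i) f := rfl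

lemma prj_norm (D : Fam μ p ι) (hp : p ≠ ∞) (h1 : 1 < p.toReal) (f : Lp ℂ p μ) :
    ‖prj D hp h1 f‖ ≤ ‖f‖ := by
  have h : ‖prj D hp h1‖ ≤ 1 := LinearMap.mkContinuous_norm_le _ zero_le_one _
  exact ((prj D hp h1).le_opNorm f).trans (mul_le_of_le_one_left (norm_nonneg _) h)

lemma NL_orth (D : Fam μ p ι) (hp : p ≠ ∞) (h1 : 1 < p.toReal) {i j : ι} (hij : i ≠ j) :
    NL hp h1 (D.e i) (D.e j) = 0 := by
  rw [NL_apply]
  rw [integral_eq_zero_of_ae]
  filter_upwards [D.supp i, D.supp j] with ω a1 a2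
  by_cases h : ω ∈ D.A i
  · have : ω ∉ D.A j := Set.disjoint_left.1 (D.dis i j hij) h
    rw [a2 this, mul_zero]
    rfl
  · rw [a1 h, J_zero, zero_mul]
    rfl

lemma prj_emb (D : Fam μ p ι) (hp : p ≠ ∞) (h1 : 1 < p.toReal) (a : lp (fun _ : ι => ℂ) p) :
    prj D hp h1 (emb D hp h1 a) = a := by
  classical
  apply lp.ext
  funext i
  rw [prj_apply, emb_apply, map_sum, Finset.sum_eq_single i]
  · rw [map_smul, NL_self, D.norm_e, Real.one_rpow, smul_eq_mul]
    simp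
  · intro j _ hj
    rw [map_smul, NL_orth D hp h1 (Ne.symm hj), smul_zero]
  · intro h
    exact absurd (Finset.mem_univ i) h

end Pool.Agent.H98.NIL
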