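import Pool.Agent.H98.NI.Mono

/-!
The numerical index of a space is at most the one of an `ℓ_p`-summand.
-/

set_option autoImplicit false

open scoped ENNReal NNReal
open Set Filter Topology MeasureTheory

namespace Pool.Agent.H98.NIL

open Pool.Agent.H148R3.NI

theorem summand {X Y : Type*} [NormedAddCommGroup X] [NormedSpace ℂ X] [NormedAddCommGroup Y]
    [NormedSpace ℂ Y] [Nontrivial Y] (E : Y →L[ℂ] X) (Q : X →L[ℂ] Y) {q : ℝ} (hp0 : 0 < q)
    (EE_norm : ∀ y, ‖E y‖ = ‖y‖) (QQ_norm : ∀ x, ‖Q x‖ ≤ ‖x‖) (QQ_EE : ∀ y, Q (E y) = y)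
    (lp_split : ∀ x, ‖x‖ ^ q = ‖Q x‖ ^ q + ‖x - E (Q x)‖ ^ q) :
    numIndex X ≤ numIndex Y := by
  refine le_numIndex fun T hT => ?_
  have hv := numRadius_nonneg T
  set S : X →L[ℂ] X := E.comp (T.comp Q) with hS
  have hSn : ‖S‖ = 1 := by
    apply le_antisymm
    · refine ContinuousLinearMap.opNorm_le_bound _ zero_le_one fun u => ?_
      rw [one_mul]
      show ‖E (T (Q u))‖ ≤ ‖u‖
      rw [EE_norm]
      refine (T.le_opNorm _).trans ?_
      rw [hT, one_mul]
      exact QQ_norm u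
    · rw [← hT]
      refine ContinuousLinearMap.opNorm_le_bound _ (norm_nonneg _) fun w => ?_
      have h1 := S.le_opNorm (E w)
      have h2 : S (E w) = E (T w) := by
        show E (T (Q (E w))) = E (T w)
        rw [QQ_EE]
      rw [h2, EE_norm, EE_norm] at h1
      exact h1
  refine (numIndex_le S hSn).trans ?_
  refine numRadius_le S hv fun u g hu hg hgu => ?_
  set w := Q u with hw
  set r := u - E w with hr
  have hsplit : ‖w‖ ^ q + ‖r‖ ^ q = 1 := by
    rw [← lp_split u, hu, Real.one_rpow]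
  have hQr : Q r = 0 := by
    rw [hr, map_sub, QQ_EE, ← hw, sub_self]
  set g' : Y →L[ℂ] ℂ := g.comp E with hg'
  obtain ⟨c2, hc2, hc2r⟩ := phase (g r)
  have h1 : ‖w‖ * ‖g'‖ ≤ 1 - ‖g r‖ := by
    refine sup_lemma g' (norm_nonneg _) fun w' hw' => ?_
    obtain ⟨c1, hc1, hc1w⟩ := phase (g' w')
    set z := E (((‖w‖ : ℂ) * c1) • w') + c2 • r with hz
    have hQz : Q z = ((‖w‖ : ℂ) * c1) • w' := by
      rw [hz, map_add, QQ_EE, map_smul, hQr, smul_zero, add_zero]
    have hzn : ‖z‖ ^ q ≤ 1 := by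
      rw [lp_split z, hQz]
      have e1 : z - E (((‖w‖ : ℂ) * c1) • w') = c2 • r := by
        rw [hz]
        abel
      rw [e1, norm_smul, norm_smul, hc2, one_mul, norm_mul, hc1, Complex.norm_real, norm_norm,
        mul_one]
      have h2 : (‖w‖ * ‖w'‖) ^ q ≤ ‖w‖ ^ q := by
        apply Real.rpow_le_rpow (by positivity) _ hp0.le
        exact mul_le_of_le_one_right (norm_nonneg _) hw'
      linarith
    have hzn1 : ‖z‖ ≤ 1 := by
      by_contra h3
      rw [not_le] at h3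
      have := Real.one_lt_rpow h3 hp0
      linarith
    have hgz : g z = ((‖w‖ * ‖g' w'‖ + ‖g r‖ : ℝ) : ℂ) := by
      have e2 : g (E (((‖w‖ : ℂ) * c1) • w')) = ((‖w‖ : ℂ) * c1) * g' w' := by
        rw [map_smul, map_smul]
        rfl
      rw [hz, map_add, e2, mul_assoc, hc1w, map_smul, smul_eq_mul, hc2r]
      push_cast
      ring
    have h3 := g.le_opNorm z
    rw [hg, one_mul, hgz, Complex.norm_real, Real.norm_of_nonneg (by positivity)] at h3
    linarith
  have h2 : g' w + g r = 1 := by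
    rw [← hgu]
    show g (E w) + g r = g u
    rw [← map_add, hr, add_sub_cancel]
  -- g' w = ‖g'‖ ‖w‖
  have hgw : ‖g' w‖ ≤ ‖g'‖ * ‖w‖ := g'.le_opNorm w
  have h3 : ‖g'‖ * ‖w‖ ≤ (g' w).re := by
    have h4 := congrArg Complex.re h2
    rw [Complex.add_re, Complex.one_re] at h4
    have h5 := Complex.re_le_norm (g r)
    linarith
  have h4 : g' w = ((‖g'‖ * ‖w‖ : ℝ) : ℂ) := by
    have h5 := Complex.re_le_norm (g' w)
    have h6 : (g' w).re = ‖g' w‖ := by linarith
    have h7 : ‖g' w‖ = ‖g'‖ * ‖w‖ := by linarith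
    have h8 := Complex.sq_norm_sub_sq_re (g' w)
    rw [h6, sub_self] at h8
    have h9 : (g' w).im = 0 := by
      have : (g' w).im ^ 2 = 0 := h8.symm
      exact pow_eq_zero_iff (two_ne_zero) |>.1 this
    apply Complex.ext
    · rw [h6, h7, Complex.ofReal_re]
    · rw [h9, Complex.ofReal_im]
  show ‖g (E (T (Q u)))‖ ≤ numRadius T
  have e0 : g (E (T (Q u))) = g' (T w) := rfl
  rw [e0]
  by_cases hw0 : w = 0
  · rw [hw0, map_zero, map_zero, norm_zero]
    exact hv
  by_cases hg0 : g' = 0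
  · rw [hg0]
    simp [hv]
  have hwp : 0 < ‖w‖ := norm_pos_iff.2 hw0
  have hgp : 0 < ‖g'‖ := norm_pos_iff.2 hg0
  have hwc : (‖w‖ : ℂ) ≠ 0 := by exact_mod_cast hwp.ne'
  have hgc : (‖g'‖ : ℂ) ≠ 0 := by exact_mod_cast hgp.ne'
  have h5 := le_numRadius T (x := (‖w‖⁻¹ : ℂ) • w) (f := (‖g'‖⁻¹ : ℂ) • g')
    (by rw [norm_smul, norm_inv, Complex.norm_real, norm_norm, inv_mul_cancel₀ hwp.ne'])
    (by rw [norm_smul, norm_inv, Complex.norm_real, norm_norm, inv_mul_cancel₀ hgp.ne'])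
    (by
      rw [smul_apply, map_smul, smul_eq_mul, smul_eq_mul, h4]
      push_cast
      field_simp)
  have e5 : ((‖g'‖⁻¹ : ℂ) • g') (T ((‖w‖⁻¹ : ℂ) • w)) =
      ((‖g'‖ * ‖w‖ : ℝ) : ℂ)⁻¹ * g' (T w) := by
    rw [smul_apply, map_smul, map_smul, smul_eq_mul, smul_eq_mul]
    push_cast
    field_simp
  rw [e5, norm_mul, norm_inv, Complex.norm_real, Real.norm_of_nonneg (by positivity),
    inv_mul_le_iff₀ (by positivity)] at h5
  refine h5.trans ?_
  have h6 : ‖g'‖ * ‖w‖ ≤ 1 := by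
    have := norm_nonneg (g r)
    linarith
  exact mul_le_of_le_one_left hv h6

end Pool.Agent.H98.NIL
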