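import Pool.Agent.H98.NI.Dual

/-!
Numerical index of complex `L_p` for `p` near `2`.
-/

set_option autoImplicit false

open scoped ENNReal NNReal
open Set Filter Topology MeasureTheory

namespace Pool.Agent.H98.NIL

open Pool.Agent.H148R3.NI

variable {Ω : Type*} [MeasurableSpace Ω] {μ : Measure Ω} {p : ℝ≥0∞} [Fact (1 ≤ p)]

lemma clark (hp : p ≠ ∞) (h1 : 1 < p.toReal) (x y : Lp ℂ p μ) :
    ‖x + y‖ ^ p.toReal + ‖x - y‖ ^ p.toReal ≤
      2 ^ max (p.toReal - 1) 1 * (‖x‖ ^ p.toReal + ‖y‖ ^ p.toReal) := by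
  have h0 : 0 ≤ ‖x‖ ^ p.toReal + ‖y‖ ^ p.toReal := by positivity
  rcases le_total 2 p.toReal with h | h
  · refine (Lp_ge hp h x y).trans (mul_le_mul_of_nonneg_right ?_ h0)
    exact Real.rpow_le_rpow_of_exponent_le (by norm_num) (le_max_left _ _)
  · refine (Lp_le hp (by linarith) h x y).trans (mul_le_mul_of_nonneg_right ?_ h0)
    calc (2 : ℝ) = 2 ^ (1 : ℝ) := (Real.rpow_one 2).symm
      _ ≤ _ := Real.rpow_le_rpow_of_exponent_le (by norm_num) (le_max_right _ _)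

lemma one_point (hp : p ≠ ∞) (h1 : 1 < p.toReal) (h2 : |p.toReal - 2| ≤ 1 / 2)
    (T : Lp ℂ p μ →L[ℂ] Lp ℂ p μ) (hT : ‖T‖ = 1) (x y : Lp ℂ p μ) (hx : ‖x‖ = 1) (hy : ‖y‖ = 1)
    (w : ℂ) (hw : ‖w‖ = 1) :
    ‖(NL hp h1 x (T x) + w * NL hp h1 x (T y)) + (starRingEnd ℂ) w * (NL hp h1 y (T x) +
      w * NL hp h1 y (T y))‖ ≤ numRadius T * ‖x + w • y‖ ^ p.toReal + 16 * |p.toReal - 2| := by
  have hz : ‖T (x + w • y)‖ ≤ 2 := by
    have h3 := T.le_opNorm (x + w • y)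
    have h4 := norm_add_le x (w • y)
    rw [norm_smul, hw, hx, hy] at h4
    rw [hT] at h3
    linarith
  have h3 := NL_expand hp h1 h2 hw x y (T (x + w • y))
  rw [hx, hy, Real.one_rpow] at h3
  have h4 := NL_rad hp h1 T (x + w • y)
  have e1 : ∀ z : Lp ℂ p μ, NL hp h1 z (T (x + w • y)) =
      NL hp h1 z (T x) + w * NL hp h1 z (T y) := by
    intro z
    rw [map_add, map_smul, map_add, map_smul, smul_eq_mul]
  rw [e1 x, e1 y] at h3
  have h5 : 4 * |p.toReal - 2| * ((1 + 1) * ‖T (x + w • y)‖) ≤ 16 * |p.toReal - 2| := by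
    have := abs_nonneg (p.toReal - 2)
    nlinarith
  set A := NL hp h1 (x + w • y) (T (x + w • y)) with hA
  set g := (NL hp h1 x (T x) + w * NL hp h1 x (T y)) + (starRingEnd ℂ) w * (NL hp h1 y (T x) +
      w * NL hp h1 y (T y)) with hg
  have e2 : A - (NL hp h1 x (T x) + w * NL hp h1 x (T y)) -
      (starRingEnd ℂ) w * (NL hp h1 y (T x) + w * NL hp h1 y (T y)) = A - g := by
    rw [hg]
    ring
  rw [e2] at h3
  have h6 : ‖g‖ ≤ ‖A‖ + ‖A - g‖ := by
    have := norm_sub_le A (A - g)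
    rwa [sub_sub_cancel] at this
  linarith

lemma four_norm (g1 g2 g3 g4 : ℂ) :
    ‖g1 + Complex.I * g2 + (-1) * g3 + (-Complex.I) * g4‖ ≤ ‖g1‖ + ‖g2‖ + ‖g3‖ + ‖g4‖ := by
  have n2 : ‖Complex.I * g2‖ = ‖g2‖ := by rw [norm_mul, Complex.norm_I, one_mul]
  have n3 : ‖(-1) * g3‖ = ‖g3‖ := by rw [norm_mul, norm_neg, norm_one, one_mul]
  have n4 : ‖(-Complex.I) * g4‖ = ‖g4‖ := by rw [norm_mul, norm_neg, Complex.norm_I, one_mul]
  have h1 := norm_add_le (g1 + Complex.I * g2 + (-1) * g3) ((-Complex.I) * g4)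
  have h2 := norm_add_le (g1 + Complex.I * g2) ((-1) * g3)
  have h3 := norm_add_le g1 (Complex.I * g2)
  linarith

lemma four_points {a b c d : ℂ} {B1 B2 B3 B4 : ℝ}
    (k1 : ‖(a + 1 * b) + (starRingEnd ℂ) 1 * (c + 1 * d)‖ ≤ B1)
    (k2 : ‖(a + Complex.I * b) + (starRingEnd ℂ) Complex.I * (c + Complex.I * d)‖ ≤ B2)
    (k3 : ‖(a + (-1) * b) + (starRingEnd ℂ) (-1) * (c + (-1) * d)‖ ≤ B3)
    (k4 : ‖(a + (-Complex.I) * b) + (starRingEnd ℂ) (-Complex.I) * (c + (-Complex.I) * d)‖ ≤ B4) :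
    4 * ‖c‖ ≤ B1 + B2 + B3 + B4 := by
  have hI : Complex.I * Complex.I = -1 := Complex.I_mul_I
  have e : (4 : ℂ) * c = ((a + 1 * b) + (starRingEnd ℂ) 1 * (c + 1 * d)) +
      Complex.I * ((a + Complex.I * b) + (starRingEnd ℂ) Complex.I * (c + Complex.I * d)) +
      (-1) * ((a + (-1) * b) + (starRingEnd ℂ) (-1) * (c + (-1) * d)) +
      (-Complex.I) * ((a + (-Complex.I) * b) +
        (starRingEnd ℂ) (-Complex.I) * (c + (-Complex.I) * d)) := by
    rw [map_one, map_neg, map_neg, map_one, Complex.conj_I]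
    linear_combination (2 * c - 2 * b) * hI
  have h := congrArg norm e
  rw [norm_mul] at h
  have h4 : ‖(4 : ℂ)‖ = 4 := by simp
  rw [h4] at h
  rw [h]
  exact (four_norm _ _ _ _).trans (by linarith)

theorem near_two [Nontrivial (Lp ℂ p μ)] (hp : p ≠ ∞) (h1 : 1 < p.toReal)
    (h2 : |p.toReal - 2| ≤ 1 / 2) :
    (1 - 16 * |p.toReal - 2|) / 2 ^ max (p.toReal - 1) 1 ≤ numIndex (Lp ℂ p μ) := by
  refine le_numIndex fun T hT => ?_
  set C : ℝ := 2 ^ max (p.toReal - 1) 1 with hC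
  have hC0 : 0 < C := by positivity
  have hv := numRadius_nonneg T
  have hkey : ∀ x : Lp ℂ p μ, ‖x‖ = 1 → ‖T x‖ ≤ C * numRadius T + 16 * |p.toReal - 2| := by
    intro x hx
    by_cases h0 : T x = 0
    · rw [h0, norm_zero]
      positivity
    have hpos : 0 < ‖T x‖ := norm_pos_iff.2 h0
    have hc : (‖T x‖ : ℂ) ≠ 0 := by exact_mod_cast hpos.ne'
    set y : Lp ℂ p μ := (‖T x‖⁻¹ : ℂ) • T x with hy
    have hyn : ‖y‖ = 1 := by
      rw [hy, norm_smul, norm_inv, Complex.norm_real, norm_norm, inv_mul_cancel₀ hpos.ne']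
    have hTx : T x = (‖T x‖ : ℂ) • y := by
      rw [hy, smul_smul, mul_inv_cancel₀ hc, one_smul]
    have hcn : ‖NL hp h1 y (T x)‖ = ‖T x‖ := by
      have e : NL hp h1 y (T x) = (‖T x‖ : ℂ) * NL hp h1 y y := by
        conv_lhs => rw [hTx]
        rw [map_smul, smul_eq_mul]
      rw [e, NL_self, hyn, Real.one_rpow, norm_mul, Complex.norm_real, norm_norm]
      simp
    have k := one_point hp h1 h2 T hT x y hx hyn
    have k1 := k 1 norm_one
    have k2 := k Complex.I Complex.norm_I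
    have k3 := k (-1) (by rw [norm_neg, norm_one])
    have k4 := k (-Complex.I) (by rw [norm_neg, Complex.norm_I])
    have h4 := four_points k1 k2 k3 k4
    rw [hcn] at h4
    have c1 := clark hp h1 x y
    have c2 := clark hp h1 x (Complex.I • y)
    rw [norm_smul, Complex.norm_I, one_mul] at c2
    rw [hx, hyn, Real.one_rpow, ← hC] at c1 c2
    have e1 : x + (1 : ℂ) • y = x + y := by rw [one_smul]
    have e3 : x + (-1 : ℂ) • y = x - y := by rw [neg_smul, one_smul, sub_eq_add_neg]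
    have e4 : x + (-Complex.I) • y = x - Complex.I • y := by rw [neg_smul, sub_eq_add_neg]
    rw [e1, e3, e4] at h4
    have m1 := mul_le_mul_of_nonneg_left c1 hv
    have m2 := mul_le_mul_of_nonneg_left c2 hv
    linarith
  have hT1 : ‖T‖ ≤ C * numRadius T + 16 * |p.toReal - 2| := by
    refine ContinuousLinearMap.opNorm_le_bound _ (by positivity) fun x => ?_
    by_cases hx : x = 0
    · simp [hx]
    have hx0 : 0 < ‖x‖ := norm_pos_iff.2 hx
    have h5 := hkey ((‖x‖⁻¹ : ℂ) • x) (by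
      rw [norm_smul, norm_inv, Complex.norm_real, norm_norm, inv_mul_cancel₀ hx0.ne'])
    rw [map_smul, norm_smul, norm_inv, Complex.norm_real, norm_norm, inv_mul_le_iff₀ hx0] at h5
    linarith
  rw [hT] at hT1
  rw [div_le_iff₀ hC0]
  linarith

end Pool.Agent.H98.NIL
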