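import Pool.Agent.H98.NI.Red2

/-!
Finite dimensional approximation of the numerical index of `L_p(μ)` with a rate independent of `p`.
-/

set_option autoImplicit false

open scoped ENNReal NNReal
open Set Filter Topology MeasureTheory

namespace Pool.Agent.H98.NIL

open Pool.Agent.H148R3.NI

/-- rounding -/
noncomputable def rnd (K : ℕ) (t : ℝ) : Fin (2 * K + 1) :=
  ⟨min ⌊(t + 1) * K⌋₊ (2 * K), by omega⟩

/-- the grid point -/
noncomputable def gp (K : ℕ) (i : Fin (2 * K + 1)) : ℝ := (i : ℕ) / (K : ℝ) - 1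

lemma rnd_err {K : ℕ} (hK : 1 ≤ K) {t : ℝ} (h0 : -1 ≤ t) (h1 : t ≤ 1) :
    |gp K (rnd K t) - t| ≤ 1 / K := by
  have hK0 : (0 : ℝ) < K := by exact_mod_cast hK
  have hn : 0 ≤ (t + 1) * K := by
    apply mul_nonneg _ hK0.le
    linarith
  have hle : ⌊(t + 1) * K⌋₊ ≤ 2 * K := by
    have h2 : (⌊(t + 1) * K⌋₊ : ℝ) ≤ 2 * K := by
      refine (Nat.floor_le hn).trans ?_
      nlinarith
    exact_mod_cast h2
  have e : ((rnd K t : ℕ) : ℝ) = (⌊(t + 1) * K⌋₊ : ℝ) := by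
    show ((min ⌊(t + 1) * K⌋₊ (2 * K) : ℕ) : ℝ) = _
    rw [min_eq_left hle]
  have h3 := Nat.floor_le hn
  have h4 := Nat.lt_floor_add_one ((t + 1) * K)
  have e2 : gp K (rnd K t) - t = ((⌊(t + 1) * K⌋₊ : ℝ) - (t + 1) * K) / K := by
    unfold gp
    rw [e]
    field_simp
    ring
  rw [e2, abs_div, abs_of_pos hK0]
  apply div_le_div_of_nonneg_right _ hK0.le
  rw [abs_le]
  constructor <;> linarith

lemma rnd_meas (K : ℕ) : Measurable (rnd K) := by
  have h1 : Measurable fun t : ℝ => ⌊(t + 1) * K⌋₊ :=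
    Nat.measurable_floor.comp ((measurable_id.add_const 1).mul_const _)
  have h2 : rnd K = (fun n : ℕ => (⟨min n (2 * K), by omega⟩ : Fin (2 * K + 1))) ∘
      fun t : ℝ => ⌊(t + 1) * K⌋₊ := rfl
  rw [h2]
  exact (measurable_of_countable _).comp h1

/-- the complex grid point -/
noncomputable def gc (K : ℕ) (i j : Fin (2 * K + 1)) : ℂ := (gp K i : ℂ) + (gp K j : ℂ) * Complex.I

lemma gc_err {K : ℕ} (hK : 1 ≤ K) {z : ℂ} (hz : ‖z‖ ≤ 1) :
    ‖gc K (rnd K z.re) (rnd K z.im) - z‖ ≤ 2 / K := by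
  have h1 := (abs_le.1 ((Complex.abs_re_le_norm z).trans hz))
  have h2 := (abs_le.1 ((Complex.abs_im_le_norm z).trans hz))
  have h3 := rnd_err hK h1.1 h1.2
  have h4 := rnd_err hK h2.1 h2.2
  have e : gc K (rnd K z.re) (rnd K z.im) - z = ((gp K (rnd K z.re) - z.re : ℝ) : ℂ) +
      ((gp K (rnd K z.im) - z.im : ℝ) : ℂ) * Complex.I := by
    unfold gc
    conv_lhs => rw [← Complex.re_add_im z]
    simp only [Complex.add_re, Complex.ofReal_re, Complex.mul_re, Complex.I_re, mul_zero,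
      Complex.ofReal_im, Complex.I_im, mul_one, sub_self, add_zero, Complex.add_im,
      Complex.mul_im, zero_add]
    push_cast
    ring
  rw [e]
  refine (norm_add_le _ _).trans ?_
  rw [norm_mul, Complex.norm_I, mul_one, Complex.norm_real, Complex.norm_real, Real.norm_eq_abs,
    Real.norm_eq_abs]
  have : (2 : ℝ) / K = 1 / K + 1 / K := by ring
  rw [this]
  exact add_le_add h3 h4

/-- the index set -/
abbrev Gr (K : ℕ) : Type := (Fin (2 * K + 1) × Fin (2 * K + 1)) × (Fin (2 * K + 1) × Fin (2 * K + 1))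

variable {Ω : Type*} [MeasurableSpace Ω] {μ : Measure Ω} {p : ℝ≥0∞} [Fact (1 ≤ p)]

/-- the cell of a point -/
noncomputable def cell (K : ℕ) (x y : Ω → ℂ) (ω : Ω) : Gr K :=
  let m : ℂ := ((max ‖x ω‖ ‖y ω‖ : ℝ) : ℂ)
  ((rnd K (x ω / m).re, rnd K (x ω / m).im), (rnd K (y ω / m).re, rnd K (y ω / m).im))

omit [Fact (1 ≤ p)] in
lemma cell_meas (K : ℕ) {x y : Ω → ℂ} (hx : Measurable x) (hy : Measurable y) :
    Measurable (cell K x y) := by
  have hm : Measurable fun ω => ((max ‖x ω‖ ‖y ω‖ : ℝ) : ℂ) :=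
    Complex.measurable_ofReal.comp (hx.norm.max hy.norm)
  have h1 := hx.div hm
  have h2 := hy.div hm
  exact (((rnd_meas K).comp (Complex.measurable_re.comp h1)).prodMk
    ((rnd_meas K).comp (Complex.measurable_im.comp h1))).prodMk
    (((rnd_meas K).comp (Complex.measurable_re.comp h2)).prodMk
    ((rnd_meas K).comp (Complex.measurable_im.comp h2)))

lemma approxK (hp : p ≠ ∞) (h1 : 1 < p.toReal) (x y : Lp ℂ p μ) (hx : ‖x‖ ≤ 1) (hy : ‖y‖ ≤ 1)
    {K : ℕ} (hK : 1 ≤ K) :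
    ∃ (ι : Type) (_ : Fintype ι) (D : Fam μ p ι) (a b : lp (fun _ : ι => ℂ) p),
      Fintype.card ι ≤ (2 * K + 1) ^ 4 ∧
      ‖emb D hp h1 a - x‖ ≤ 4 / K ∧ ‖emb D hp h1 b - y‖ ≤ 4 / K := by
  classical
  have hp0 : 0 < p.toReal := by linarith
  have hxm : Measurable (⇑x) := (Lp.stronglyMeasurable x).measurable
  have hym : Measurable (⇑y) := (Lp.stronglyMeasurable y).measurable
  let m : Ω → ℂ := fun ω => ((max ‖x ω‖ ‖y ω‖ : ℝ) : ℂ)
  have hmm : Measurable m := Complex.measurable_ofReal.comp (hxm.norm.max hym.norm)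
  have hmn : ∀ ω, ‖m ω‖ = max ‖x ω‖ ‖y ω‖ := by
    intro ω
    show ‖((max ‖x ω‖ ‖y ω‖ : ℝ) : ℂ)‖ = _
    rw [Complex.norm_real, Real.norm_of_nonneg (le_max_of_le_left (norm_nonneg _))]
  have hmL : MemLp m p μ := by
    have h2 : MemLp (fun ω => ‖x ω‖ + ‖y ω‖) p μ := (Lp.memLp x).norm.add (Lp.memLp y).norm
    refine h2.mono hmm.aestronglyMeasurable (Eventually.of_forall fun ω => ?_)
    rw [hmn, Real.norm_of_nonneg (by positivity)]
    exact max_le (by linarith [norm_nonneg (y ω)]) (by linarith [norm_nonneg (x ω)])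
  let φ : Lp ℂ p μ := hmL.toLp m
  have hφ : φ =ᵐ[μ] m := MemLp.coeFn_toLp hmL
  have hφn : ‖φ‖ ≤ 2 := by
    have h2 : ‖φ‖ ^ p.toReal ≤ 2 := by
      rw [Lp_norm hp hp0]
      have h3 : ∫ ω, ‖φ ω‖ ^ p.toReal ∂μ ≤
          ∫ ω, (‖x ω‖ ^ p.toReal + ‖y ω‖ ^ p.toReal) ∂μ := by
        refine integral_mono_ae (Lp_int hp hp0 φ) ((Lp_int hp hp0 x).add (Lp_int hp hp0 y)) ?_
        filter_upwards [hφ] with ω h
        rw [h, hmn]
        have hx0 : 0 ≤ ‖x ω‖ ^ p.toReal := by positivity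
        have hy0 : 0 ≤ ‖y ω‖ ^ p.toReal := by positivity
        rcases le_total ‖x ω‖ ‖y ω‖ with h4 | h4
        · rw [max_eq_right h4]
          show _ ≤ ‖x ω‖ ^ p.toReal + ‖y ω‖ ^ p.toReal
          linarith
        · rw [max_eq_left h4]
          show _ ≤ ‖x ω‖ ^ p.toReal + ‖y ω‖ ^ p.toReal
          linarith
      refine h3.trans ?_
      rw [integral_add (Lp_int hp hp0 x) (Lp_int hp hp0 y), ← Lp_norm hp hp0, ← Lp_norm hp hp0]
      have h4 : ‖x‖ ^ p.toReal ≤ 1 := Real.rpow_le_one (norm_nonneg _) hx hp0.le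
      have h5 : ‖y‖ ^ p.toReal ≤ 1 := Real.rpow_le_one (norm_nonneg _) hy hp0.le
      linarith
    by_contra h3
    rw [not_le] at h3
    have h4 : (2 : ℝ) < ‖φ‖ ^ p.toReal := by
      calc (2 : ℝ) = 2 ^ (1 : ℝ) := (Real.rpow_one 2).symm
        _ ≤ 2 ^ p.toReal := Real.rpow_le_rpow_of_exponent_le (by norm_num) h1.le
        _ < ‖φ‖ ^ p.toReal := Real.rpow_lt_rpow (by norm_num) h3 hp0
    linarith
  let A : Gr K → Set Ω := fun i => {ω | cell K x y ω = i}
  have hA : ∀ i, MeasurableSet (A i) := fun i =>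
    cell_meas K hxm hym (measurableSet_singleton i)
  let ι : Type := {i : Gr K // Rs (hA i) φ ≠ 0}
  have hpos : ∀ i : ι, 0 < ‖Rs (hA i.1) φ‖ := fun i => norm_pos_iff.2 i.2
  let D : Fam μ p ι :=
    { A := fun i => A i.1
      hA := fun i => hA i.1
      dis := by
        intro i j hij
        rw [Set.disjoint_left]
        intro ω hi hj
        have e1 : cell K x y ω = i.1 := hi
        have e2 : cell K x y ω = j.1 := hj
        exact hij (Subtype.ext (e1.symm.trans e2))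
      e := fun i => (‖Rs (hA i.1) φ‖⁻¹ : ℂ) • Rs (hA i.1) φ
      norm_e := by
        intro i
        rw [norm_smul, norm_inv, Complex.norm_real, norm_norm, inv_mul_cancel₀ (hpos i).ne']
      supp := by
        intro i
        filter_upwards [Rs_coe (hA i.1) φ, Lp.coeFn_smul (‖Rs (hA i.1) φ‖⁻¹ : ℂ)
          (Rs (hA i.1) φ)] with ω h2 h3 h4
        rw [h3, Pi.smul_apply, h2, indicator_of_notMem h4, smul_zero] }
  have hcard : Fintype.card ι ≤ (2 * K + 1) ^ 4 := by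
    refine (Fintype.card_subtype_le _).trans (le_of_eq ?_)
    simp only [Fintype.card_prod, Fintype.card_fin]
    ring
  -- the approximation
  have key : ∀ (z : Lp ℂ p μ) (ψ : Gr K → ℂ),
      (∀ᵐ ω ∂μ, m ω ≠ 0 → ‖ψ (cell K x y ω) - z ω / m ω‖ ≤ 2 / K) →
      (∀ ω, m ω = 0 → z ω = 0) →
      ∃ a : lp (fun _ : ι => ℂ) p, ‖emb D hp h1 a - z‖ ≤ 4 / K := by
    intro z ψ hψ hz0
    refine ⟨⟨fun i => ψ i.1 * (‖Rs (hA i.1) φ‖ : ℂ), Memℓp.all _⟩, ?_⟩
    rw [emb_apply]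
    have e1 : (∑ i : ι, (ψ i.1 * (‖Rs (hA i.1) φ‖ : ℂ)) • D.e i : Lp ℂ p μ) =
        ∑ i : ι, ψ i.1 • Rs (hA i.1) φ := by
      refine Finset.sum_congr rfl fun i _ => ?_
      show (ψ i.1 * (‖Rs (hA i.1) φ‖ : ℂ)) • ((‖Rs (hA i.1) φ‖⁻¹ : ℂ) • Rs (hA i.1) φ) = _
      have hc : (‖Rs (hA i.1) φ‖ : ℂ) ≠ 0 := by exact_mod_cast (hpos i).ne'
      rw [smul_smul, mul_assoc, mul_inv_cancel₀ hc, mul_one]
    have e2 : (∑ i : ι, ψ i.1 • Rs (hA i.1) φ : Lp ℂ p μ) =
        ∑ i : Gr K, ψ i • Rs (hA i) φ := by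
      have e3 : ∑ i ∈ (Finset.univ.filter fun i : Gr K => Rs (hA i) φ ≠ 0), ψ i • Rs (hA i) φ =
          ∑ i : ι, ψ i.1 • Rs (hA i.1) φ := Finset.sum_subtype _ (by simp) _
      refine Eq.trans e3.symm ?_
      refine Finset.sum_subset (Finset.filter_subset _ _) fun i _ hi => ?_
      have h2 : Rs (hA i) φ = 0 := by
        by_contra h3
        exact hi (Finset.mem_filter.2 ⟨Finset.mem_univ _, h3⟩)
      rw [h2, smul_zero]
    show ‖(∑ i : ι, (ψ i.1 * (‖Rs (hA i.1) φ‖ : ℂ)) • D.e i : Lp ℂ p μ) - z‖ ≤ 4 / K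
    rw [e1, e2]
    have hsm : ∀ᵐ ω ∂μ, ∀ i : Gr K, (ψ i • Rs (hA i) φ : Lp ℂ p μ) ω =
        if cell K x y ω = i then ψ i * m ω else 0 :=
      ae_all_iff.2 fun i => by
        filter_upwards [Lp.coeFn_smul (ψ i) (Rs (hA i) φ), Rs_coe (hA i) φ, hφ] with ω h2 h3 h4
        rw [h2, Pi.smul_apply, h3, smul_eq_mul]
        by_cases h5 : cell K x y ω = i
        · rw [indicator_of_mem (show ω ∈ A i from h5), if_pos h5, h4]
        · rw [indicator_of_notMem (show ω ∉ A i from h5), if_neg h5, mul_zero]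
    have hae : ∀ᵐ ω ∂μ, ‖((∑ i : Gr K, ψ i • Rs (hA i) φ) - z : Lp ℂ p μ) ω‖ ≤
        2 / K * ‖φ ω‖ := by
      filter_upwards [hψ, hsm, hφ, Lp.coeFn_sub (∑ i : Gr K, ψ i • Rs (hA i) φ) z,
        Lp.coeFn_finsetSum Finset.univ fun i : Gr K => ψ i • Rs (hA i) φ] with ω a1 a2 a3 a4 a5
      rw [a4, Pi.sub_apply, a5, Finset.sum_apply, a3]
      simp only [a2]
      rw [Finset.sum_ite_eq Finset.univ (cell K x y ω) fun i => ψ i * m ω,
        if_pos (Finset.mem_univ _)]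
      by_cases hm0 : m ω = 0
      · rw [hm0, hz0 ω hm0, mul_zero, sub_zero, norm_zero, mul_zero]
      · have e3 : ψ (cell K x y ω) * m ω - z ω = (ψ (cell K x y ω) - z ω / m ω) * m ω := by
          field_simp
        rw [e3, norm_mul]
        exact mul_le_mul_of_nonneg_right (a1 hm0) (norm_nonneg _)
    have h2 := Lp.norm_le_mul_norm_of_ae_le_mul hae
    have hK0 : (0 : ℝ) < K := by exact_mod_cast hK
    refine h2.trans ?_
    calc 2 / (K : ℝ) * ‖φ‖ ≤ 2 / K * 2 := mul_le_mul_of_nonneg_left hφn (by positivity)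
      _ = 4 / K := by ring
  have hm0 : ∀ ω, m ω = 0 → x ω = 0 ∧ y ω = 0 := by
    intro ω h2
    have h3 : max ‖x ω‖ ‖y ω‖ = 0 := by rw [← hmn, h2, norm_zero]
    have h4 := le_max_left ‖x ω‖ ‖y ω‖
    have h5 := le_max_right ‖x ω‖ ‖y ω‖
    rw [h3] at h4 h5
    exact ⟨norm_le_zero_iff.1 h4, norm_le_zero_iff.1 h5⟩
  obtain ⟨a, ha⟩ := key x (fun i => gc K i.1.1 i.1.2) (Eventually.of_forall fun ω hne => by
    apply gc_err hK
    rw [norm_div, hmn, div_le_one]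
    · exact le_max_left _ _
    · rw [← hmn]
      exact norm_pos_iff.2 hne) fun ω h2 => (hm0 ω h2).1
  obtain ⟨b, hb⟩ := key y (fun i => gc K i.2.1 i.2.2) (Eventually.of_forall fun ω hne => by
    apply gc_err hK
    rw [norm_div, hmn, div_le_one]
    · exact le_max_right _ _
    · rw [← hmn]
      exact norm_pos_iff.2 hne) fun ω h2 => (hm0 ω h2).2
  exact ⟨ι, inferInstance, D, a, b, hcard, ha, hb⟩

/-- **Finite dimensional approximation, uniform in `p`.** -/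
theorem uniform_reduction [Nontrivial (Lp ℂ p μ)] (hp : p ≠ ∞) (h1 : 1 < p.toReal) {K : ℕ}
    (hK : 1 ≤ K) {c : ℝ} (hc00 : 0 ≤ c) (hc : ∀ (ι : Type) [Fintype ι] [Nonempty ι],
      Fintype.card ι ≤ (2 * K + 1) ^ 4 → c ≤ numIndex (lp (fun _ : ι => ℂ) p)) :
    (1 - 16 / K) * c ≤ numIndex (Lp ℂ p μ) := by
  have hK0 : (0 : ℝ) < K := by exact_mod_cast hK
  refine le_numIndex fun T hT => ?_
  have hv := numRadius_nonneg T
  by_cases hc0 : (1 - 16 / K) * c ≤ 0
  · exact hc0.trans hv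
  rw [not_le] at hc0
  have hcp : 0 < c := by
    rcases hc00.eq_or_lt with h | h
    · rw [← h, mul_zero] at hc0
      exact absurd hc0 (lt_irrefl _)
    · exact h
  have hk : 0 < 1 - 16 / (K : ℝ) := (mul_pos_iff_of_pos_right hcp).1 hc0
  set ε : ℝ := 4 / K with hε
  have hε0 : 0 < ε := by positivity
  have hε16 : 16 / (K : ℝ) = 4 * ε := by rw [hε]; ring
  rw [hε16] at hk ⊢
  have hη : 4 * ε ^ 2 ≤ ε := by nlinarith
  have hη0 : 0 < 4 * ε ^ 2 := by positivity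
  obtain ⟨x, hx, hTx⟩ := T.exists_lt_apply_of_lt_opNorm (r := 1 - 4 * ε ^ 2)
    (by rw [hT]; linarith)
  have hTx1 : ‖T x‖ ≤ 1 := by
    have := T.le_opNorm x
    rw [hT, one_mul] at this
    linarith
  obtain ⟨ι, _, D, a, b, hcard, ha, hb⟩ := approxK (μ := μ) hp h1 x (T x) hx.le hTx1 hK
  rw [← hε] at ha hb
  have hna : ‖a‖ ≤ 1 + ε := by
    rw [← emb_norm D hp h1 a]
    have := norm_le_norm_add_norm_sub' (emb D hp h1 a) x
    linarith
  have hnb : 1 - 4 * ε ^ 2 - ε ≤ ‖b‖ := by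
    rw [← emb_norm D hp h1 b]
    have := norm_le_norm_add_norm_sub' (T x) (emb D hp h1 b)
    rw [norm_sub_rev] at this
    linarith
  set S : lp (fun _ : ι => ℂ) p →L[ℂ] lp (fun _ : ι => ℂ) p :=
    (prj D hp h1).comp (T.comp (emb D hp h1)) with hS
  have hSa : 1 - 4 * ε ^ 2 - 3 * ε ≤ ‖S a‖ := by
    have e1 : b - S a = prj D hp h1 (emb D hp h1 b - T (emb D hp h1 a)) := by
      rw [map_sub, prj_emb]
      rfl
    have h2 : ‖b - S a‖ ≤ 2 * ε := by
      rw [e1]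
      refine (prj_norm D hp h1 _).trans ?_
      have e2 : emb D hp h1 b - T (emb D hp h1 a) =
          (emb D hp h1 b - T x) - T (emb D hp h1 a - x) := by
        rw [map_sub]
        abel
      rw [e2]
      refine (norm_sub_le _ _).trans ?_
      have h3 := T.le_opNorm (emb D hp h1 a - x)
      rw [hT, one_mul] at h3
      linarith
    have h3 := norm_le_norm_add_norm_sub' b (S a)
    linarith
  have hSn : 1 - 4 * ε ^ 2 - 3 * ε ≤ ‖S‖ * (1 + ε) :=
    hSa.trans ((S.le_opNorm a).trans (mul_le_mul_of_nonneg_left hna (norm_nonneg _)))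
  have hS0 : 0 < ‖S‖ := by
    by_contra h2
    have h3 : ‖S‖ = 0 := le_antisymm (not_lt.1 h2) (norm_nonneg _)
    rw [h3, zero_mul] at hSn
    linarith
  have hne : Nonempty ι := by
    by_contra h2
    rw [not_nonempty_iff] at h2
    have h3 : S = 0 := by
      apply ContinuousLinearMap.ext
      intro z
      apply lp.ext
      funext i
      exact h2.elim i
    rw [h3, norm_zero] at hS0
    exact lt_irrefl _ hS0
  have h2 := scale S hS0
  have h3 : numRadius S ≤ numRadius T :=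
    rad_compress T (emb D hp h1) (prj D hp h1) (emb_norm D hp h1) (prj_norm D hp h1)
      (prj_emb D hp h1)
  have h4 := hc ι hcard
  have h5 : c * ‖S‖ ≤ numRadius T :=
    (mul_le_mul_of_nonneg_right h4 (norm_nonneg _)).trans (h2.trans h3)
  have h6 : c * (1 - 4 * ε ^ 2 - 3 * ε) ≤ c * (‖S‖ * (1 + ε)) :=
    mul_le_mul_of_nonneg_left hSn hcp.le
  have h7 : c * ‖S‖ * (1 + ε) ≤ numRadius T * (1 + ε) :=
    mul_le_mul_of_nonneg_right h5 (by linarith)
  have h8 : (1 - 4 * ε) * c * (1 + ε) ≤ numRadius T * (1 + ε) := by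
    have e : (1 - 4 * ε) * c * (1 + ε) = c * (1 - 4 * ε ^ 2 - 3 * ε) := by ring
    rw [e]
    linarith
  exact le_of_mul_le_mul_right h8 (by linarith)

end Pool.Agent.H98.NIL
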