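import Pool.Agent.H98.NI.Dual

/-!
Upper bound for the numerical index of complex `L_p`.
-/

set_option autoImplicit false

open scoped ENNReal NNReal
open Set Filter Topology MeasureTheory

namespace Pool.Agent.H98.NIL

open Pool.Agent.H148R3.NM (J J_mul J_unit J_pos norm_J J_self J_zero J_one)
open Pool.Agent.H148R3.NI

lemma tangent {F α r : ℝ} (hr : 1 < r) (hF : 0 ≤ F) (hα : 0 ≤ α)
    (h : ∀ t : ℝ, 0 < t → (1 + t * F) ^ r ≤ 1 - α ^ r + (α + t) ^ r) : F ≤ α ^ (r - 1) := by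
  have h1 : ∀ t : ℝ, 0 < t → F ≤ (α + t) ^ (r - 1) := by
    intro t ht
    have hat : 0 < α + t := by linarith
    have h2 := one_add_mul_self_le_rpow_one_add (s := t * F) (by nlinarith [mul_nonneg ht.le hF])
      hr.le
    have hs : -1 ≤ -(t / (α + t)) := by
      rw [neg_le_neg_iff, div_le_one hat]
      linarith
    have h3 := one_add_mul_self_le_rpow_one_add hs hr.le
    have e1 : 1 + -(t / (α + t)) = α / (α + t) := by
      field_simp
      ring
    rw [e1, Real.div_rpow hα hat.le] at h3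
    have h4 : 0 < (α + t) ^ r := Real.rpow_pos_of_pos hat r
    rw [le_div_iff₀ h4] at h3
    have e2 : (α + t) ^ r = (α + t) ^ (r - 1) * (α + t) := by
      rw [← Real.rpow_add_one hat.ne', sub_add_cancel]
    have e3 : (1 + r * -(t / (α + t))) * (α + t) ^ r =
        (α + t) ^ r - r * t * (α + t) ^ (r - 1) := by
      rw [e2]
      field_simp
      ring
    rw [e3] at h3
    have h5 := h t ht
    have h6 : r * t * F ≤ r * t * (α + t) ^ (r - 1) := by linarith
    have h7 : 0 < r * t := by positivity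
    exact le_of_mul_le_mul_left h6 h7
  have h2 : Tendsto (fun t : ℝ => (α + t) ^ (r - 1)) (𝓝[>] 0) (𝓝 (α ^ (r - 1))) := by
    have h3 : ContinuousAt (fun t : ℝ => (α + t) ^ (r - 1)) 0 := by
      apply ContinuousAt.rpow_const (by fun_prop)
      right
      linarith
    have h4 := h3.tendsto
    simp only [add_zero] at h4
    exact h4.mono_left nhdsWithin_le_nhds
  refine ge_of_tendsto h2 ?_
  filter_upwards [self_mem_nhdsWithin] with t ht
  exact h1 t ht

lemma young2 {r α β : ℝ} (hr : 1 < r) (hα : 0 ≤ α) (hβ : 0 ≤ β) (h : α ^ r + β ^ r ≤ 1) :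
    β * α ^ (r - 1) ≤ max (1 / r) (1 - 1 / r) := by
  have hr1 : 0 < r - 1 := by linarith
  have hpq : r.HolderConjugate (r / (r - 1)) := Real.HolderConjugate.conjExponent hr
  have h1 := Real.young_inequality_of_nonneg hβ (by positivity : 0 ≤ α ^ (r - 1)) hpq
  have e1 : (α ^ (r - 1)) ^ (r / (r - 1)) = α ^ r := by
    rw [← Real.rpow_mul hα]
    congr 1
    field_simp
  have e2 : α ^ r / (r / (r - 1)) = (1 - 1 / r) * α ^ r := by
    field_simp
  rw [e1, e2] at h1
  have h2 : 0 ≤ α ^ r := by positivity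
  have h3 : 0 ≤ β ^ r := by positivity
  set M := max (1 / r) (1 - 1 / r) with hM
  have h4 : 1 / r ≤ M := le_max_left _ _
  have h5 : 1 - 1 / r ≤ M := le_max_right _ _
  have h6 : 0 ≤ M := le_trans (by positivity) h4
  have h7 := mul_le_mul_of_nonneg_right h4 h3
  have h8 := mul_le_mul_of_nonneg_right h5 h2
  have h9 := mul_le_mul_of_nonneg_left h h6
  have e3 : β ^ r / r = 1 / r * β ^ r := by ring
  rw [e3] at h1
  linarith

variable {Ω : Type*} [MeasurableSpace Ω] {μ : Measure Ω} {p : ℝ≥0∞} [Fact (1 ≤ p)]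

/-- restriction to `A` -/
noncomputable def Rs {A : Set Ω} (hA : MeasurableSet A) (u : Lp ℂ p μ) : Lp ℂ p μ :=
  ((Lp.memLp u).indicator hA).toLp _

omit [Fact (1 ≤ p)] in
lemma Rs_coe {A : Set Ω} (hA : MeasurableSet A) (u : Lp ℂ p μ) :
    Rs hA u =ᵐ[μ] A.indicator u := MemLp.coeFn_toLp _

lemma Rs_norm {A : Set Ω} (hA : MeasurableSet A) (hp : p ≠ ∞) (h1 : 1 < p.toReal)
    (u : Lp ℂ p μ) : ‖Rs hA u‖ ^ p.toReal = ∫ x in A, ‖u x‖ ^ p.toReal ∂μ := by
  have hp0 : 0 < p.toReal := by linarith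
  rw [Lp_norm hp hp0, ← integral_indicator hA]
  refine integral_congr_ae ?_
  filter_upwards [Rs_coe hA u] with x hx
  rw [hx]
  by_cases h : x ∈ A
  · rw [indicator_of_mem h, indicator_of_mem h]
  · rw [indicator_of_notMem h, indicator_of_notMem h, norm_zero, Real.zero_rpow hp0.ne']

lemma Rs_split {A : Set Ω} (hA : MeasurableSet A) (hp : p ≠ ∞) (h1 : 1 < p.toReal)
    (u : Lp ℂ p μ) :
    ‖u‖ ^ p.toReal = ‖Rs hA u‖ ^ p.toReal + ‖Rs hA.compl u‖ ^ p.toReal := by
  have hp0 : 0 < p.toReal := by linarith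
  rw [Rs_norm hA hp h1, Rs_norm hA.compl hp h1, Lp_norm hp hp0]
  exact (integral_add_compl hA (Lp_int hp hp0 u)).symm

lemma Rs_two {A B : Set Ω} (hA : MeasurableSet A) (hB : MeasurableSet B) (hAB : Disjoint A B)
    (hp : p ≠ ∞) (h1 : 1 < p.toReal) (u : Lp ℂ p μ) :
    ‖Rs hA u‖ ^ p.toReal + ‖Rs hB u‖ ^ p.toReal ≤ ‖u‖ ^ p.toReal := by
  have hp0 : 0 < p.toReal := by linarith
  rw [Rs_split hA hp h1 u]
  refine add_le_add le_rfl ?_
  rw [Rs_norm hB hp h1, Rs_norm hA.compl hp h1]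
  refine setIntegral_mono_set (Lp_int hp hp0 u).integrableOn
    (Eventually.of_forall fun x => by positivity) ?_
  exact (subset_compl_iff_disjoint_left.2 hAB).eventuallyLE

theorem upper {A B : Set Ω} (hA : MeasurableSet A) (hB : MeasurableSet B) (hAB : Disjoint A B)
    (hA0 : μ A ≠ 0) (hA1 : μ A ≠ ∞) (hB0 : μ B ≠ 0) (hB1 : μ B ≠ ∞)
    (hp : p ≠ ∞) (h1 : 1 < p.toReal) :
    numIndex (Lp ℂ p μ) ≤ max (1 / p.toReal) (1 - 1 / p.toReal) := by
  have hp0 : 0 < p.toReal := by linarith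
  have hpz : p ≠ 0 := fun h => by rw [h] at hp0; simp at hp0
  -- the two unit vectors
  have key : ∀ {C : Set Ω} (hC : MeasurableSet C), μ C ≠ 0 → μ C ≠ ∞ →
      ∃ x : Lp ℂ p μ, ‖x‖ = 1 ∧ ∀ᵐ ω ∂μ, ω ∉ C → x ω = 0 := by
    intro C hC h0 h2
    set g : Lp ℂ p μ := indicatorConstLp p hC h2 (1 : ℂ) with hg
    have hgn : 0 < ‖g‖ := by
      rw [hg, norm_indicatorConstLp hpz hp, norm_one, one_mul]
      apply Real.rpow_pos_of_pos
      exact ENNReal.toReal_pos h0 h2
    refine ⟨(‖g‖⁻¹ : ℂ) • g, ?_, ?_⟩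
    · rw [norm_smul, norm_inv, Complex.norm_real, norm_norm, inv_mul_cancel₀ hgn.ne']
    · filter_upwards [Lp.coeFn_smul (‖g‖⁻¹ : ℂ) g,
        indicatorConstLp_coeFn (p := p) (hs := hC) (hμs := h2) (c := (1 : ℂ))] with ω e1 e2 hω
      rw [e1, Pi.smul_apply, hg, e2, indicator_of_notMem hω, smul_zero]
  obtain ⟨x, hx, hxA⟩ := key hA hA0 hA1
  obtain ⟨y, hy, hyB⟩ := key hB hB0 hB1
  set T : Lp ℂ p μ →L[ℂ] Lp ℂ p μ := (NL hp h1 y).smulRight x with hT
  have hyn : ‖NL hp h1 y‖ = 1 := by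
    apply le_antisymm
    · have := NL_norm hp h1 y
      rwa [hy, Real.one_rpow] at this
    · have := (NL hp h1 y).le_opNorm y
      rw [NL_self, hy, Real.one_rpow, mul_one] at this
      simpa using this
  have hTn : ‖T‖ = 1 := by
    rw [hT, ContinuousLinearMap.norm_smulRight_apply, hyn, hx, mul_one]
  refine (numIndex_le T hTn).trans ?_
  have hM : 0 ≤ max (1 / p.toReal) (1 - 1 / p.toReal) :=
    le_trans (by positivity) (le_max_left _ _)
  refine numRadius_le T hM fun u f hu hf hfu => ?_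
  have e0 : f (T u) = NL hp h1 y u * f x := by
    rw [hT, ContinuousLinearMap.smulRight_apply, map_smul, smul_eq_mul]
  rw [e0, norm_mul]
  -- first factor
  have b1 : ‖NL hp h1 y u‖ ≤ ‖Rs hB u‖ := by
    have e1 : NL hp h1 y u = NL hp h1 y (Rs hB u) := by
      rw [NL_apply, NL_apply]
      refine integral_congr_ae ?_
      filter_upwards [hyB, Rs_coe hB u] with ω hω1 hω2
      by_cases h : ω ∈ B
      · rw [hω2, indicator_of_mem h]
      · rw [hω1 h, J_zero, zero_mul, zero_mul]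
    rw [e1]
    have := (NL hp h1 y).le_opNorm (Rs hB u)
    rwa [hyn, one_mul] at this
  -- second factor
  have b2 : ‖f x‖ ≤ ‖Rs hA u‖ ^ (p.toReal - 1) := by
    refine tangent h1 (norm_nonneg _) (norm_nonneg _) fun t ht => ?_
    obtain ⟨c, hc, hcx⟩ : ∃ c : ℂ, ‖c‖ = 1 ∧ c * f x = (‖f x‖ : ℂ) := by
      by_cases h0 : f x = 0
      · exact ⟨1, by simp, by simp [h0]⟩
      · refine ⟨(‖f x‖ : ℂ) / f x, ?_, ?_⟩
        · rw [norm_div, Complex.norm_real, norm_norm, div_self (norm_ne_zero_iff.2 h0)]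
        · field_simp
    set z : Lp ℂ p μ := u + ((t : ℂ) * c) • x with hz
    have e1 : f z = ((1 + t * ‖f x‖ : ℝ) : ℂ) := by
      rw [hz, map_add, map_smul, hfu, smul_eq_mul, mul_assoc, hcx]
      push_cast
      ring
    have h3 : 1 + t * ‖f x‖ ≤ ‖z‖ := by
      have h4 := f.le_opNorm z
      rw [hf, one_mul, e1, Complex.norm_real, Real.norm_of_nonneg (by positivity)] at h4
      exact h4
    have h5 : (1 + t * ‖f x‖) ^ p.toReal ≤ ‖z‖ ^ p.toReal :=
      Real.rpow_le_rpow (by positivity) h3 hp0.le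
    have e2 : Rs hA z = Rs hA u + ((t : ℂ) * c) • x := by
      apply Lp.ext
      filter_upwards [Rs_coe hA z, Rs_coe hA u, Lp.coeFn_add (Rs hA u) (((t : ℂ) * c) • x),
        Lp.coeFn_add u (((t : ℂ) * c) • x), Lp.coeFn_smul ((t : ℂ) * c) x, hxA]
        with ω a1 a2 a3 a4 a5 a6
      rw [a1, a3, Pi.add_apply, a2, a5, Pi.smul_apply]
      by_cases h : ω ∈ A
      · rw [indicator_of_mem h, indicator_of_mem h, hz, a4, Pi.add_apply, a5, Pi.smul_apply]
      · rw [indicator_of_notMem h, indicator_of_notMem h, a6 h, smul_zero, zero_add]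
    have e3 : Rs hA.compl z = Rs hA.compl u := by
      apply Lp.ext
      filter_upwards [Rs_coe hA.compl z, Rs_coe hA.compl u,
        Lp.coeFn_add u (((t : ℂ) * c) • x), Lp.coeFn_smul ((t : ℂ) * c) x, hxA]
        with ω a1 a2 a4 a5 a6
      rw [a1, a2]
      by_cases h : ω ∈ Aᶜ
      · rw [indicator_of_mem h, indicator_of_mem h, hz, a4, Pi.add_apply, a5, Pi.smul_apply,
          a6 h, smul_zero, add_zero]
      · rw [indicator_of_notMem h, indicator_of_notMem h]
    have h6 : ‖Rs hA z‖ ≤ ‖Rs hA u‖ + t := by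
      rw [e2]
      refine (norm_add_le _ _).trans ?_
      rw [norm_smul, norm_mul, hc, hx, Complex.norm_real, Real.norm_of_nonneg ht.le, mul_one,
        mul_one]
    have h7 := Rs_split hA hp h1 z
    have h8 := Rs_split hA hp h1 u
    rw [hu, Real.one_rpow] at h8
    rw [e3] at h7
    have h9 : ‖Rs hA z‖ ^ p.toReal ≤ (‖Rs hA u‖ + t) ^ p.toReal :=
      Real.rpow_le_rpow (norm_nonneg _) h6 hp0.le
    linarith
  have b3 := Rs_two hA hB hAB hp h1 u
  rw [hu, Real.one_rpow] at b3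
  have b4 := young2 h1 (norm_nonneg (Rs hA u)) (norm_nonneg (Rs hB u)) b3
  refine le_trans ?_ b4
  exact mul_le_mul b1 b2 (norm_nonneg _) (norm_nonneg _)

end Pool.Agent.H98.NIL
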